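import Mathlib
import Pool.Agent.L0h42.TB.B17

/-! The main terms of the sieve sums over a family of systems of linear forms. -/

set_option autoImplicit false
set_option linter.unusedSectionVars false

namespace Pool.Agent.L0h42.EG
open Finset
open Pool.Agent.L0h42.TB
open Pool.Agent.H373R2.T7

section gen
variable {κ : Type*} [Fintype κ] [DecidableEq κ]

open Classical in
/-- the count in an interval -/
lemma int_count (c : κ → ℤ) (D : κ → ℕ) (z y1 y2 N r K : ℕ) (hy : y1 ≤ y2) (hyN : y2 ≤ N) (hK : Fintype.card κ ≤ K) (hK1 : 1 ≤ K)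
    (hD : ∀ x, 1 ≤ D x) (hr : ∀ x, ∀ p ∈ pz z, ¬ p ∣ D x) (hcop : ∀ x y, x ≠ y → (D x).Coprime (D y)) :
    |(((Ioc y1 y2).filter (fun a => Hit c D a ∧ Rgh z c a)).card : ℝ) - ((y2 : ℝ) - y1) / (∏ x, D x : ℕ) * VV z c| ≤
      2 * (((z : ℝ) + 1) ^ r * (K : ℝ) ^ r) + 4 * ((N : ℝ) / (∏ x, D x : ℕ)) * Real.exp (3 * (K * (1 + Real.log z)) - r) := by
  have g1 := count_gen c D z y2 r K hK hK1 hD hr hcop
  have g2 := count_gen c D z y1 r K hK hK1 hD hr hcop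
  have e1 : (((Icc 1 y2).filter (fun a => Hit c D a ∧ Rgh z c a)).card : ℝ) =
      (((Icc 1 y1).filter (fun a => Hit c D a ∧ Rgh z c a)).card : ℝ) + (((Ioc y1 y2).filter (fun a => Hit c D a ∧ Rgh z c a)).card : ℝ) := by
    rw [← Nat.cast_add, ← card_union_of_disjoint]
    · congr 2
      ext a
      simp only [mem_filter, mem_union, mem_Icc, mem_Ioc]
      constructor
      · rintro ⟨h1, h2⟩
        by_cases h3 : a ≤ y1
        · exact Or.inl ⟨⟨h1.1, h3⟩, h2⟩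
        · exact Or.inr ⟨⟨by omega, h1.2⟩, h2⟩
      · rintro (⟨h1, h2⟩ | ⟨h1, h2⟩)
        · exact ⟨by omega, h2⟩
        · exact ⟨by omega, h2⟩
    · rw [disjoint_left]
      intro a ha hb
      rw [mem_filter, mem_Icc] at ha
      rw [mem_filter, mem_Ioc] at hb
      omega
  have hP0 : (0 : ℝ) ≤ (∏ x, D x : ℕ) := Nat.cast_nonneg _
  have d1 : (y1 : ℝ) / (∏ x, D x : ℕ) ≤ (N : ℝ) / (∏ x, D x : ℕ) :=
    div_le_div_of_nonneg_right (by exact_mod_cast hy.trans hyN) hP0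
  have d2 : (y2 : ℝ) / (∏ x, D x : ℕ) ≤ (N : ℝ) / (∏ x, D x : ℕ) :=
    div_le_div_of_nonneg_right (by exact_mod_cast hyN) hP0
  have he := Real.exp_pos (3 * (K * (1 + Real.log z)) - r)
  have d3 := mul_le_mul_of_nonneg_right d1 he.le
  have d4 := mul_le_mul_of_nonneg_right d2 he.le
  have g3 : (((Ioc y1 y2).filter (fun a => Hit c D a ∧ Rgh z c a)).card : ℝ) - ((y2 : ℝ) - y1) / (∏ x, D x : ℕ) * VV z c =
      ((((Icc 1 y2).filter (fun a => Hit c D a ∧ Rgh z c a)).card : ℝ) - (y2 : ℝ) / (∏ x, D x : ℕ) * VV z c) -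
      ((((Icc 1 y1).filter (fun a => Hit c D a ∧ Rgh z c a)).card : ℝ) - (y1 : ℝ) / (∏ x, D x : ℕ) * VV z c) := by
    rw [e1]; ring
  rw [g3]
  refine (abs_sub _ _).trans ?_
  nlinarith [add_le_add g1 g2]

open Classical in
/-- **the main terms over a family.** -/
theorem main_gen {τ : Type*} (T : Finset τ) (c : τ → κ → ℤ) (z R y1 y2 N r K Q : ℕ) (hy : y1 ≤ y2) (hyN : y2 ≤ N)
    (hK : Fintype.card κ ≤ K) (hK1 : 1 ≤ K) (hz : 1 ≤ z) (hR : 1 ≤ R)
    (Λ : (κ → ℕ) → ℝ) (W : ℝ) (hW : 0 ≤ W) (hΛ : ∀ d ∈ PD κ z R, |Λ d| ≤ W) (hs : ∀ d, Λ d ≠ 0 → ∏ l, d l ≤ Q)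
    (Γ : ℝ) (hΓ : 0 ≤ Γ) (hconf : ∀ x ∈ PD κ z R ×ˢ PD κ z R, Λ x.1 ≠ 0 → Λ x.2 ≠ 0 → Conf x →
      ∑ t ∈ T, (((Ioc y1 y2).filter (fun a => Hit (c t) (lc x) a)).card : ℝ) ≤ Γ * (1 / (∏ l, lc x l : ℕ))) :
    ∑ t ∈ T, |∑ a ∈ Ioc y1 y2, Gr z (c t) a * SS z R Λ (c t) a ^ 2 - ((y2 : ℝ) - y1) * VV z (c t) * Qf z R Λ| ≤
      W * W * ((1 + Real.log R) ^ 3) ^ (Fintype.card κ) *
        (T.card * (2 * (((z : ℝ) + 1) ^ r * (K : ℝ) ^ r * (Q * Q)) + 4 * N * Real.exp (3 * (K * (1 + Real.log z)) - r)) +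
          (Γ + T.card * N) * ((K : ℝ) ^ 2 * (9 / z))) := by
  obtain ⟨PP, hPP⟩ : ∃ PP, PP = PD κ z R ×ˢ PD κ z R := ⟨_, rfl⟩
  have hyr : (0 : ℝ) ≤ (y2 : ℝ) - y1 := by
    have : (y1 : ℝ) ≤ y2 := by exact_mod_cast hy
    linarith
  have hyN' : (y2 : ℝ) - y1 ≤ N := by
    have : (y2 : ℝ) ≤ N := by exact_mod_cast hyN
    have h0 : (0 : ℝ) ≤ y1 := Nat.cast_nonneg _
    linarith
  have g1 : ∀ t ∈ T, |∑ a ∈ Ioc y1 y2, Gr z (c t) a * SS z R Λ (c t) a ^ 2 - ((y2 : ℝ) - y1) * VV z (c t) * Qf z R Λ| ≤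
      ∑ x ∈ PP, |Λ x.1 * Λ x.2| * |(((Ioc y1 y2).filter (fun a => Hit (c t) (lc x) a ∧ Rgh z (c t) a)).card : ℝ) -
        ((y2 : ℝ) - y1) / (∏ l, lc x l : ℕ) * VV z (c t)| := by
    intro t _
    have e2 : ((y2 : ℝ) - y1) * VV z (c t) * Qf z R Λ = ∑ x ∈ PP, Λ x.1 * Λ x.2 * (((y2 : ℝ) - y1) / (∏ l, lc x l : ℕ) * VV z (c t)) := by
      rw [Qf_lc, ← hPP, mul_sum]
      apply sum_congr rfl
      intro x _
      ring
    rw [expandG, e2, ← hPP, ← sum_sub_distrib]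
    refine (abs_sum_le_sum_abs _ _).trans (le_of_eq ?_)
    apply sum_congr rfl
    intro x _
    rw [← mul_sub, abs_mul]
  refine (sum_le_sum g1).trans ?_
  rw [sum_comm]
  obtain ⟨εr, hεr⟩ : ∃ εr : ℝ, εr = 2 * (((z : ℝ) + 1) ^ r * (K : ℝ) ^ r * (Q * Q)) + 4 * N * Real.exp (3 * (K * (1 + Real.log z)) - r) := ⟨_, rfl⟩
  have hεr0 : 0 ≤ εr := by rw [hεr]; positivity
  have g2 : ∀ x ∈ PP, ∑ t ∈ T, |Λ x.1 * Λ x.2| * |(((Ioc y1 y2).filter (fun a => Hit (c t) (lc x) a ∧ Rgh z (c t) a)).card : ℝ) -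
        ((y2 : ℝ) - y1) / (∏ l, lc x l : ℕ) * VV z (c t)| ≤
      W * W * (T.card * εr) * (1 / (∏ l, lc x l : ℕ)) +
      (if Conf x then W * W * (Γ + T.card * N) * (1 / (∏ l, lc x l : ℕ)) else 0) := by
    intro x hx
    have hx' := hx
    rw [hPP] at hx'
    rw [hPP, mem_product] at hx
    have hrhs : 0 ≤ W * W * (T.card * εr) * (1 / (∏ l, lc x l : ℕ)) +
      (if Conf x then W * W * (Γ + T.card * N) * (1 / (∏ l, lc x l : ℕ)) else 0) := by
      apply add_nonneg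
      · positivity
      · split_ifs
        · positivity
        · exact le_rfl
    rw [← mul_sum]
    by_cases hz1 : Λ x.1 = 0
    · rw [hz1, zero_mul, abs_zero, zero_mul]; exact hrhs
    by_cases hz2 : Λ x.2 = 0
    · rw [hz2, mul_zero, abs_zero, zero_mul]; exact hrhs
    obtain ⟨a1, a2, a3⟩ := lc_rough hx.1 hx.2
    have hD1 : 1 ≤ ∏ l, lc x l := Nat.pos_of_ne_zero (prod_ne_zero_iff.2 fun l _ => by have := a1 l; omega)
    have hD0 : (0 : ℝ) < (∏ l, lc x l : ℕ) := by exact_mod_cast hD1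
    have hLL : |Λ x.1 * Λ x.2| ≤ W * W := by
      rw [abs_mul]
      exact mul_le_mul (hΛ _ hx.1) (hΛ _ hx.2) (abs_nonneg _) hW
    have hd : ∏ l, lc x l ≤ Q * Q := (lc_prod_le x).trans (Nat.mul_le_mul (hs _ hz1) (hs _ hz2))
    by_cases hc : Conf x
    · rw [if_pos hc]
      have p1 := hconf x hx' hz1 hz2 hc
      have p2 : ∑ t ∈ T, |(((Ioc y1 y2).filter (fun a => Hit (c t) (lc x) a ∧ Rgh z (c t) a)).card : ℝ) - ((y2 : ℝ) - y1) / (∏ l, lc x l : ℕ) * VV z (c t)| ≤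
          (Γ + T.card * N) * (1 / (∏ l, lc x l : ℕ)) := by
        calc _ ≤ ∑ t ∈ T, ((((Ioc y1 y2).filter (fun a => Hit (c t) (lc x) a)).card : ℝ) + (N : ℝ) / (∏ l, lc x l : ℕ)) := by
              apply sum_le_sum
              intro t _
              have q1 := VV_nonneg z (c t)
              have q2 := VV_le_one z (c t)
              have q3 : (0 : ℝ) ≤ ((y2 : ℝ) - y1) / (∏ l, lc x l : ℕ) := by positivity
              have q4 : ((y2 : ℝ) - y1) / (∏ l, lc x l : ℕ) ≤ (N : ℝ) / (∏ l, lc x l : ℕ) := div_le_div_of_nonneg_right hyN' hD0.le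
              refine (abs_sub _ _).trans ?_
              rw [Nat.abs_cast, abs_of_nonneg (mul_nonneg q3 q1)]
              have q5 := mul_le_mul_of_nonneg_left q2 q3
              have q6 : (((Ioc y1 y2).filter (fun a => Hit (c t) (lc x) a ∧ Rgh z (c t) a)).card : ℝ) ≤
                  (((Ioc y1 y2).filter (fun a => Hit (c t) (lc x) a)).card : ℝ) := by
                exact_mod_cast card_le_card (by
                  intro a ha
                  rw [mem_filter] at ha ⊢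
                  exact ⟨ha.1, ha.2.1⟩)
              linarith
          _ ≤ Γ * (1 / (∏ l, lc x l : ℕ)) + T.card * ((N : ℝ) / (∏ l, lc x l : ℕ)) := by
              rw [sum_add_distrib]
              apply add_le_add p1
              rw [sum_const, nsmul_eq_mul]
          _ = (Γ + T.card * N) * (1 / (∏ l, lc x l : ℕ)) := by ring
      have p3 : 0 ≤ W * W * (T.card * εr) * (1 / (∏ l, lc x l : ℕ)) := by positivity
      calc _ ≤ W * W * ((Γ + T.card * N) * (1 / (∏ l, lc x l : ℕ))) :=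
            mul_le_mul hLL p2 (sum_nonneg fun _ _ => abs_nonneg _) (by positivity)
        _ = W * W * (Γ + T.card * N) * (1 / (∏ l, lc x l : ℕ)) := by ring
        _ ≤ _ := by linarith
    · rw [if_neg hc, add_zero]
      unfold Conf at hc
      push Not at hc
      have p1 : ∀ t ∈ T, |(((Ioc y1 y2).filter (fun a => Hit (c t) (lc x) a ∧ Rgh z (c t) a)).card : ℝ) - ((y2 : ℝ) - y1) / (∏ l, lc x l : ℕ) * VV z (c t)| ≤
          εr * (1 / (∏ l, lc x l : ℕ)) := by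
        intro t _
        refine (int_count (c t) (lc x) z y1 y2 N r K hy hyN hK hK1 a1 a2 hc).trans ?_
        have q1 : (1 : ℝ) ≤ (Q * Q) * (1 / (∏ l, lc x l : ℕ)) := by
          rw [mul_one_div, one_le_div hD0]
          exact_mod_cast hd
        have q2 : ((z : ℝ) + 1) ^ r * (K : ℝ) ^ r ≤ ((z : ℝ) + 1) ^ r * (K : ℝ) ^ r * ((Q * Q) * (1 / (∏ l, lc x l : ℕ))) :=
          le_mul_of_one_le_right (by positivity) q1
        rw [hεr]
        calc _ ≤ 2 * (((z : ℝ) + 1) ^ r * (K : ℝ) ^ r * ((Q * Q) * (1 / (∏ l, lc x l : ℕ)))) +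
              4 * ((N : ℝ) / (∏ l, lc x l : ℕ)) * Real.exp (3 * (K * (1 + Real.log z)) - r) := by linarith
          _ = _ := by ring
      have p2 : ∑ t ∈ T, |(((Ioc y1 y2).filter (fun a => Hit (c t) (lc x) a ∧ Rgh z (c t) a)).card : ℝ) - ((y2 : ℝ) - y1) / (∏ l, lc x l : ℕ) * VV z (c t)| ≤
          T.card * (εr * (1 / (∏ l, lc x l : ℕ))) := by
        refine (sum_le_sum p1).trans (le_of_eq ?_)
        rw [sum_const, nsmul_eq_mul]
      calc _ ≤ W * W * (T.card * (εr * (1 / (∏ l, lc x l : ℕ)))) :=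
            mul_le_mul hLL p2 (sum_nonneg fun _ _ => abs_nonneg _) (by positivity)
        _ = _ := by ring
  refine (sum_le_sum g2).trans ?_
  rw [sum_add_distrib, ← mul_sum, ← sum_filter, ← mul_sum]
  have s1 := sum_lc_gen (κ := κ) z R
  have s2 := conf_sum (κ := κ) z R hz hR
  have hKr : (Fintype.card κ : ℝ) ≤ K := by exact_mod_cast hK
  have s3 : ∑ x ∈ PP.filter (fun x => Conf x), (1 : ℝ) / (∏ l, lc x l : ℕ) ≤ (K : ℝ) ^ 2 * (9 / z) * ((1 + Real.log R) ^ 3) ^ (Fintype.card κ) := by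
    rw [hPP]
    refine s2.trans ?_
    have hRr : (1 : ℝ) ≤ R := by exact_mod_cast hR
    have := Real.log_nonneg hRr
    gcongr
  rw [← hPP] at s1
  calc _ ≤ W * W * (T.card * εr) * ((1 + Real.log R) ^ 3) ^ (Fintype.card κ) +
        W * W * (Γ + T.card * N) * ((K : ℝ) ^ 2 * (9 / z) * ((1 + Real.log R) ^ 3) ^ (Fintype.card κ)) := by
        apply add_le_add
        · exact mul_le_mul_of_nonneg_left s1 (by positivity)
        · exact mul_le_mul_of_nonneg_left s3 (by positivity)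
    _ = _ := by rw [hεr]; ring

end gen

end Pool.Agent.L0h42.EG
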