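import Mathlib
import Pool.Agent.L0h42.EG.E1
import Pool.Agent.L0h42.TB.B19

/-! Shifted systems of forms; the first two moments. -/

set_option autoImplicit false
set_option linter.unusedSectionVars false

namespace Pool.Agent.L0h42.EG
open Finset
open Pool.Agent.L0h42.TB
open Pool.Agent.H373R2.T7

section sh
variable {k : ℕ}

/-- the forms `n + s + h l` -/
def cz (h : Fin k → ℕ) (s : ℤ) : Fin k → ℤ := fun l => -(h l : ℤ) - s

/-- the forms `n + s + h l`, `n + s' + h l` -/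
def c2 (h : Fin k → ℕ) (s s' : ℤ) : Fin k ⊕ Fin k → ℤ := Sum.elim (cz h s) (cz h s')

lemma sub_cz (h : Fin k → ℕ) {n a : ℕ} {s : ℤ} (ha : (a : ℤ) = n + s) (l : Fin k) : (n : ℤ) - cz h s l = (a : ℤ) - cneg h l := by
  unfold cz cneg
  rw [ha]; ring

lemma hit_cz (h : Fin k → ℕ) {n a : ℕ} {s : ℤ} (ha : (a : ℤ) = n + s) (δ : Fin k → ℕ) : Hit (cz h s) δ n ↔ Hit (cneg h) δ a := by
  unfold Hit
  exact forall_congr' fun l => by rw [sub_cz h ha]

lemma som_cz (h : Fin k → ℕ) {n a : ℕ} {s : ℤ} (ha : (a : ℤ) = n + s) (p : ℕ) : Som (cz h s) p n ↔ Som (cneg h) p a := by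
  unfold Som
  exact exists_congr fun l => by rw [sub_cz h ha]

lemma Gr_cz (z : ℕ) (h : Fin k → ℕ) {n a : ℕ} {s : ℤ} (ha : (a : ℤ) = n + s) : Gr z (cz h s) n = Gr z (cneg h) a := by
  classical
  unfold Gr Rgh
  have : (∀ p ∈ pz z, ¬ Som (cz h s) p n) ↔ (∀ p ∈ pz z, ¬ Som (cneg h) p a) :=
    forall_congr' fun p => forall_congr' fun _ => not_congr (som_cz h ha p)
  by_cases h1 : ∀ p ∈ pz z, ¬ Som (cneg h) p a
  · rw [if_pos h1, if_pos (this.2 h1)]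
  · rw [if_neg h1, if_neg fun h2 => h1 (this.1 h2)]

lemma SS_cz (z R : ℕ) (Λ : (Fin k → ℕ) → ℝ) (h : Fin k → ℕ) {n a : ℕ} {s : ℤ} (ha : (a : ℤ) = n + s) :
    SS z R Λ (cz h s) n = SS z R Λ (cneg h) a := by
  classical
  unfold SS
  apply sum_congr rfl
  intro d _
  by_cases h1 : Hit (cneg h) d a
  · rw [if_pos h1, if_pos ((hit_cz h ha d).2 h1)]
  · rw [if_neg h1, if_neg fun h2 => h1 ((hit_cz h ha d).1 h2)]

lemma hit_c2 (h : Fin k → ℕ) {n a a' : ℕ} {s s' : ℤ} (ha : (a : ℤ) = n + s) (ha' : (a' : ℤ) = n + s') (δ : Fin k ⊕ Fin k → ℕ) :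
    Hit (c2 h s s') δ n ↔ Hit (cneg h) (fun l => δ (Sum.inl l)) a ∧ Hit (cneg h) (fun l => δ (Sum.inr l)) a' := by
  rw [← hit_cz h ha, ← hit_cz h ha']
  unfold Hit c2
  constructor
  · exact fun h1 => ⟨fun l => h1 (Sum.inl l), fun l => h1 (Sum.inr l)⟩
  · rintro ⟨h1, h2⟩ (l | l)
    · exact h1 l
    · exact h2 l

lemma som_c2 (h : Fin k → ℕ) (n p : ℕ) (s s' : ℤ) : Som (c2 h s s') p n ↔ Som (cz h s) p n ∨ Som (cz h s') p n := by
  unfold Som c2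
  constructor
  · rintro ⟨l | l, h1⟩
    · exact Or.inl ⟨l, h1⟩
    · exact Or.inr ⟨l, h1⟩
  · rintro (⟨l, h1⟩ | ⟨l, h1⟩)
    · exact ⟨Sum.inl l, h1⟩
    · exact ⟨Sum.inr l, h1⟩

lemma SS_c2 (z R : ℕ) (Λ Λ' : (Fin k → ℕ) → ℝ) (h : Fin k → ℕ) (n : ℕ) (s s' : ℤ) :
    SS z R (Lj Λ Λ') (c2 h s s') n = SS z R Λ (cz h s) n * SS z R Λ' (cz h s') n := by
  classical
  unfold SS
  rw [sum_PD_sum, sum_mul_sum]
  apply sum_congr rfl
  intro d _
  apply sum_congr rfl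
  intro e _
  unfold Lj
  simp only [Sum.elim_inl, Sum.elim_inr]
  have h1 : Hit (c2 h s s') (Sum.elim d e) n ↔ Hit (cz h s) d n ∧ Hit (cz h s') e n := by
    unfold Hit c2
    constructor
    · exact fun h1 => ⟨fun l => h1 (Sum.inl l), fun l => h1 (Sum.inr l)⟩
    · rintro ⟨h1, h2⟩ (l | l)
      · exact h1 l
      · exact h2 l
  by_cases h2 : Hit (cz h s) d n
  · by_cases h3 : Hit (cz h s') e n
    · rw [if_pos h2, if_pos h3, if_pos (h1.2 ⟨h2, h3⟩)]; ring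
    · rw [if_neg h3, if_neg fun h4 => h3 (h1.1 h4).2]; ring
  · rw [if_neg h2, if_neg fun h4 => h2 (h1.1 h4).1]; ring

lemma Gr_c2 (z : ℕ) (h : Fin k → ℕ) (n : ℕ) (s s' : ℤ) : Gr z (c2 h s s') n = Gr z (cz h s) n * Gr z (cz h s') n := by
  classical
  unfold Gr
  have h1 : Rgh z (c2 h s s') n ↔ Rgh z (cz h s) n ∧ Rgh z (cz h s') n := by
    unfold Rgh
    constructor
    · intro h1
      exact ⟨fun p hp h2 => h1 p hp ((som_c2 h n p s s').2 (Or.inl h2)), fun p hp h2 => h1 p hp ((som_c2 h n p s s').2 (Or.inr h2))⟩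
    · rintro ⟨h1, h2⟩ p hp h3
      rcases (som_c2 h n p s s').1 h3 with h4 | h4
      · exact h1 p hp h4
      · exact h2 p hp h4
  by_cases h2 : Rgh z (cz h s) n
  · by_cases h3 : Rgh z (cz h s') n
    · rw [if_pos h2, if_pos h3, if_pos (h1.2 ⟨h2, h3⟩)]; ring
    · rw [if_neg h3, if_neg fun h4 => h3 (h1.1 h4).2]; ring
  · rw [if_neg h2, if_neg fun h4 => h2 (h1.1 h4).1]; ring

lemma FF_c2 (z R : ℕ) (Λ : (Fin k → ℕ) → ℝ) (h : Fin k → ℕ) {n a a' : ℕ} {s s' : ℤ} (ha : (a : ℤ) = n + s) (ha' : (a' : ℤ) = n + s') :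
    Gr z (c2 h s s') n * SS z R (Lj Λ Λ) (c2 h s s') n ^ 2 = FF z R h Λ a * FF z R h Λ a' := by
  rw [Gr_c2, SS_c2, Gr_cz z h ha, Gr_cz z h ha', SS_cz z R Λ h ha, SS_cz z R Λ h ha']
  unfold FF
  ring

lemma FF_cz (z R : ℕ) (Λ : (Fin k → ℕ) → ℝ) (h : Fin k → ℕ) {n a : ℕ} {s : ℤ} (ha : (a : ℤ) = n + s) :
    Gr z (cz h s) n * SS z R Λ (cz h s) n ^ 2 = FF z R h Λ a := by
  rw [Gr_cz z h ha, SS_cz z R Λ h ha]
  rfl

/-- residues -/
lemma nu_eq {κ : Type*} [Fintype κ] [DecidableEq κ] (c : κ → ℤ) (p : ℕ) [NeZero p] :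
    nu c p = (univ.image (fun x => ((c x : ℤ) : ZMod p))).card := by
  classical
  unfold nu
  symm
  apply card_bij' (fun y _ => y.val) (fun r _ => ((r : ℕ) : ZMod p))
  · intro y hy
    rw [mem_image] at hy
    obtain ⟨x, _, hx⟩ := hy
    rw [mem_filter, mem_range]
    refine ⟨ZMod.val_lt y, x, ?_⟩
    rw [← ZMod.intCast_zmod_eq_zero_iff_dvd]
    push_cast
    rw [ZMod.natCast_val, ZMod.cast_id, hx, sub_self]
  · intro r hr
    rw [mem_filter, mem_range] at hr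
    obtain ⟨_, x, hx⟩ := hr
    rw [mem_image]
    refine ⟨x, mem_univ _, ?_⟩
    rw [← ZMod.intCast_zmod_eq_zero_iff_dvd] at hx
    push_cast at hx
    rw [sub_eq_zero] at hx
    exact hx.symm
  · intro y _
    rw [ZMod.natCast_val, ZMod.cast_id]
  · intro r hr
    rw [mem_filter, mem_range] at hr
    exact ZMod.val_cast_of_lt hr.1

lemma nu_cz (h : Fin k → ℕ) (s : ℤ) (p : ℕ) [NeZero p] : nu (cz h s) p = nu (cneg h) p := by
  classical
  rw [nu_eq, nu_eq]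
  have : (univ.image (fun x => ((cz h s x : ℤ) : ZMod p))) = (univ.image (fun x => ((cneg h x : ℤ) : ZMod p))).image (fun y => y - (s : ZMod p)) := by
    rw [image_image]
    apply image_congr
    intro x _
    simp only [Function.comp, cz, cneg]
    push_cast
    ring
  rw [this, card_image_of_injective _ (sub_left_injective)]

lemma VV_cz (z : ℕ) (h : Fin k → ℕ) (s : ℤ) : VV z (cz h s) = VV z (cneg h) := by
  unfold VV
  apply prod_congr rfl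
  intro p hp
  have : NeZero p := ⟨(mem_pz.1 hp).2.ne_zero⟩
  rw [nu_cz]

lemma sum_prod_mul {α β : Type*} (s : Finset α) (t : Finset β) (f : α → ℝ) (g : β → ℝ) :
    ∑ x ∈ s ×ˢ t, f x.1 * g x.2 = (∑ x ∈ s, f x) * (∑ y ∈ t, g y) := by
  rw [sum_product, sum_mul_sum]

open Classical in
lemma tcount (N Y U : ℕ) (h : Fin k → ℕ) (hN : 6 * Y ≤ N) (hU : U ≤ Y) (M : Finset ℕ) (hM : M ⊆ Icc 1 Y) (D : Fin k → ℕ) (n : ℕ)
    (hn : n ∈ Ioc (2 * Y) (4 * Y)) :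
    ∑ t ∈ range U ×ˢ M, (if Hit (cneg h) D (n + t.1 - t.2) then (1 : ℝ) else 0) ≤
      U * (((Icc 1 N).filter (fun a => Hit (cneg h) D a)).card : ℝ) := by
  rw [mem_Ioc] at hn
  rw [sum_product]
  have h1 : ∀ u ∈ range U, ∑ j ∈ M, (if Hit (cneg h) D (n + u - j) then (1 : ℝ) else 0) ≤
      (((Icc 1 N).filter (fun a => Hit (cneg h) D a)).card : ℝ) := by
    intro u hu
    rw [mem_range] at hu
    rw [← sum_filter, sum_const, nsmul_eq_mul, mul_one]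
    have : (M.filter (fun j => Hit (cneg h) D (n + u - j))).card ≤ ((Icc 1 N).filter (fun a => Hit (cneg h) D a)).card := by
      apply card_le_card_of_injOn (fun j => n + u - j)
      · intro j hj
        rw [mem_coe, mem_filter] at hj
        have hj1 := mem_Icc.1 (hM hj.1)
        rw [mem_coe, mem_filter, mem_Icc]
        refine ⟨?_, hj.2⟩
        change 1 ≤ n + u - j ∧ n + u - j ≤ N
        omega
      · intro i hi j hj hij
        rw [mem_coe, mem_filter] at hi hj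
        have hi1 := mem_Icc.1 (hM hi.1)
        have hj1 := mem_Icc.1 (hM hj.1)
        simp only at hij
        omega
    exact_mod_cast this
  refine (sum_le_sum h1).trans (le_of_eq ?_)
  rw [sum_const, card_range, nsmul_eq_mul]

open Classical in
lemma pair_count2 (z R N Y U : ℕ) (h : Fin k → ℕ) (hinj : Function.Injective h) (hz : ∀ l, h l ≤ z) (hN : 6 * Y ≤ N) (hU : U ≤ Y)
    (M : Finset ℕ) (hM : M ⊆ Icc 1 Y)
    (x : (Fin k ⊕ Fin k → ℕ) × (Fin k ⊕ Fin k → ℕ)) (h1 : x.1 ∈ PD (Fin k ⊕ Fin k) z R) (h2 : x.2 ∈ PD (Fin k ⊕ Fin k) z R)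
    (hDl : ∏ l, lc (xl x) l ≤ N) (hDr : ∏ l, lc (xr x) l ≤ N) :
    ∑ t ∈ (range U ×ˢ M) ×ˢ (range U ×ˢ M), (((Ioc (2 * Y) (4 * Y)).filter
      (fun n => Hit (c2 h ((t.1.1 : ℤ) - t.1.2) ((t.2.1 : ℤ) - t.2.2)) (lc x) n)).card : ℝ) ≤
      4 * U ^ 2 * N ^ 3 * (1 / (∏ l, lc x l : ℕ)) := by
  have hl1 : (xl x).1 ∈ PD (Fin k) z R := mem_PD.2 fun l => mem_PD.1 h1 _
  have hl2 : (xl x).2 ∈ PD (Fin k) z R := mem_PD.2 fun l => mem_PD.1 h2 _
  have hr1 : (xr x).1 ∈ PD (Fin k) z R := mem_PD.2 fun l => mem_PD.1 h1 _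
  have hr2 : (xr x).2 ∈ PD (Fin k) z R := mem_PD.2 fun l => mem_PD.1 h2 _
  have d1 := hit_count z R N N h hinj hz (xl x) hl1 hl2 le_rfl hDl
  have d2 := hit_count z R N N h hinj hz (xr x) hr1 hr2 le_rfl hDr
  have e1 : ∀ t ∈ (range U ×ˢ M) ×ˢ (range U ×ˢ M), (((Ioc (2 * Y) (4 * Y)).filter
      (fun n => Hit (c2 h ((t.1.1 : ℤ) - t.1.2) ((t.2.1 : ℤ) - t.2.2)) (lc x) n)).card : ℝ) =
      ∑ n ∈ Ioc (2 * Y) (4 * Y), (if Hit (cneg h) (lc (xl x)) (n + t.1.1 - t.1.2) then (1 : ℝ) else 0) *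
        (if Hit (cneg h) (lc (xr x)) (n + t.2.1 - t.2.2) then (1 : ℝ) else 0) := by
    intro t ht
    rw [mem_product, mem_product, mem_product] at ht
    have j1 := mem_Icc.1 (hM ht.1.2)
    have j2 := mem_Icc.1 (hM ht.2.2)
    rw [card_filter]
    push_cast
    apply sum_congr rfl
    intro n hn
    rw [mem_Ioc] at hn
    have q := hit_c2 h (n := n) (a := n + t.1.1 - t.1.2) (a' := n + t.2.1 - t.2.2) (s := (t.1.1 : ℤ) - t.1.2) (s' := (t.2.1 : ℤ) - t.2.2)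
      (by omega) (by omega) (lc x)
    have q2 : (Hit (cneg h) (fun l => lc x (Sum.inl l)) (n + t.1.1 - t.1.2) ↔ Hit (cneg h) (lc (xl x)) (n + t.1.1 - t.1.2)) := Iff.rfl
    have q3 : (Hit (cneg h) (fun l => lc x (Sum.inr l)) (n + t.2.1 - t.2.2) ↔ Hit (cneg h) (lc (xr x)) (n + t.2.1 - t.2.2)) := Iff.rfl
    rw [q2, q3] at q
    by_cases q4 : Hit (cneg h) (lc (xl x)) (n + t.1.1 - t.1.2)
    · by_cases q5 : Hit (cneg h) (lc (xr x)) (n + t.2.1 - t.2.2)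
      · rw [if_pos q4, if_pos q5, if_pos (q.2 ⟨q4, q5⟩), mul_one]
      · rw [if_neg q5, if_neg fun q6 => q5 (q.1 q6).2, mul_zero]
    · rw [if_neg q4, if_neg fun q6 => q4 (q.1 q6).1, zero_mul]
  rw [sum_congr rfl e1, sum_comm]
  have e2 : ∀ n ∈ Ioc (2 * Y) (4 * Y), ∑ t ∈ (range U ×ˢ M) ×ˢ (range U ×ˢ M), (if Hit (cneg h) (lc (xl x)) (n + t.1.1 - t.1.2) then (1 : ℝ) else 0) *
        (if Hit (cneg h) (lc (xr x)) (n + t.2.1 - t.2.2) then (1 : ℝ) else 0) ≤ (U * (2 * N * (1 / (∏ l, lc (xl x) l : ℕ)))) * (U * (2 * N * (1 / (∏ l, lc (xr x) l : ℕ)))) := by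
    intro n hn
    rw [sum_prod_mul (range U ×ˢ M) (range U ×ˢ M) (fun t => if Hit (cneg h) (lc (xl x)) (n + t.1 - t.2) then (1 : ℝ) else 0)
      (fun t => if Hit (cneg h) (lc (xr x)) (n + t.1 - t.2) then (1 : ℝ) else 0)]
    apply mul_le_mul
    · exact (tcount N Y U h hN hU M hM (lc (xl x)) n hn).trans (mul_le_mul_of_nonneg_left d1 (Nat.cast_nonneg _))
    · exact (tcount N Y U h hN hU M hM (lc (xr x)) n hn).trans (mul_le_mul_of_nonneg_left d2 (Nat.cast_nonneg _))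
    · exact sum_nonneg fun _ _ => by split_ifs <;> norm_num
    · positivity
  refine (sum_le_sum e2).trans ?_
  rw [sum_const, Nat.card_Ioc, nsmul_eq_mul, lc_prod]
  have hc : ((4 * Y - 2 * Y : ℕ) : ℝ) ≤ N := by exact_mod_cast (show 4 * Y - 2 * Y ≤ N by omega)
  push_cast
  calc ((4 * Y - 2 * Y : ℕ) : ℝ) * (U * (2 * N * (1 / ∏ l, (lc (xl x) l : ℝ))) * (U * (2 * N * (1 / ∏ l, (lc (xr x) l : ℝ))))) ≤
      N * (U * (2 * N * (1 / ∏ l, (lc (xl x) l : ℝ))) * (U * (2 * N * (1 / ∏ l, (lc (xr x) l : ℝ))))) := by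
        apply mul_le_mul_of_nonneg_right hc
        positivity
    _ = _ := by
        rw [one_div, one_div, one_div, mul_inv]
        ring

end sh

end Pool.Agent.L0h42.EG
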