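import Mathlib
import Pool.Agent.L0h42.EG.E2

/-! The first two moments of the sieve sums over shifted points. -/

set_option autoImplicit false
set_option linter.unusedSectionVars false

namespace Pool.Agent.L0h42.EG
open Finset
open Pool.Agent.L0h42.TB
open Pool.Agent.H373R2.T7

/-- common choices -/
lemma setup (κc B A : ℕ) (hκ : 1 ≤ κc) : ∃ E0 : ℕ, ∀ E : ℕ, ∃ N0 : ℕ, ∀ N : ℕ, N0 ≤ N → ∀ z R : ℕ,
    Real.log N ^ E0 ≤ z → (z : ℝ) ≤ Real.log N ^ E → 1 ≤ R → R ^ 80 ≤ N → 1 ≤ z ∧ 1 ≤ Real.log N ∧ R * R ≤ N ∧ ∃ r : ℕ,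
      (Real.log N ^ B * Real.log N ^ B) * ((1 + Real.log R) ^ 3) ^ κc *
        ((2 * (((z : ℝ) + 1) ^ r * (κc : ℝ) ^ r * ((R * R : ℕ) * (R * R : ℕ))) + 4 * N * Real.exp (3 * (κc * (1 + Real.log z)) - r)) +
        5 * N * ((κc : ℝ) ^ 2 * (9 / z))) ≤ N / Real.log N ^ A := by
  obtain ⟨U, hU⟩ : ∃ U, U = A + 2 * B + 3 * κc + 1 := ⟨_, rfl⟩
  refine ⟨U, fun E => ?_⟩
  obtain ⟨m2, h2⟩ := choice κc E U 40
  obtain ⟨m3, h3⟩ := log_le_t (U + (3 * (κc * (1 + E)) + U + 1) * κc)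
  obtain ⟨m4, h4⟩ := ev_L' (45 * κc ^ 2 + 6)
  refine ⟨max m2 (max m3 (max m4 3)), ?_⟩
  intro N hN z R hz1 hz2 hR1 hR
  have n2 : m2 ≤ N := le_trans (le_max_left _ _) hN
  have nn := le_trans (le_max_right m2 _) hN
  have n3 : m3 ≤ N := le_trans (le_max_left _ _) nn
  have n4 : m4 ≤ N := le_trans (le_trans (le_max_left _ _) (le_max_right _ _)) nn
  have hN3 : 3 ≤ N := le_trans (le_trans (le_max_right _ _) (le_max_right _ _)) nn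
  have hN1 : 1 ≤ N := by omega
  have hN0 : (0 : ℝ) < N := by exact_mod_cast hN1
  obtain ⟨t, ht0, ht40, hsq⟩ := exists_t N hN1
  have hLm := h3 N n3 t ht0 ht40 hsq
  have hL8 := h4 N n4
  obtain ⟨r, hr1, hr2, hr3⟩ := h2 N n2 z hz2
  set L := Real.log N with hLd
  have hkk : (0 : ℝ) ≤ 45 * (κc : ℝ) ^ 2 := by positivity
  have hL1 : 1 ≤ L := by linarith
  have hL0 : 0 < L := by linarith
  have hz0 : (0 : ℝ) < z := lt_of_lt_of_le (by positivity) hz1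
  have hz : 1 ≤ z := by exact_mod_cast hz0
  have hRr : (1 : ℝ) ≤ R := by exact_mod_cast hR1
  have hlR0 : 0 ≤ Real.log R := Real.log_nonneg hRr
  have hlogR : 1 + Real.log R ≤ L := by
    have e1 : Real.log ((R : ℝ) ^ 80) ≤ L := Real.log_le_log (by positivity) (by exact_mod_cast hR)
    rw [Real.log_pow] at e1
    push_cast at e1
    nlinarith
  have ht1 : 1 ≤ t := by
    have : L ≤ t := le_trans (le_self_pow₀ hL1 (by omega)) hLm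
    linarith
  have hzt : ((z : ℝ) + 1) ^ r ≤ t := by
    apply le_of_pow_le_pow_left₀ (n := 40) (by norm_num) ht0
    rw [ht40]
    exact hr2
  have hRt : (R : ℝ) * R ≤ t := by
    apply le_of_pow_le_pow_left₀ (n := 40) (by norm_num) ht0
    rw [ht40]
    have e1 : ((R : ℝ) * R) ^ 40 = (R : ℝ) ^ 80 := by ring
    rw [e1]
    exact_mod_cast hR
  have hkr2 : (κc : ℝ) ^ r * L ^ U ≤ t := by
    calc (κc : ℝ) ^ r * L ^ U ≤ L ^ ((3 * (κc * (1 + E)) + U + 1) * κc) * L ^ U := mul_le_mul_of_nonneg_right (hr3 κc) (by positivity)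
      _ = L ^ (U + (3 * (κc * (1 + E)) + U + 1) * κc) := by rw [← pow_add, add_comm]
      _ ≤ t := hLm
  have hR2N : R * R ≤ N := by
    have : (R : ℝ) * R ≤ N := by
      calc (R : ℝ) * R ≤ t := hRt
        _ ≤ t ^ 40 := le_self_pow₀ ht1 (by norm_num)
        _ = N := ht40
    exact_mod_cast this
  refine ⟨hz, hL1, hR2N, r, ?_⟩
  have hT : ((1 + Real.log R) ^ 3) ^ κc ≤ L ^ (3 * κc) := by
    calc ((1 + Real.log R) ^ 3) ^ κc ≤ (L ^ 3) ^ κc :=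
          pow_le_pow_left₀ (by positivity) (pow_le_pow_left₀ (by positivity) hlogR 3) _
      _ = L ^ (3 * κc) := by rw [← pow_mul]
  have q1 : ((z : ℝ) + 1) ^ r * (κc : ℝ) ^ r * ((R * R : ℕ) * (R * R : ℕ)) ≤ N / L ^ U := by
    rw [le_div_iff₀ (by positivity)]
    push_cast
    calc ((z : ℝ) + 1) ^ r * (κc : ℝ) ^ r * ((R * R) * (R * R)) * L ^ U =
          ((z : ℝ) + 1) ^ r * ((κc : ℝ) ^ r * L ^ U) * ((R * R) * (R * R)) := by ring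
      _ ≤ t * t * (t * t) := by gcongr
      _ = t ^ 4 := by ring
      _ ≤ t ^ 40 := pow_le_pow_right₀ ht1 (by norm_num)
      _ = N := ht40
  have q2 : 4 * (N : ℝ) * Real.exp (3 * (κc * (1 + Real.log z)) - r) ≤ 4 * (N / L ^ U) := by
    calc 4 * (N : ℝ) * Real.exp (3 * (κc * (1 + Real.log z)) - r) ≤ 4 * N * (1 / L ^ U) := by
          apply mul_le_mul_of_nonneg_left hr1 (by positivity)
      _ = _ := by ring
  have q3 : 5 * (N : ℝ) * ((κc : ℝ) ^ 2 * (9 / z)) ≤ 45 * κc ^ 2 * (N / L ^ U) := by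
    have q4 : (9 : ℝ) / z ≤ 9 / L ^ U := div_le_div_of_nonneg_left (by norm_num) (by positivity) hz1
    calc 5 * (N : ℝ) * ((κc : ℝ) ^ 2 * (9 / z)) ≤ 5 * N * ((κc : ℝ) ^ 2 * (9 / L ^ U)) := by gcongr
      _ = _ := by ring
  have hW : (0 : ℝ) ≤ (L ^ B * L ^ B) * L ^ (3 * κc) := by positivity
  calc _ ≤ (L ^ B * L ^ B) * L ^ (3 * κc) * ((6 + 45 * κc ^ 2) * (N / L ^ U)) := by
        apply mul_le_mul (mul_le_mul_of_nonneg_left hT (by positivity)) _ (by positivity) hW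
        linarith
    _ = (45 * κc ^ 2 + 6) / L * (N / L ^ A) := by
        rw [hU]
        have e3 : L ^ (A + 2 * B + 3 * κc + 1) = L ^ A * (L ^ B * L ^ B) * L ^ (3 * κc) * L := by ring
        rw [e3]
        field_simp
        ring
    _ ≤ 1 * (N / L ^ A) := by
        apply mul_le_mul_of_nonneg_right _ (by positivity)
        rw [div_le_one (by positivity)]
        exact hL8
    _ = _ := one_mul _

/-- **the second moment.** -/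
theorem second_main (k A B : ℕ) (hk : 1 ≤ k) : ∃ E0 : ℕ, ∀ E : ℕ, ∃ N0 : ℕ, ∀ N : ℕ, N0 ≤ N → ∀ z R Y U : ℕ,
    Real.log N ^ E0 ≤ z → (z : ℝ) ≤ Real.log N ^ E → 1 ≤ R → R ^ 80 ≤ N → 6 * Y ≤ N → U ≤ Y →
    ∀ h : Fin k → ℕ, Function.Injective h → (∀ l, h l ≤ z) → ∀ M ⊆ Icc 1 Y, ∀ Λ : (Fin k → ℕ) → ℝ,
    (∀ d ∈ PD (Fin k) z R, |Λ d| ≤ Real.log N ^ B) → (∀ d, Λ d ≠ 0 → ∏ l, d l ≤ R) →
    ∑ t ∈ (range U ×ˢ M) ×ˢ (range U ×ˢ M), |∑ n ∈ Ioc (2 * Y) (4 * Y),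
        FF z R h Λ (n + t.1.1 - t.1.2) * FF z R h Λ (n + t.2.1 - t.2.2) -
      2 * Y * VV z (c2 h ((t.1.1 : ℤ) - t.1.2) ((t.2.1 : ℤ) - t.2.2)) * (Qf z R Λ * Qf z R Λ)| ≤ U ^ 2 * N ^ 3 / Real.log N ^ A := by
  classical
  obtain ⟨E0, hE0⟩ := setup (2 * k) (2 * B) A (by omega)
  refine ⟨E0, fun E => ?_⟩
  obtain ⟨N0, h0⟩ := hE0 E
  refine ⟨N0, ?_⟩
  intro N hN z R Y U hz1 hz2 hR1 hR hY hU h hinj hhz M hM Λ hΛ hs
  obtain ⟨hz, hL1, hR2N, r, hr⟩ := h0 N hN z R hz1 hz2 hR1 hR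
  set L := Real.log N with hLd
  have hL0 : 0 < L := by linarith
  have hB0 : (0 : ℝ) ≤ L ^ B := by positivity
  have hLB : L ^ (2 * B) = L ^ B * L ^ B := by ring
  obtain ⟨Λj, hΛj⟩ : ∃ Λj, Λj = Lj Λ Λ := ⟨_, rfl⟩
  have hj1 : ∀ δ ∈ PD (Fin k ⊕ Fin k) z R, |Λj δ| ≤ L ^ (2 * B) := by
    intro δ hδ
    rw [hΛj, hLB]
    unfold Lj
    rw [abs_mul]
    exact mul_le_mul (hΛ _ (mem_PD.2 fun l => mem_PD.1 hδ _)) (hΛ _ (mem_PD.2 fun l => mem_PD.1 hδ _)) (abs_nonneg _) hB0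
  have hj2 : ∀ δ, Λj δ ≠ 0 → ∏ l, δ (Sum.inl l) ≤ R ∧ ∏ l, δ (Sum.inr l) ≤ R := by
    intro δ hδ
    rw [hΛj] at hδ
    unfold Lj at hδ
    exact ⟨hs _ (left_ne_zero_of_mul hδ), hs _ (right_ne_zero_of_mul hδ)⟩
  have hj3 : ∀ δ, Λj δ ≠ 0 → ∏ l, δ l ≤ R * R := by
    intro δ hδ
    rw [Fintype.prod_sum_type]
    exact Nat.mul_le_mul (hj2 δ hδ).1 (hj2 δ hδ).2
  have hcard : Fintype.card (Fin k ⊕ Fin k) = 2 * k := by simp; omega
  obtain ⟨TT, hTT⟩ : ∃ TT, TT = (range U ×ˢ M) ×ˢ (range U ×ˢ M) := ⟨_, rfl⟩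
  have key := main_gen TT (fun t => c2 h ((t.1.1 : ℤ) - t.1.2) ((t.2.1 : ℤ) - t.2.2)) z R (2 * Y) (4 * Y) N r (2 * k) (R * R)
    (by omega) (by omega) hcard.le (by omega) hz hR1 Λj (L ^ (2 * B)) (by positivity) hj1 hj3 (4 * U ^ 2 * N ^ 3) (by positivity) (by
      intro x hx hx1 hx2 _
      rw [mem_product] at hx
      rw [hTT]
      exact pair_count2 z R N Y U h hinj hhz hY hU M hM x hx.1 hx.2
        (((lc_prod_le (xl x)).trans (Nat.mul_le_mul (hj2 _ hx1).1 (hj2 _ hx2).1)).trans hR2N)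
        (((lc_prod_le (xr x)).trans (Nat.mul_le_mul (hj2 _ hx1).2 (hj2 _ hx2).2)).trans hR2N))
  rw [hcard] at key
  have e1 : ∀ t ∈ TT, |∑ n ∈ Ioc (2 * Y) (4 * Y),
        FF z R h Λ (n + t.1.1 - t.1.2) * FF z R h Λ (n + t.2.1 - t.2.2) -
      2 * Y * VV z (c2 h ((t.1.1 : ℤ) - t.1.2) ((t.2.1 : ℤ) - t.2.2)) * (Qf z R Λ * Qf z R Λ)| =
      |∑ a ∈ Ioc (2 * Y) (4 * Y), Gr z (c2 h ((t.1.1 : ℤ) - t.1.2) ((t.2.1 : ℤ) - t.2.2)) a *
        SS z R Λj (c2 h ((t.1.1 : ℤ) - t.1.2) ((t.2.1 : ℤ) - t.2.2)) a ^ 2 -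
        (((4 * Y : ℕ) : ℝ) - ((2 * Y : ℕ) : ℝ)) * VV z (c2 h ((t.1.1 : ℤ) - t.1.2) ((t.2.1 : ℤ) - t.2.2)) * Qf z R Λj| := by
    intro t ht
    rw [hTT, mem_product, mem_product, mem_product] at ht
    have j1 := mem_Icc.1 (hM ht.1.2)
    have j2 := mem_Icc.1 (hM ht.2.2)
    congr 1
    rw [hΛj, Qf_joint]
    have e2 : (((4 * Y : ℕ) : ℝ) - ((2 * Y : ℕ) : ℝ)) = 2 * Y := by push_cast; ring
    rw [e2]
    congr 1
    apply sum_congr rfl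
    intro n hn
    rw [mem_Ioc] at hn
    exact (FF_c2 z R Λ h (n := n) (a := n + t.1.1 - t.1.2) (a' := n + t.2.1 - t.2.2) (s := (t.1.1 : ℤ) - t.1.2) (s' := (t.2.1 : ℤ) - t.2.2)
      (by omega) (by omega)).symm
  rw [← hTT, sum_congr rfl e1]
  refine key.trans ?_
  have hc1 : (TT.card : ℝ) ≤ U ^ 2 * N ^ 2 := by
    have : TT.card ≤ U ^ 2 * N ^ 2 := by
      rw [hTT, card_product, card_product, card_range]
      have h1 : M.card ≤ N := by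
        have := card_le_card hM
        rw [Nat.card_Icc] at this
        omega
      calc U * M.card * (U * M.card) ≤ U * N * (U * N) := Nat.mul_le_mul (Nat.mul_le_mul_left _ h1) (Nat.mul_le_mul_left _ h1)
        _ = _ := by ring
    exact_mod_cast this
  have hRr : (1 : ℝ) ≤ R := by exact_mod_cast hR1
  have hlR0 : 0 ≤ Real.log R := Real.log_nonneg hRr
  have hUN : (0 : ℝ) ≤ (U : ℝ) ^ 2 * N ^ 2 := by positivity
  calc _ ≤ L ^ (2 * B) * L ^ (2 * B) * ((1 + Real.log R) ^ 3) ^ (2 * k) *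
        ((U ^ 2 * N ^ 2) * (2 * (((z : ℝ) + 1) ^ r * ((2 * k : ℕ) : ℝ) ^ r * ((R * R : ℕ) * (R * R : ℕ))) + 4 * N * Real.exp (3 * (((2 * k : ℕ) : ℝ) * (1 + Real.log z)) - r)) +
          (4 * U ^ 2 * N ^ 3 + (U ^ 2 * N ^ 2) * N) * (((2 * k : ℕ) : ℝ) ^ 2 * (9 / z))) := by
        gcongr
    _ = (U ^ 2 * N ^ 2) * (L ^ (2 * B) * L ^ (2 * B) * ((1 + Real.log R) ^ 3) ^ (2 * k) *
        ((2 * (((z : ℝ) + 1) ^ r * ((2 * k : ℕ) : ℝ) ^ r * ((R * R : ℕ) * (R * R : ℕ))) + 4 * N * Real.exp (3 * (((2 * k : ℕ) : ℝ) * (1 + Real.log z)) - r)) +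
          5 * N * (((2 * k : ℕ) : ℝ) ^ 2 * (9 / z)))) := by ring
    _ ≤ (U ^ 2 * N ^ 2) * (N / L ^ A) := mul_le_mul_of_nonneg_left hr hUN
    _ = _ := by ring

/-- **the first moment.** -/
theorem first_main (k A B : ℕ) (hk : 1 ≤ k) : ∃ E0 : ℕ, ∀ E : ℕ, ∃ N0 : ℕ, ∀ N : ℕ, N0 ≤ N → ∀ z R Y U : ℕ,
    Real.log N ^ E0 ≤ z → (z : ℝ) ≤ Real.log N ^ E → 1 ≤ R → R ^ 80 ≤ N → 6 * Y ≤ N → U ≤ Y →
    ∀ h : Fin k → ℕ, Function.Injective h → (∀ l, h l ≤ z) → ∀ Λ : (Fin k → ℕ) → ℝ,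
    (∀ d ∈ PD (Fin k) z R, |Λ d| ≤ Real.log N ^ B) → (∀ d, Λ d ≠ 0 → ∏ l, d l ≤ R) → ∀ u j : ℕ, u < U → 1 ≤ j → j ≤ Y →
    |∑ n ∈ Ioc (2 * Y) (4 * Y), FF z R h Λ (n + u - j) - 2 * Y * VV z (cneg h) * Qf z R Λ| ≤ N / Real.log N ^ A := by
  classical
  obtain ⟨E0, hE0⟩ := setup k B A hk
  refine ⟨E0, fun E => ?_⟩
  obtain ⟨N0, h0⟩ := hE0 E
  refine ⟨N0, ?_⟩
  intro N hN z R Y U hz1 hz2 hR1 hR hY hU h hinj hhz Λ hΛ hs u j hu hj1 hj2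
  obtain ⟨hz, hL1, hR2N, r, hr⟩ := h0 N hN z R hz1 hz2 hR1 hR
  set L := Real.log N with hLd
  have hL0 : 0 < L := by linarith
  have hcard : Fintype.card (Fin k) = k := Fintype.card_fin k
  have hRR : R ≤ R * R := Nat.le_mul_self R
  have key := main_gen ({()} : Finset Unit) (fun _ => cz h ((u : ℤ) - j)) z R (2 * Y) (4 * Y) N r k (R * R)
    (by omega) (by omega) hcard.le hk hz hR1 Λ (L ^ B) (by positivity) hΛ (fun d hd => (hs d hd).trans hRR) 0 le_rfl (by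
      intro x hx hx1 hx2 hc
      rw [mem_product] at hx
      rw [sum_singleton, zero_mul, filter_eq_empty_iff.2, card_empty, Nat.cast_zero]
      intro n hn hh
      rw [mem_Ioc] at hn
      have h1 := (hit_cz h (n := n) (a := n + u - j) (s := (u : ℤ) - j) (by omega) (lc x)).1 hh
      exact hc (hit_coprime hinj hhz hx.1 hx.2 h1))
  rw [hcard, sum_singleton, card_singleton, VV_cz] at key
  have e1 : ∑ n ∈ Ioc (2 * Y) (4 * Y), FF z R h Λ (n + u - j) =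
      ∑ a ∈ Ioc (2 * Y) (4 * Y), Gr z (cz h ((u : ℤ) - j)) a * SS z R Λ (cz h ((u : ℤ) - j)) a ^ 2 := by
    apply sum_congr rfl
    intro n hn
    rw [mem_Ioc] at hn
    exact (FF_cz z R Λ h (n := n) (a := n + u - j) (s := (u : ℤ) - j) (by omega)).symm
  have e2 : (((4 * Y : ℕ) : ℝ) - ((2 * Y : ℕ) : ℝ)) = 2 * Y := by push_cast; ring
  rw [e2] at key
  rw [e1]
  refine key.trans ?_
  have hRr : (1 : ℝ) ≤ R := by exact_mod_cast hR1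
  have hlR0 : 0 ≤ Real.log R := Real.log_nonneg hRr
  refine le_trans ?_ hr
  apply mul_le_mul_of_nonneg_left _ (by positivity)
  have q0 : (0 : ℝ) ≤ (k : ℝ) ^ 2 * (9 / z) := by positivity
  have q1 : (0 : ℝ) ≤ N := Nat.cast_nonneg _
  have q2 : (0 : ℝ) ≤ N * ((k : ℝ) ^ 2 * (9 / z)) := by positivity
  push_cast
  nlinarith

end Pool.Agent.L0h42.EG
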