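import Mathlib
import Pool.Agent.L0h42.EG.E2
import Pool.Agent.H373R2.T7.Crt

/-! Averages of the singular factor over short intervals of shifts: small primes. -/

set_option autoImplicit false
set_option linter.unusedSectionVars false

namespace Pool.Agent.L0h42.EG
open Finset
open Pool.Agent.L0h42.TB
open Pool.Agent.H373R2.T7

section per
variable {κ : Type*} [Fintype κ] [DecidableEq κ]

lemma prod_pz_pos (w : ℕ) : 0 < ∏ p ∈ pz w, p := prod_pos fun p hp => (mem_pz.1 hp).2.pos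

open Classical in
lemma card_period (w : ℕ) (c : κ → ℤ) :
    (((range (∏ p ∈ pz w, p)).filter (fun a => Rgh w c a)).card : ℝ) = (∏ p ∈ pz w, p : ℕ) * VV w c := by
  have h1 := crt_card (fun p a => ¬ Som c p a) (pz w) (fun p hp => (mem_pz.1 hp).2)
  have h2 : (range (∏ p ∈ pz w, p)).filter (fun a => Rgh w c a) = (range (∏ p ∈ pz w, p)).filter (fun n => ∀ p ∈ pz w, ¬ Som c p (n % p)) := by
    apply filter_congr
    intro a _
    unfold Rgh
    exact forall_congr' fun p => forall_congr' fun _ => not_congr (som_mod c p a).symm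
  rw [h2]
  have h3 : ((range (∏ p ∈ pz w, p)).filter (fun n => ∀ p ∈ pz w, ¬ Som c p (n % p))).card = ∏ p ∈ pz w, ((range p).filter (fun a => ¬ Som c p a)).card := by
    convert h1
  rw [h3]
  push_cast
  unfold VV
  rw [← prod_mul_distrib]
  apply prod_congr rfl
  intro p hp
  have hp0 : (0 : ℝ) < p := by exact_mod_cast (mem_pz.1 hp).2.pos
  have h4 : ((range p).filter (fun a => ¬ Som c p a)).card + nu c p = p := by
    unfold nu
    have := card_filter_add_card_filter_not (s := range p) (fun a => Som c p a)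
    rw [card_range] at this
    omega
  have h5 : (((range p).filter (fun a => ¬ Som c p a)).card : ℝ) + nu c p = p := by exact_mod_cast h4
  field_simp
  linarith

open Classical in
lemma count_blocks (w : ℕ) (c : κ → ℤ) (t : ℕ) :
    Nat.count (fun a => Rgh w c a) ((∏ p ∈ pz w, p) * t) = t * Nat.count (fun a => Rgh w c a) (∏ p ∈ pz w, p) := by
  obtain ⟨P, hP⟩ : ∃ P, P = ∏ p ∈ pz w, p := ⟨_, rfl⟩
  rw [← hP]
  have hper : ∀ t a : ℕ, Rgh w c (P * t + a) ↔ Rgh w c a := by
    intro t a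
    unfold Rgh
    refine forall_congr' fun p => forall_congr' fun hp => not_congr ?_
    rw [← som_mod c p (P * t + a), ← som_mod c p a]
    have h1 : p ∣ P := by rw [hP]; exact dvd_prod_of_mem (fun p => p) hp
    have h2 : (P * t + a) % p = a % p := by
      obtain ⟨q, hq⟩ := h1
      rw [hq, mul_assoc, Nat.mul_add_mod]
    rw [h2]
  induction t with
  | zero => simp
  | succ t ih =>
    rw [Nat.mul_succ, Nat.count_add, ih, Nat.succ_mul]
    congr 1
    have : (fun k => Rgh w c (P * t + k)) = (fun a => Rgh w c a) := by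
      funext a
      exact propext (hper t a)
    simp only [this]

open Classical in
lemma range_count (w U : ℕ) (c : κ → ℤ) :
    (((range U).filter (fun a => Rgh w c a)).card : ℝ) ≤ (U + (∏ p ∈ pz w, p : ℕ)) * VV w c := by
  have h0 := card_period w c
  have h1 := count_blocks w c (U / (∏ p ∈ pz w, p) + 1)
  obtain ⟨P, hP⟩ : ∃ P, P = ∏ p ∈ pz w, p := ⟨_, rfl⟩
  have hP0 : 0 < P := by rw [hP]; exact prod_pz_pos w
  rw [← hP] at h0 h1 ⊢
  have h2 : U ≤ P * (U / P + 1) := by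
    have := Nat.div_add_mod U P
    have := Nat.mod_lt U hP0
    rw [mul_add, mul_one]
    omega
  have h3 := Nat.count_monotone (fun a => Rgh w c a) h2
  rw [h1, Nat.count_eq_card_filter_range, Nat.count_eq_card_filter_range] at h3
  have h4 : (((range U).filter (fun a => Rgh w c a)).card : ℝ) ≤ ((U / P + 1 : ℕ) : ℝ) * ((range P).filter (fun a => Rgh w c a)).card := by
    exact_mod_cast h3
  refine h4.trans ?_
  rw [h0, ← mul_assoc]
  apply mul_le_mul_of_nonneg_right _ (VV_nonneg w c)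
  have h5 : (U / P + 1) * P ≤ U + P := by
    have := Nat.div_mul_le_self U P
    rw [add_mul, one_mul]
    omega
  exact_mod_cast h5

end per

section sm
variable {k : ℕ}

lemma som_swap (h : Fin k → ℕ) (p u a : ℕ) (x : ℤ) : Som (cz h ((u : ℤ) + x)) p a ↔ Som (cz h ((a : ℤ) + x)) p u := by
  unfold Som
  apply exists_congr
  intro l
  have : (a : ℤ) - cz h ((u : ℤ) + x) l = (u : ℤ) - cz h ((a : ℤ) + x) l := by unfold cz; ring
  rw [this]

open Classical in
/-- the average over the shifts, for the small primes -/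
lemma avg_small (w U : ℕ) (h : Fin k → ℕ) (s x : ℤ) :
    ∑ u ∈ range U, VV w (c2 h s ((u : ℤ) + x)) ≤ (U + (∏ p ∈ pz w, p : ℕ)) * VV w (cneg h) ^ 2 := by
  have hcp : ∀ c : Fin k ⊕ Fin k → ℤ, (((range (∏ p ∈ pz w, p)).filter (fun a => Rgh w c a)).card : ℝ) = (∏ p ∈ pz w, p : ℕ) * VV w c := card_period w
  have hcp1 := card_period w (cz h s)
  have hP1 := prod_pz_pos w
  obtain ⟨P, hP⟩ : ∃ P, P = ∏ p ∈ pz w, p := ⟨_, rfl⟩
  rw [← hP] at hP1 hcp1 hcp ⊢
  have hP0 : (0 : ℝ) < P := by exact_mod_cast hP1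
  rw [VV_cz] at hcp1
  have hrg : ∀ (s' : ℤ) (a : ℕ), Rgh w (c2 h s s') a ↔ Rgh w (cz h s) a ∧ Rgh w (cz h s') a := by
    intro s' n
    unfold Rgh
    constructor
    · intro h1
      exact ⟨fun p hp h2 => h1 p hp ((som_c2 h n p s s').2 (Or.inl h2)), fun p hp h2 => h1 p hp ((som_c2 h n p s s').2 (Or.inr h2))⟩
    · rintro ⟨h1, h2⟩ p hp h3
      rcases (som_c2 h n p s s').1 h3 with h4 | h4
      · exact h1 p hp h4
      · exact h2 p hp h4
  have e1 : (P : ℝ) * ∑ u ∈ range U, VV w (c2 h s ((u : ℤ) + x)) =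
      ∑ a ∈ (range P).filter (fun a => Rgh w (cz h s) a), (((range U).filter (fun u => Rgh w (cz h ((a : ℤ) + x)) u)).card : ℝ) := by
    rw [mul_sum]
    have e2 : ∀ u ∈ range U, (P : ℝ) * VV w (c2 h s ((u : ℤ) + x)) =
        ∑ a ∈ (range P).filter (fun a => Rgh w (cz h s) a), (if Rgh w (cz h ((a : ℤ) + x)) u then (1 : ℝ) else 0) := by
      intro u _
      rw [← hcp, ← sum_filter, sum_const, nsmul_eq_mul, mul_one, filter_filter]
      congr 2
      apply filter_congr
      intro a _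
      rw [hrg]
      apply and_congr_right
      intro _
      unfold Rgh
      exact forall_congr' fun p => forall_congr' fun _ => not_congr (som_swap h p u a x)
    rw [sum_congr rfl e2, sum_comm]
    apply sum_congr rfl
    intro a _
    rw [← sum_filter, sum_const, nsmul_eq_mul, mul_one]
  have e3 : ∀ a ∈ (range P).filter (fun a => Rgh w (cz h s) a), (((range U).filter (fun u => Rgh w (cz h ((a : ℤ) + x)) u)).card : ℝ) ≤
      (U + P) * VV w (cneg h) := by
    intro a _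
    have := range_count w U (cz h ((a : ℤ) + x))
    rw [VV_cz, ← hP] at this
    exact this
  have e4 := sum_le_sum e3
  rw [← e1, sum_const, nsmul_eq_mul, hcp1] at e4
  have e5 : (P : ℝ) * VV w (cneg h) * ((U + P) * VV w (cneg h)) = P * ((U + P) * VV w (cneg h) ^ 2) := by ring
  rw [e5] at e4
  exact le_of_mul_le_mul_left e4 hP0

/-- the coincidence forms -/
def cd (h : Fin k → ℕ) (x : ℤ) : Fin k × Fin k → ℤ := fun q => (h q.1 : ℤ) - h q.2 - x

lemma nu_mono {κ κ' : Type*} [Fintype κ] [DecidableEq κ] [Fintype κ'] [DecidableEq κ'] (c : κ → ℤ) (c' : κ' → ℤ) (p : ℕ)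
    (h : ∀ a, Som c p a → Som c' p a) : nu c p ≤ nu c' p := by
  classical
  unfold nu
  apply card_le_card
  intro a ha
  rw [mem_filter] at ha ⊢
  exact ⟨ha.1, h a ha.2⟩

lemma nu_c2_ge (h : Fin k → ℕ) (s s' : ℤ) (p : ℕ) [NeZero p] : nu (cneg h) p ≤ nu (c2 h s s') p := by
  rw [← nu_cz h s p]
  exact nu_mono _ _ _ fun a ha => (som_c2 h a p s s').2 (Or.inl ha)

/-- no coincidence -/
lemma nu_c2_eq (h : Fin k → ℕ) (s : ℤ) (u : ℕ) (x : ℤ) (p : ℕ) [NeZero p] (hno : ¬ Som (cd h (x - s)) p u) :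
    nu (c2 h s ((u : ℤ) + x)) p = 2 * nu (cneg h) p := by
  classical
  have e1 := nu_cz h s p
  have e2 := nu_cz h ((u : ℤ) + x) p
  rw [nu_eq] at e1 e2
  rw [nu_eq]
  have h1 : (univ.image (fun y => ((c2 h s ((u : ℤ) + x) y : ℤ) : ZMod p))) =
      (univ.image (fun y => ((cz h s y : ℤ) : ZMod p))) ∪ (univ.image (fun y => ((cz h ((u : ℤ) + x) y : ℤ) : ZMod p))) := by
    ext y
    simp only [mem_image, mem_univ, true_and, mem_union, c2, Sum.exists, Sum.elim_inl, Sum.elim_inr]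
  rw [h1, card_union_of_disjoint, e1, e2]
  · ring
  · rw [disjoint_left]
    intro y h2 h3
    rw [mem_image] at h2 h3
    obtain ⟨l, _, hl⟩ := h2
    obtain ⟨m, _, hm⟩ := h3
    apply hno
    refine ⟨(l, m), ?_⟩
    rw [← ZMod.intCast_zmod_eq_zero_iff_dvd]
    have h4 : ((cz h s l : ℤ) : ZMod p) = ((cz h ((u : ℤ) + x) m : ℤ) : ZMod p) := by rw [hl, hm]
    unfold cz at h4
    unfold cd
    push_cast at h4 ⊢
    linear_combination h4

open Classical in
/-- one factor -/
lemma factor_up (h : Fin k → ℕ) (s : ℤ) (u : ℕ) (x : ℤ) (p : ℕ) (hp : p.Prime) (hpk : 2 * k ≤ p) :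
    1 - (nu (c2 h s ((u : ℤ) + x)) p : ℝ) / p ≤ (1 - (nu (cneg h) p : ℝ) / p) ^ 2 * (1 + (2 * k : ℝ) / p * (if Som (cd h (x - s)) p u then 1 else 0)) := by
  have : NeZero p := ⟨hp.ne_zero⟩
  have hp0 : (0 : ℝ) < p := by exact_mod_cast hp.pos
  have hν : (nu (cneg h) p : ℝ) ≤ k := by
    have := nu_le_card (cneg h) p
    rw [Fintype.card_fin] at this
    exact_mod_cast this
  have hpk' : 2 * (k : ℝ) ≤ p := by exact_mod_cast hpk
  obtain ⟨ν, hν'⟩ : ∃ ν : ℝ, ν = (nu (cneg h) p : ℝ) / p := ⟨_, rfl⟩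
  have hν0 : 0 ≤ ν := by rw [hν']; positivity
  obtain ⟨κ, hκ⟩ : ∃ κ : ℝ, κ = (k : ℝ) / p := ⟨_, rfl⟩
  have hκ0 : 0 ≤ κ := by rw [hκ]; positivity
  have hκ1 : κ ≤ 1 / 2 := by
    rw [hκ, div_le_div_iff₀ hp0 (by norm_num)]
    linarith
  have hνκ : ν ≤ κ := by
    rw [hν', hκ]
    exact div_le_div_of_nonneg_right hν hp0.le
  have e2 : (2 * k : ℝ) / p = 2 * κ := by rw [hκ]; ring
  rw [← hν', e2]
  by_cases hc : Som (cd h (x - s)) p u
  · rw [if_pos hc, mul_one]
    have h1 : ν ≤ (nu (c2 h s ((u : ℤ) + x)) p : ℝ) / p := by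
      rw [hν']
      apply div_le_div_of_nonneg_right _ hp0.le
      exact_mod_cast nu_c2_ge h s ((u : ℤ) + x) p
    have h2 : 1 ≤ (1 - ν) * (1 + 2 * κ) := by nlinarith
    have h3 : 0 ≤ 1 - ν := by linarith
    calc 1 - (nu (c2 h s ((u : ℤ) + x)) p : ℝ) / p ≤ 1 - ν := by linarith
      _ = (1 - ν) * 1 := by ring
      _ ≤ (1 - ν) * ((1 - ν) * (1 + 2 * κ)) := mul_le_mul_of_nonneg_left h2 h3
      _ = _ := by ring
  · rw [if_neg hc, mul_zero, add_zero, mul_one, nu_c2_eq h s u x p hc]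
    push_cast
    have e3 : 2 * (nu (cneg h) p : ℝ) / p = 2 * ν := by rw [hν']; ring
    rw [e3]
    nlinarith [sq_nonneg ν]

end sm

end Pool.Agent.L0h42.EG
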