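import Mathlib
import Pool.Agent.L0h42.EG.E4

/-! Averages of the singular factor over short intervals of shifts. -/

set_option autoImplicit false
set_option linter.unusedSectionVars false

namespace Pool.Agent.L0h42.EG
open Finset
open Pool.Agent.L0h42.TB
open Pool.Agent.H373R2.T7

section av
variable {k : ℕ}

open Classical in
/-- the number of shifts with coincidences at given primes, long range -/
lemma som_count (z y : ℕ) (h : Fin k → ℕ) (x : ℤ) (S : Finset ℕ) (hS : S ⊆ pz z) :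
    (((Icc 1 y).filter (fun a => ∀ p ∈ S, Som (cd h x) p a)).card : ℝ) ≤ y * ∏ p ∈ S, ((k : ℝ) ^ 2 / p) + ∏ _p ∈ S, (k : ℝ) ^ 2 := by
  have h1 := count_raw (cd h x) (fun _ => 1) z y (fun _ => le_rfl) (fun _ p hp h => by
    have := (mem_pz.1 hp).2.one_lt
    have := Nat.le_of_dvd one_pos h
    omega) (fun _ _ _ => Nat.coprime_one_left _) S hS
  have e1 : (Icc 1 y).filter (fun a => Hit (cd h x) (fun _ => 1) a ∧ ∀ p ∈ S, Som (cd h x) p a) =
      (Icc 1 y).filter (fun a => ∀ p ∈ S, Som (cd h x) p a) := by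
    apply filter_congr
    intro a _
    constructor
    · exact fun h => h.2
    · intro h2
      refine ⟨fun q => ?_, h2⟩
      simp
  rw [e1] at h1
  simp only [prod_const_one, Nat.cast_one, div_one] at h1
  have h2 := (abs_le.1 h1).2
  have hν : ∀ p, (nu (cd h x) p : ℝ) ≤ (k : ℝ) ^ 2 := by
    intro p
    have := nu_le_card (cd h x) p
    rw [Fintype.card_prod, Fintype.card_fin, ← sq] at this
    exact_mod_cast this
  have h3 : ∏ p ∈ S, (nu (cd h x) p : ℝ) ≤ ∏ _p ∈ S, (k : ℝ) ^ 2 :=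
    prod_le_prod (fun _ _ => Nat.cast_nonneg _) fun p _ => hν p
  have h4 : ∏ p ∈ S, ((nu (cd h x) p : ℝ) / p) ≤ ∏ p ∈ S, ((k : ℝ) ^ 2 / p) :=
    prod_le_prod (fun _ _ => by positivity) fun p _ => div_le_div_of_nonneg_right (hν p) (Nat.cast_nonneg _)
  have h5 := mul_le_mul_of_nonneg_left h4 (Nat.cast_nonneg (α := ℝ) y)
  linarith

open Classical in
lemma som_count' (z U : ℕ) (h : Fin k → ℕ) (x : ℤ) (S : Finset ℕ) (hS : S ⊆ pz z) :
    (((range U).filter (fun a => ∀ p ∈ S, Som (cd h x) p a)).card : ℝ) ≤ U * ∏ p ∈ S, ((k : ℝ) ^ 2 / p) + ∏ _p ∈ S, (k : ℝ) ^ 2 := by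
  refine le_trans ?_ (som_count z U h (x - 1) S hS)
  have : ((range U).filter (fun a => ∀ p ∈ S, Som (cd h x) p a)).card ≤ ((Icc 1 U).filter (fun a => ∀ p ∈ S, Som (cd h (x - 1)) p a)).card := by
    apply card_le_card_of_injOn (fun a => a + 1)
    · intro a ha
      rw [mem_coe, mem_filter, mem_range] at ha
      rw [mem_coe, mem_filter, mem_Icc]
      refine ⟨⟨by simp, ha.1⟩, fun p hp => ?_⟩
      obtain ⟨q, hq⟩ := ha.2 p hp
      refine ⟨q, ?_⟩
      unfold cd at hq ⊢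
      have e : (((a + 1 : ℕ)) : ℤ) - ((h q.1 : ℤ) - h q.2 - (x - 1)) = (a : ℤ) - ((h q.1 : ℤ) - h q.2 - x) := by push_cast; ring
      rw [e]
      exact hq
    · intro a _ b _ hab
      simpa using hab
  exact_mod_cast this

open Classical in
/-- the mean of the factors of the medium primes -/
lemma mid_sum (w y0 U : ℕ) (hw : 1 ≤ w) (hwy : w ≤ y0) (h : Fin k → ℕ) (x : ℤ) :
    ∑ u ∈ range U, ∏ p ∈ pz y0 \ pz w, (1 + (2 * k : ℝ) / p * (if Som (cd h x) p u then 1 else 0)) ≤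
      U * Real.exp (2 * k ^ 3 / w) + ∏ p ∈ pz y0, (1 + 2 * (k : ℝ) ^ 3 / p) := by
  have h1 : ∀ u ∈ range U, ∏ p ∈ pz y0 \ pz w, (1 + (2 * k : ℝ) / p * (if Som (cd h x) p u then 1 else 0)) =
      ∑ S ∈ (pz y0 \ pz w).powerset, (∏ p ∈ S, ((2 * k : ℝ) / p)) * (if ∀ p ∈ S, Som (cd h x) p u then 1 else 0) := by
    intro u _
    rw [prod_one_add]
    apply sum_congr rfl
    intro S _
    rw [prod_mul_distrib, prod_ite_zero]
    simp
  rw [sum_congr rfl h1, sum_comm]
  have h2 : ∀ S ∈ (pz y0 \ pz w).powerset, ∑ u ∈ range U, (∏ p ∈ S, ((2 * k : ℝ) / p)) * (if ∀ p ∈ S, Som (cd h x) p u then 1 else 0) ≤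
      U * ∏ p ∈ S, (2 * (k : ℝ) ^ 3 / p ^ 2) + ∏ p ∈ S, (2 * (k : ℝ) ^ 3 / p) := by
    intro S hS
    rw [mem_powerset] at hS
    rw [← mul_sum, ← sum_filter, sum_const, nsmul_eq_mul, mul_one]
    have h3 := som_count' y0 U h x S (hS.trans sdiff_subset)
    have h4 : (0 : ℝ) ≤ ∏ p ∈ S, ((2 * k : ℝ) / p) := prod_nonneg fun _ _ => by positivity
    refine (mul_le_mul_of_nonneg_left h3 h4).trans (le_of_eq ?_)
    rw [mul_add, ← prod_mul_distrib]
    have e1 : (∏ p ∈ S, ((2 * k : ℝ) / p)) * (U * ∏ p ∈ S, ((k : ℝ) ^ 2 / p)) = U * ∏ p ∈ S, (((2 * k : ℝ) / p) * ((k : ℝ) ^ 2 / p)) := by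
      rw [prod_mul_distrib]; ring
    rw [e1]
    congr 1
    · congr 1
      apply prod_congr rfl
      intro p _
      ring
    · apply prod_congr rfl
      intro p _
      ring
  refine (sum_le_sum h2).trans ?_
  rw [sum_add_distrib, ← mul_sum, ← prod_one_add, ← prod_one_add]
  apply add_le_add
  · apply mul_le_mul_of_nonneg_left _ (Nat.cast_nonneg _)
    have h5 : ∏ p ∈ pz y0 \ pz w, (1 + 2 * (k : ℝ) ^ 3 / (p : ℝ) ^ 2) ≤ ∏ p ∈ pz y0 \ pz w, Real.exp (2 * (k : ℝ) ^ 3 / (p : ℝ) ^ 2) := by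
      apply prod_le_prod
      · intro p _; positivity
      · intro p _
        have := Real.add_one_le_exp (2 * (k : ℝ) ^ 3 / (p : ℝ) ^ 2)
        linarith
    refine h5.trans ?_
    rw [← Real.exp_sum]
    apply Real.exp_le_exp.2
    have h6 : ∑ p ∈ pz y0 \ pz w, ((p : ℝ) ^ 2)⁻¹ ≤ (w : ℝ)⁻¹ := by
      have h7 : ∑ i ∈ Ioc w y0, ((i : ℝ) ^ 2)⁻¹ ≤ (w : ℝ)⁻¹ - (y0 : ℝ)⁻¹ := sum_Ioc_inv_sq_le_sub (by omega) hwy
      have h8 : ∑ p ∈ pz y0 \ pz w, ((p : ℝ) ^ 2)⁻¹ ≤ ∑ i ∈ Ioc w y0, ((i : ℝ) ^ 2)⁻¹ := by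
        apply sum_le_sum_of_subset_of_nonneg
        · intro p hp
          rw [mem_sdiff, mem_pz, mem_pz] at hp
          rw [mem_Ioc]
          refine ⟨?_, hp.1.1⟩
          by_contra h9
          exact hp.2 ⟨by omega, hp.1.2⟩
        · intro _ _ _; positivity
      have h9 : (0 : ℝ) ≤ (y0 : ℝ)⁻¹ := by positivity
      linarith
    calc ∑ p ∈ pz y0 \ pz w, 2 * (k : ℝ) ^ 3 / (p : ℝ) ^ 2 = 2 * (k : ℝ) ^ 3 * ∑ p ∈ pz y0 \ pz w, ((p : ℝ) ^ 2)⁻¹ := by
          rw [mul_sum]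
          exact sum_congr rfl fun _ _ => div_eq_mul_inv _ _
      _ ≤ 2 * (k : ℝ) ^ 3 * (w : ℝ)⁻¹ := mul_le_mul_of_nonneg_left h6 (by positivity)
      _ = _ := by rw [div_eq_mul_inv]
  · have h6 : ∏ p ∈ pz y0, (1 + 2 * (k : ℝ) ^ 3 / p) =
        (∏ p ∈ pz y0 \ pz w, (1 + 2 * (k : ℝ) ^ 3 / p)) * ∏ p ∈ pz w, (1 + 2 * (k : ℝ) ^ 3 / p) :=
      (prod_sdiff (pz_mono hwy)).symm
    rw [h6]
    apply le_mul_of_one_le_right (prod_nonneg fun _ _ => by positivity)
    have h7 : ∏ p ∈ pz w, (1 : ℝ) ≤ ∏ p ∈ pz w, (1 + 2 * (k : ℝ) ^ 3 / p) := by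
      apply prod_le_prod (fun _ _ => zero_le_one)
      intro p _
      have : (0 : ℝ) ≤ 2 * (k : ℝ) ^ 3 / p := by positivity
      linarith
    rwa [prod_const_one] at h7

lemma VV_split (w z : ℕ) (hwz : w ≤ z) {κ : Type*} [Fintype κ] [DecidableEq κ] (c : κ → ℤ) :
    VV z c = (∏ p ∈ pz z \ pz w, (1 - (nu c p : ℝ) / p)) * VV w c := by
  unfold VV
  exact (prod_sdiff (pz_mono hwz)).symm

open Classical in
/-- **the average of the singular factor.** -/
theorem sing_avg (w y0 z U v : ℕ) (hw1 : 1 ≤ w) (hwk : 2 * k ≤ w) (hwy : w ≤ y0) (hyz : y0 ≤ z) (h : Fin k → ℕ) (s x : ℤ) :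
    ∑ u ∈ (range U).filter (fun u => ((pz z \ pz y0).filter (fun p => Som (cd h (x - s)) p u)).card < v), VV z (c2 h s ((u : ℤ) + x)) ≤
      (∏ p ∈ pz z \ pz w, (1 - (nu (cneg h) p : ℝ) / p)) ^ 2 * (Real.exp (2 * k * v / y0) *
        ((U + (∏ p ∈ pz w, p : ℕ)) * VV w (cneg h) ^ 2 + U * (Real.exp (2 * k ^ 3 / w) - 1) + ∏ p ∈ pz y0, (1 + 2 * (k : ℝ) ^ 3 / p))) := by
  obtain ⟨G, hG⟩ : ∃ G, G = ∏ p ∈ pz z \ pz w, (1 - (nu (cneg h) p : ℝ) / p) := ⟨_, rfl⟩
  rw [← hG]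
  have hy0 : (0 : ℝ) < y0 := by exact_mod_cast (by omega : 0 < y0)
  obtain ⟨F, hF⟩ : ∃ F : ℕ → ℝ, F = fun u => ∏ p ∈ pz y0 \ pz w, (1 + (2 * k : ℝ) / p * (if Som (cd h (x - s)) p u then 1 else 0)) := ⟨_, rfl⟩
  have hF1 : ∀ u, 1 ≤ F u := by
    intro u
    rw [hF]
    have h7 : ∏ p ∈ pz y0 \ pz w, (1 : ℝ) ≤ ∏ p ∈ pz y0 \ pz w, (1 + (2 * k : ℝ) / p * (if Som (cd h (x - s)) p u then 1 else 0)) := by
      apply prod_le_prod (fun _ _ => zero_le_one)
      intro p _
      have : (0 : ℝ) ≤ (2 * k : ℝ) / p * (if Som (cd h (x - s)) p u then 1 else 0) := by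
        split_ifs <;> simp <;> positivity
      linarith
    rwa [prod_const_one] at h7
  have hpt : ∀ u ∈ (range U).filter (fun u => ((pz z \ pz y0).filter (fun p => Som (cd h (x - s)) p u)).card < v),
      VV z (c2 h s ((u : ℤ) + x)) ≤ G ^ 2 * Real.exp (2 * k * v / y0) * (VV w (c2 h s ((u : ℤ) + x)) + (F u - 1)) := by
    intro u hu
    rw [mem_filter] at hu
    rw [VV_split w z (hwy.trans hyz)]
    have hprime : ∀ p ∈ pz z \ pz w, p.Prime ∧ w < p := by
      intro p hp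
      rw [mem_sdiff, mem_pz, mem_pz] at hp
      refine ⟨hp.1.2, ?_⟩
      by_contra h9
      exact hp.2 ⟨by omega, hp.1.2⟩
    have h1 : ∏ p ∈ pz z \ pz w, (1 - (nu (c2 h s ((u : ℤ) + x)) p : ℝ) / p) ≤
        ∏ p ∈ pz z \ pz w, ((1 - (nu (cneg h) p : ℝ) / p) ^ 2 * (1 + (2 * k : ℝ) / p * (if Som (cd h (x - s)) p u then 1 else 0))) := by
      apply prod_le_prod
      · intro p hp
        have hp0 : (0 : ℝ) < p := by exact_mod_cast (hprime p hp).1.pos
        have : (nu (c2 h s ((u : ℤ) + x)) p : ℝ) / p ≤ 1 := by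
          rw [div_le_one hp0]
          exact_mod_cast nu_le_self _ p
        linarith
      · intro p hp
        exact factor_up h s u x p (hprime p hp).1 (by have := (hprime p hp).2; omega)
    rw [prod_mul_distrib, prod_pow, ← hG] at h1
    have h2 : ∏ p ∈ pz z \ pz w, (1 + (2 * k : ℝ) / p * (if Som (cd h (x - s)) p u then 1 else 0)) =
        (∏ p ∈ pz z \ pz y0, (1 + (2 * k : ℝ) / p * (if Som (cd h (x - s)) p u then 1 else 0))) * F u := by
      rw [hF]
      have hd : Disjoint (pz z \ pz y0) (pz y0 \ pz w) := by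
        rw [disjoint_left]
        intro p hp hq
        rw [mem_sdiff] at hp hq
        exact hp.2 hq.1
      have hun : pz z \ pz w = (pz z \ pz y0) ∪ (pz y0 \ pz w) := by
        ext p
        simp only [mem_sdiff, mem_union, mem_pz]
        constructor
        · rintro ⟨⟨h1, h2⟩, h3⟩
          by_cases h4 : p ≤ y0
          · exact Or.inr ⟨⟨h4, h2⟩, h3⟩
          · exact Or.inl ⟨⟨h1, h2⟩, fun h5 => h4 h5.1⟩
        · rintro (⟨⟨h1, h2⟩, h3⟩ | ⟨⟨h1, h2⟩, h3⟩)
          · exact ⟨⟨h1, h2⟩, fun h5 => h3 ⟨by omega, h2⟩⟩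
          · exact ⟨⟨by omega, h2⟩, h3⟩
      rw [hun, prod_union hd]
    have h3 : ∏ p ∈ pz z \ pz y0, (1 + (2 * k : ℝ) / p * (if Som (cd h (x - s)) p u then 1 else 0)) ≤ Real.exp (2 * k * v / y0) := by
      have e1 : ∏ p ∈ pz z \ pz y0, (1 + (2 * k : ℝ) / p * (if Som (cd h (x - s)) p u then 1 else 0)) =
          ∏ p ∈ (pz z \ pz y0).filter (fun p => Som (cd h (x - s)) p u), (1 + (2 * k : ℝ) / p) := by
        rw [prod_filter]
        apply prod_congr rfl
        intro p _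
        split_ifs <;> simp
      rw [e1]
      calc ∏ p ∈ (pz z \ pz y0).filter (fun p => Som (cd h (x - s)) p u), (1 + (2 * k : ℝ) / p) ≤
            ∏ p ∈ (pz z \ pz y0).filter (fun p => Som (cd h (x - s)) p u), Real.exp (2 * k / y0) := by
            apply prod_le_prod
            · intro p _; positivity
            · intro p hp
              rw [mem_filter, mem_sdiff, mem_pz, mem_pz] at hp
              have hpy : (y0 : ℝ) ≤ p := by
                have : y0 ≤ p := by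
                  by_contra h9
                  exact hp.1.2 ⟨by omega, hp.1.1.2⟩
                exact_mod_cast this
              have h4 := Real.add_one_le_exp ((2 * k : ℝ) / y0)
              have h5 : (2 * k : ℝ) / p ≤ 2 * k / y0 := div_le_div_of_nonneg_left (by positivity) hy0 hpy
              linarith
        _ = Real.exp (2 * k / y0) ^ ((pz z \ pz y0).filter (fun p => Som (cd h (x - s)) p u)).card := by rw [prod_const]
        _ ≤ Real.exp (2 * k / y0) ^ v := by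
            apply pow_le_pow_right₀ _ hu.2.le
            have : (0 : ℝ) ≤ 2 * k / y0 := by positivity
            exact Real.one_le_exp this
        _ = _ := by rw [← Real.exp_nat_mul]; congr 1; ring
    have hV0 := VV_nonneg w (c2 h s ((u : ℤ) + x))
    have hV1 := VV_le_one w (c2 h s ((u : ℤ) + x))
    have hG0 : 0 ≤ G ^ 2 := sq_nonneg G
    calc _ ≤ (G ^ 2 * (Real.exp (2 * k * v / y0) * F u)) * VV w (c2 h s ((u : ℤ) + x)) := by
          apply mul_le_mul_of_nonneg_right _ hV0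
          refine h1.trans ?_
          rw [h2]
          apply mul_le_mul_of_nonneg_left _ hG0
          exact mul_le_mul_of_nonneg_right h3 (by linarith [hF1 u])
      _ = G ^ 2 * Real.exp (2 * k * v / y0) * (VV w (c2 h s ((u : ℤ) + x)) + (F u - 1) * VV w (c2 h s ((u : ℤ) + x))) := by ring
      _ ≤ _ := by
          apply mul_le_mul_of_nonneg_left _ (by positivity)
          have : (F u - 1) * VV w (c2 h s ((u : ℤ) + x)) ≤ (F u - 1) * 1 := mul_le_mul_of_nonneg_left hV1 (by linarith [hF1 u])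
          linarith
  have hA := avg_small w U h s x
  have hB := mid_sum w y0 U hw1 hwy h (x - s)
  have hGe : 0 ≤ G ^ 2 * Real.exp (2 * k * v / y0) := by positivity
  calc _ ≤ ∑ u ∈ (range U).filter (fun u => ((pz z \ pz y0).filter (fun p => Som (cd h (x - s)) p u)).card < v),
        G ^ 2 * Real.exp (2 * k * v / y0) * (VV w (c2 h s ((u : ℤ) + x)) + (F u - 1)) := sum_le_sum hpt
    _ ≤ ∑ u ∈ range U, G ^ 2 * Real.exp (2 * k * v / y0) * (VV w (c2 h s ((u : ℤ) + x)) + (F u - 1)) := by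
        apply sum_le_sum_of_subset_of_nonneg (filter_subset _ _)
        intro u _ _
        have := VV_nonneg w (c2 h s ((u : ℤ) + x))
        have := hF1 u
        apply mul_nonneg hGe
        linarith
    _ = G ^ 2 * Real.exp (2 * k * v / y0) * (∑ u ∈ range U, VV w (c2 h s ((u : ℤ) + x)) + (∑ u ∈ range U, F u - U)) := by
        rw [← mul_sum, sum_add_distrib, sum_sub_distrib]
        simp
    _ ≤ G ^ 2 * Real.exp (2 * k * v / y0) * ((U + (∏ p ∈ pz w, p : ℕ)) * VV w (cneg h) ^ 2 +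
        (U * Real.exp (2 * k ^ 3 / w) + ∏ p ∈ pz y0, (1 + 2 * (k : ℝ) ^ 3 / p) - U)) := by
        apply mul_le_mul_of_nonneg_left _ hGe
        rw [hF]
        linarith
    _ = _ := by ring

open Classical in
/-- the rare shifts -/
lemma rare_count (z y0 y v : ℕ) (h : Fin k → ℕ) (x : ℤ) (hk : 1 ≤ k) :
    (((Icc 1 y).filter (fun a => v ≤ ((pz z \ pz y0).filter (fun p => Som (cd h x) p a)).card)).card : ℝ) ≤
      y * Real.exp (3 * ((k ^ 2 : ℕ) * (1 + Real.log z)) - v) + ((z : ℝ) + 1) ^ v * ((k ^ 2 : ℕ) : ℝ) ^ v := by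
  have h1 : ∀ a ∈ Icc 1 y, (if v ≤ ((pz z \ pz y0).filter (fun p => Som (cd h x) p a)).card then (1 : ℝ) else 0) ≤
      ∑ S ∈ (pz z).powersetCard v, (if ∀ p ∈ S, Som (cd h x) p a then 1 else 0) := by
    intro a _
    split_ifs with h2
    · obtain ⟨S, hS1, hS2⟩ := exists_subset_card_eq h2
      have h3 : S ∈ (pz z).powersetCard v := by
        rw [mem_powersetCard]
        exact ⟨hS1.trans ((filter_subset _ _).trans sdiff_subset), hS2⟩
      have h4 : ∀ p ∈ S, Som (cd h x) p a := fun p hp => (mem_filter.1 (hS1 hp)).2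
      refine le_trans ?_ (single_le_sum (f := fun S => if ∀ p ∈ S, Som (cd h x) p a then (1 : ℝ) else 0) (fun _ _ => by split_ifs <;> norm_num) h3)
      rw [if_pos h4]
    · exact sum_nonneg fun _ _ => by split_ifs <;> norm_num
  have h2 := sum_le_sum h1
  rw [← sum_filter, sum_const, nsmul_eq_mul, mul_one, sum_comm] at h2
  refine h2.trans ?_
  have h3 : ∀ S ∈ (pz z).powersetCard v, ∑ a ∈ Icc 1 y, (if ∀ p ∈ S, Som (cd h x) p a then (1 : ℝ) else 0) ≤
      y * ∏ p ∈ S, ((k : ℝ) ^ 2 / p) + ((k ^ 2 : ℕ) : ℝ) ^ v := by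
    intro S hS
    rw [mem_powersetCard] at hS
    rw [← sum_filter, sum_const, nsmul_eq_mul, mul_one]
    have h4 := som_count z y h x S hS.1
    rw [prod_const, hS.2] at h4
    push_cast
    exact h4
  refine (sum_le_sum h3).trans ?_
  rw [sum_add_distrib, ← mul_sum, sum_const, nsmul_eq_mul]
  apply add_le_add
  · apply mul_le_mul_of_nonneg_left _ (Nat.cast_nonneg _)
    have h5 := es_le (x := fun p => (k : ℝ) ^ 2 / p) (T := pz z) (fun p _ => by positivity) v
    unfold es at h5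
    refine h5.trans (Real.exp_le_exp.2 ?_)
    have h6 : ∑ p ∈ pz z, (k : ℝ) ^ 2 / p ≤ (k ^ 2 : ℕ) * (1 + Real.log z) := by
      calc ∑ p ∈ pz z, (k : ℝ) ^ 2 / p = (k ^ 2 : ℕ) * ∑ p ∈ pz z, 1 / (p : ℝ) := by
            rw [mul_sum]
            apply sum_congr rfl
            intro p _
            push_cast
            ring
        _ ≤ _ := mul_le_mul_of_nonneg_left (sum_pz_le z) (Nat.cast_nonneg _)
    linarith
  · apply mul_le_mul_of_nonneg_right _ (by positivity)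
    rw [card_powersetCard]
    have h6 : (pz z).card.choose v ≤ (z + 1) ^ v := by
      refine (Nat.choose_le_pow _ _).trans (Nat.pow_le_pow_left ?_ _)
      have := card_pz_le z
      omega
    exact_mod_cast h6

end av

end Pool.Agent.L0h42.EG
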