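import Mathlib
import Pool.Agent.L0h42.EG.E5
import Pool.Agent.L0h42.TB.B18

/-! The choice of the parameters for the average of the singular factor. -/

set_option autoImplicit false
set_option linter.unusedSectionVars false

namespace Pool.Agent.L0h42.EG
open Finset
open Pool.Agent.L0h42.TB
open Pool.Agent.H373R2.T7

section par
variable {k : ℕ}

lemma VV_mono_c {κ κ' : Type*} [Fintype κ] [DecidableEq κ] [Fintype κ'] [DecidableEq κ'] (z : ℕ) (c : κ → ℤ) (c' : κ' → ℤ)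
    (h : ∀ p a, Som c p a → Som c' p a) : VV z c' ≤ VV z c := by
  unfold VV
  apply prod_le_prod
  · intro p hp
    have hp0 : (0 : ℝ) < p := by exact_mod_cast (mem_pz.1 hp).2.pos
    have : (nu c' p : ℝ) / p ≤ 1 := by
      rw [div_le_one hp0]
      exact_mod_cast nu_le_self c' p
    linarith
  · intro p hp
    have : (nu c p : ℝ) / p ≤ (nu c' p : ℝ) / p := by
      apply div_le_div_of_nonneg_right _ (Nat.cast_nonneg _)
      exact_mod_cast nu_mono c c' p (h p)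
    linarith

/-- lower bound for the density -/
lemma V_low (hk : 1 ≤ k) (z : ℕ) (h : Fin k → ℕ) (hd : ∀ p, p.Prime → p ≤ 2 * k → ∀ l, p ∣ h l) :
    (1 / (4 * (k : ℝ))) ^ (4 * k) * Vz z ^ (4 * k) ≤ VV z (cneg h) := by
  refine (VV_low hk z h h 0 (by simp) hd hd).trans ?_
  apply VV_mono_c
  rintro p a ⟨l, hl⟩
  exact ⟨Sum.inl l, hl⟩

lemma V_pos (hk : 1 ≤ k) (z : ℕ) (h : Fin k → ℕ) (hd : ∀ p, p.Prime → p ≤ 2 * k → ∀ l, p ∣ h l) : 0 < VV z (cneg h) := by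
  refine lt_of_lt_of_le ?_ (V_low hk z h hd)
  have := Vz_pos z
  have hk0 : (0 : ℝ) < k := by exact_mod_cast hk
  positivity

/-- the product over the medium primes -/
lemma K0_up : ∃ C : ℕ, 1 ≤ C ∧ ∀ (y : ℕ), 3 ≤ y → ∀ k : ℕ, ∏ p ∈ pz y, (1 + 2 * (k : ℝ) ^ 3 / p) ≤ (C * Real.log y) ^ (2 * k ^ 3) := by
  obtain ⟨C, hC1, hC⟩ := mertens_up
  refine ⟨C, hC1, fun y hy k => ?_⟩
  have h1 : ∏ p ∈ pz y, (1 + 2 * (k : ℝ) ^ 3 / p) ≤ ∏ p ∈ pz y, ((1 - 1 / (p : ℝ))⁻¹) ^ (2 * k ^ 3) := by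
    apply prod_le_prod
    · intro p _; positivity
    · intro p hp
      have hpp := (mem_pz.1 hp).2
      have hp0 : (0 : ℝ) < p := by exact_mod_cast hpp.pos
      have h2 := one_sub_pos hpp
      have h3 : 1 + 2 * (k : ℝ) ^ 3 / p ≤ (1 + 1 / (p : ℝ)) ^ (2 * k ^ 3) := by
        have := one_add_mul_le_pow (a := 1 / (p : ℝ)) (by have : (0 : ℝ) ≤ 1 / (p : ℝ) := by positivity
                                                          linarith) (2 * k ^ 3)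
        push_cast at this
        refine le_trans (le_of_eq ?_) this
        ring
      refine h3.trans (pow_le_pow_left₀ (by positivity) ?_ _)
      rw [← one_div, le_div_iff₀ h2]
      have : (1 + 1 / (p : ℝ)) * (1 - 1 / p) = 1 - (1 / p) ^ 2 := by ring
      rw [this]
      have := sq_nonneg (1 / (p : ℝ))
      linarith
  refine h1.trans ?_
  rw [prod_pow, prod_inv_distrib]
  exact pow_le_pow_left₀ (inv_pos.2 (Vz_pos y)).le (hC y hy) _

/-- the choice of `w` -/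
lemma w_choice (hk : 1 ≤ k) (h : Fin k → ℕ) (hd : ∀ p, p.Prime → p ≤ 2 * k → ∀ l, p ∣ h l) (δ : ℝ) (hδ : 0 < δ) :
    ∃ w : ℕ, 1 ≤ w ∧ 2 * k ≤ w ∧ Real.exp (2 * k ^ 3 / w) - 1 ≤ δ * VV w (cneg h) ^ 2 := by
  obtain ⟨C, hC1, hC⟩ := mertens_up
  have hk0 : (0 : ℝ) < k := by exact_mod_cast hk
  have hC0 : (0 : ℝ) < C := by exact_mod_cast hC1
  obtain ⟨D, hD⟩ : ∃ D : ℝ, D = δ * ((1 / (4 * (k : ℝ))) ^ (4 * k) * (1 / C) ^ (4 * k)) ^ 2 / (4 * k ^ 3) := ⟨_, rfl⟩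
  have hD0 : 0 < D := by rw [hD]; positivity
  have h1 := (Real.isLittleO_pow_log_id_atTop (n := 8 * k)).bound hD0
  have h2 : ∀ᶠ w : ℕ in Filter.atTop, ‖Real.log (w : ℝ) ^ (8 * k)‖ ≤ D * ‖id (w : ℝ)‖ :=
    (tendsto_natCast_atTop_atTop (R := ℝ)).eventually h1
  obtain ⟨w, hw1, hw2⟩ := (h2.and (Filter.eventually_ge_atTop (max (4 * k ^ 3) 3))).exists
  have hw3 : 3 ≤ w := le_trans (le_max_right _ _) hw2
  have hw4 : 4 * k ^ 3 ≤ w := le_trans (le_max_left _ _) hw2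
  have hk3 : k ≤ k ^ 3 := Nat.le_self_pow (by norm_num) k
  refine ⟨w, by omega, by omega, ?_⟩
  have hw0 : (0 : ℝ) < w := by exact_mod_cast (by omega : 0 < w)
  have hlw : 0 < Real.log w := Real.log_pos (by exact_mod_cast (by omega : 1 < w))
  rw [Real.norm_of_nonneg (by positivity), id, Real.norm_of_nonneg hw0.le] at hw1
  have h3 := V_low hk w h hd
  have h4 : 1 / (C * Real.log w) ≤ Vz w := by
    rw [one_div]
    exact inv_le_of_inv_le₀ (Vz_pos w) (hC w hw3)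
  have h5 : (1 / (4 * (k : ℝ))) ^ (4 * k) * (1 / (C * Real.log w)) ^ (4 * k) ≤ VV w (cneg h) := by
    refine le_trans ?_ h3
    apply mul_le_mul_of_nonneg_left _ (by positivity)
    exact pow_le_pow_left₀ (by positivity) h4 _
  have h6 : ((1 / (4 * (k : ℝ))) ^ (4 * k) * (1 / (C * Real.log w)) ^ (4 * k)) ^ 2 ≤ VV w (cneg h) ^ 2 :=
    pow_le_pow_left₀ (by positivity) h5 2
  have h7 : Real.exp (2 * k ^ 3 / w) - 1 ≤ 4 * k ^ 3 / w := by
    have hx0 : (0 : ℝ) ≤ 2 * k ^ 3 / w := by positivity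
    have hx1 : (2 : ℝ) * k ^ 3 / w ≤ 1 := by
      rw [div_le_one hw0]
      have : (4 : ℝ) * k ^ 3 ≤ w := by exact_mod_cast hw4
      have : (0 : ℝ) < (k : ℝ) ^ 3 := by positivity
      linarith
    have h8 := Real.abs_exp_sub_one_le (x := 2 * k ^ 3 / w) (by rw [abs_of_nonneg hx0]; exact hx1)
    rw [abs_of_nonneg hx0] at h8
    have h9 := (abs_le.1 h8).2
    refine h9.trans (le_of_eq ?_)
    ring
  refine h7.trans (le_trans ?_ (mul_le_mul_of_nonneg_left h6 hδ.le))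
  rw [div_le_iff₀ hw0]
  have h8 : δ * ((1 / (4 * (k : ℝ))) ^ (4 * k) * (1 / (C * Real.log w)) ^ (4 * k)) ^ 2 = D * (4 * k ^ 3) / Real.log w ^ (8 * k) := by
    rw [hD]
    have e1 : Real.log w ^ (8 * k) = (Real.log w ^ (4 * k)) ^ 2 := by rw [← pow_mul]; congr 1; ring
    have e2 : (1 / (C * Real.log w)) ^ (4 * k) = (1 / C) ^ (4 * k) * (1 / Real.log w ^ (4 * k)) := by
      rw [one_div, mul_inv, mul_pow, one_div, one_div, inv_pow (Real.log w)]
    rw [e1, e2]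
    field_simp
  rw [h8, div_mul_eq_mul_div, le_div_iff₀ (by positivity)]
  calc 4 * (k : ℝ) ^ 3 * Real.log w ^ (8 * k) ≤ 4 * (k : ℝ) ^ 3 * (D * w) := mul_le_mul_of_nonneg_left hw1 (by positivity)
    _ = _ := by ring

/-- iterated logarithms -/
lemma logs_large (c : ℝ) : ∃ N0 : ℕ, ∀ N : ℕ, N0 ≤ N → c ≤ Real.log (Real.log (Real.log N)) := by
  have h1 : Filter.Tendsto (fun N : ℕ => Real.log (Real.log (Real.log (N : ℝ)))) Filter.atTop Filter.atTop :=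
    Real.tendsto_log_atTop.comp (Real.tendsto_log_atTop.comp (Real.tendsto_log_atTop.comp (tendsto_natCast_atTop_atTop (R := ℝ))))
  exact Filter.eventually_atTop.1 (h1.eventually_ge_atTop c)

lemma sq_log_small : ∃ N0 : ℕ, ∀ N : ℕ, N0 ≤ N → Real.log (Real.log N) ^ 2 + 1 ≤ Real.log N := by
  have h1 : Filter.Tendsto (fun N : ℕ => Real.log (N : ℝ)) Filter.atTop Filter.atTop :=
    Real.tendsto_log_atTop.comp (tendsto_natCast_atTop_atTop (R := ℝ))
  have h2 := (Real.isLittleO_pow_log_id_atTop (n := 2)).bound (show (0 : ℝ) < 1 / 2 by norm_num)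
  have h3 := h1.eventually h2
  obtain ⟨N0, h0⟩ := Filter.eventually_atTop.1 (h3.and (h1.eventually_ge_atTop 2))
  refine ⟨N0, fun N hN => ?_⟩
  obtain ⟨h4, h5⟩ := h0 N hN
  rw [Real.norm_of_nonneg (by positivity), id, Real.norm_of_nonneg (by linarith)] at h4
  linarith

/-- the choice of `y0` -/
lemma y0_choice (k w C1 Pw : ℕ) (V δ : ℝ) (hV : 0 < V) (hδ : 0 < δ) : ∃ N0 : ℕ, ∀ N : ℕ, N0 ≤ N → ∀ z U v : ℕ, Real.log N ≤ z →
    Real.log (Real.log (Real.log N)) ^ (2 * k ^ 3 + 1) ≤ U → (v : ℝ) ≤ C1 * Real.log (Real.log N) →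
    ∃ y0 : ℕ, w ≤ y0 ∧ y0 ≤ z ∧ Real.exp (2 * k * v / y0) ≤ 1 + δ ∧ (Pw : ℝ) ≤ δ * U ∧
      ∏ p ∈ pz y0, (1 + 2 * (k : ℝ) ^ 3 / p) ≤ δ * U * V := by
  obtain ⟨C, hC1, hC⟩ := K0_up
  obtain ⟨n1, h1⟩ := logs_large (max (max (Pw / δ) 2) (max (max w 3) (max (2 * k * C1 / Real.log (1 + δ)) ((3 * C : ℝ) ^ (2 * k ^ 3) / (δ * V)))))
  obtain ⟨n2, h2⟩ := sq_log_small
  refine ⟨max n1 n2, ?_⟩
  intro N hN z U v hz hU hv
  have a1 := h1 N (le_trans (le_max_left _ _) hN)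
  have a2 := h2 N (le_trans (le_max_right _ _) hN)
  obtain ⟨l3, hl3⟩ : ∃ l3, l3 = Real.log (Real.log (Real.log N)) := ⟨_, rfl⟩
  obtain ⟨l2, hl2⟩ : ∃ l2, l2 = Real.log (Real.log N) := ⟨_, rfl⟩
  rw [← hl3] at a1 hU
  rw [← hl2] at a2 hv
  have b1 : (Pw : ℝ) / δ ≤ l3 := le_trans (le_trans (le_max_left _ _) (le_max_left _ _)) a1
  have b2 : (2 : ℝ) ≤ l3 := le_trans (le_trans (le_max_right _ _) (le_max_left _ _)) a1
  have b3 : (w : ℝ) ≤ l3 := le_trans (le_trans (le_max_left _ _) (le_trans (le_max_left _ _) (le_max_right _ _))) a1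
  have b4 : 2 * (k : ℝ) * C1 / Real.log (1 + δ) ≤ l3 := le_trans (le_trans (le_max_left _ _) (le_trans (le_max_right _ _) (le_max_right _ _))) a1
  have b5 : (3 * C : ℝ) ^ (2 * k ^ 3) / (δ * V) ≤ l3 := le_trans (le_trans (le_max_right _ _) (le_trans (le_max_right _ _) (le_max_right _ _))) a1
  have c1 : l3 = Real.log l2 := by rw [hl3, hl2]
  have c2 : l3 ≤ l2 := by
    rw [c1]
    have hl : 0 < l2 := by
      by_contra hcon
      push Not at hcon
      have : Real.log l2 ≤ 0 := by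
        have e0 : 0 ≤ Real.log N ∨ Real.log N ≤ 0 := le_total _ _
        by_contra h9
        push Not at h9
        rw [← c1] at h9
        -- `l2 ≤ 0` is impossible here, since then `log l2 = log |l2|` large forces a tiny `log N`
        have h10 : Real.exp 2 ≤ |l2| := by
          rw [← Real.exp_log (abs_pos.2 (by
            intro h0
            rw [h0, Real.log_zero] at c1
            linarith)), Real.log_abs, ← c1]
          exact Real.exp_le_exp.2 b2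
        have h11 : 1 ≤ |l2| := by
          have := Real.add_one_le_exp (2 : ℝ)
          linarith
        have h12 : 1 ≤ l2 ^ 2 := by rw [← sq_abs]; exact one_le_pow₀ h11
        have h13 : 2 ≤ Real.log N := by linarith
        have h14 : 0 < l2 := by rw [hl2]; exact Real.log_pos (by linarith)
        linarith
      rw [← c1] at this
      linarith
    have := Real.log_le_sub_one_of_pos hl
    linarith
  have c3 : 2 ≤ l2 := by linarith
  have hU' : l3 ≤ U := (le_self_pow₀ (by linarith) (by omega)).trans hU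
  refine ⟨⌈l2 ^ 2⌉₊, ?_, ?_, ?_, ?_, ?_⟩
  · have : (w : ℝ) ≤ (⌈l2 ^ 2⌉₊ : ℝ) := by
      refine le_trans ?_ (Nat.le_ceil _)
      nlinarith
    exact_mod_cast this
  · have := (Nat.ceil_lt_add_one (show 0 ≤ l2 ^ 2 by positivity)).le
    have h3 : ((⌈l2 ^ 2⌉₊ : ℕ) : ℝ) ≤ z := by linarith
    exact_mod_cast h3
  · have h3 : l2 ^ 2 ≤ (⌈l2 ^ 2⌉₊ : ℝ) := Nat.le_ceil _
    have h4 : 2 * (k : ℝ) * v / (⌈l2 ^ 2⌉₊ : ℝ) ≤ Real.log (1 + δ) := by
      have hlog : 0 < Real.log (1 + δ) := Real.log_pos (by linarith)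
      rw [div_le_iff₀ (by positivity)]
      rw [div_le_iff₀ hlog] at b4
      calc 2 * (k : ℝ) * v ≤ 2 * k * (C1 * l2) := by gcongr
        _ = (2 * k * C1) * l2 := by ring
        _ ≤ (l3 * Real.log (1 + δ)) * l2 := mul_le_mul_of_nonneg_right b4 (by linarith)
        _ ≤ (l2 * Real.log (1 + δ)) * l2 := by gcongr
        _ = Real.log (1 + δ) * l2 ^ 2 := by ring
        _ ≤ _ := mul_le_mul_of_nonneg_left h3 hlog.le
    calc Real.exp (2 * k * v / (⌈l2 ^ 2⌉₊ : ℝ)) ≤ Real.exp (Real.log (1 + δ)) := Real.exp_le_exp.2 h4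
      _ = 1 + δ := Real.exp_log (by linarith)
  · rw [div_le_iff₀ hδ] at b1
    calc (Pw : ℝ) ≤ l3 * δ := b1
      _ ≤ U * δ := mul_le_mul_of_nonneg_right hU' hδ.le
      _ = _ := mul_comm _ _
  · have h3 : 3 ≤ ⌈l2 ^ 2⌉₊ := by
      have : (3 : ℝ) ≤ (⌈l2 ^ 2⌉₊ : ℝ) := by
        refine le_trans ?_ (Nat.le_ceil _)
        nlinarith
      exact_mod_cast this
    refine (hC _ h3 k).trans ?_
    have h4 : Real.log (⌈l2 ^ 2⌉₊ : ℝ) ≤ 3 * l3 := by
      have h5 : (⌈l2 ^ 2⌉₊ : ℝ) ≤ l2 ^ 3 := by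
        have := (Nat.ceil_lt_add_one (show 0 ≤ l2 ^ 2 by positivity)).le
        nlinarith [sq_nonneg l2]
      have h6 := Real.log_le_log (by exact_mod_cast (by omega : 0 < ⌈l2 ^ 2⌉₊)) h5
      rw [Real.log_pow, ← c1] at h6
      push_cast at h6
      exact h6
    have h7 : 0 ≤ Real.log (⌈l2 ^ 2⌉₊ : ℝ) := Real.log_nonneg (by exact_mod_cast (by omega : 1 ≤ ⌈l2 ^ 2⌉₊))
    have h8 : (0 : ℝ) ≤ C := Nat.cast_nonneg _
    rw [div_le_iff₀ (by positivity)] at b5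
    calc (C * Real.log (⌈l2 ^ 2⌉₊ : ℝ)) ^ (2 * k ^ 3) ≤ (C * (3 * l3)) ^ (2 * k ^ 3) :=
          pow_le_pow_left₀ (by positivity) (mul_le_mul_of_nonneg_left h4 h8) _
      _ = (3 * C : ℝ) ^ (2 * k ^ 3) * l3 ^ (2 * k ^ 3) := by rw [← mul_pow]; congr 1; ring
      _ ≤ (l3 * (δ * V)) * l3 ^ (2 * k ^ 3) := mul_le_mul_of_nonneg_right b5 (by positivity)
      _ = δ * l3 ^ (2 * k ^ 3 + 1) * V := by ring
      _ ≤ _ := by gcongr

end par

end Pool.Agent.L0h42.EG
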