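import Mathlib
import Pool.Agent.L0h42.EG.E6
import Pool.Agent.L0h42.EG.E3

/-! The sum of the singular factor over the pairs. -/

set_option autoImplicit false
set_option linter.unusedSectionVars false

namespace Pool.Agent.L0h42.EG
open Finset
open Pool.Agent.L0h42.TB
open Pool.Agent.H373R2.T7

/-- the density is not too small -/
lemma V_low_L (k E : ℕ) (hk : 1 ≤ k) : ∃ N0 : ℕ, ∀ N : ℕ, N0 ≤ N → ∀ z : ℕ, 1 ≤ z → (z : ℝ) ≤ Real.log N ^ E →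
    ∀ h : Fin k → ℕ, (∀ p, p.Prime → p ≤ 2 * k → ∀ l, p ∣ h l) → 1 / Real.log N ^ (4 * k + 1) ≤ VV z (cneg h) := by
  obtain ⟨m2, h2⟩ := Vz_inv_small E
  obtain ⟨m4, h4⟩ := ev_L' (1 + (4 * k : ℝ) ^ (4 * k))
  refine ⟨max m2 m4, fun N hN z hz1 hz2 h hd => ?_⟩
  have hv := h2 N (le_trans (le_max_left _ _) hN) z hz1 hz2
  have b4 := h4 N (le_trans (le_max_right _ _) hN)
  set L := Real.log N with hL
  have hk0 : (0 : ℝ) < k := by exact_mod_cast hk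
  have hp : (0 : ℝ) < (4 * k : ℝ) ^ (4 * k) := by positivity
  have hL0 : 0 < L := by linarith
  refine le_trans ?_ (V_low hk z h hd)
  have g2 : 1 / L ≤ Vz z := by
    rw [one_div]
    exact inv_le_of_inv_le₀ (Vz_pos z) hv
  have g3 : (1 / L) ^ (4 * k) ≤ Vz z ^ (4 * k) := pow_le_pow_left₀ (by positivity) g2 _
  have g4 : 1 / L ≤ (1 / (4 * (k : ℝ))) ^ (4 * k) := by
    rw [div_pow, one_pow]
    apply one_div_le_one_div_of_le (by positivity)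
    linarith
  calc 1 / L ^ (4 * k + 1) = (1 / L) * (1 / L) ^ (4 * k) := by
        rw [pow_succ, one_div_pow]
        field_simp
    _ ≤ _ := mul_le_mul g4 g3 (by positivity) (by positivity)

open Classical in
/-- rare shifts, summed over the second pair -/
lemma rare_pairs (k z y0 v Y U : ℕ) (h : Fin k → ℕ) (hk : 1 ≤ k) (hU : U ≤ Y) (M : Finset ℕ) (hM : M ⊆ Icc 1 Y) (u j : ℕ) (hu : u < U) (hj : j ∈ M) :
    ∑ j' ∈ M, (((range U).filter (fun u' => ¬ ((pz z \ pz y0).filter (fun p => Som (cd h (-(j' : ℤ) - ((u : ℤ) - j))) p u')).card < v)).card : ℝ) ≤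
      U * ((4 * Y : ℕ) * Real.exp (3 * ((k ^ 2 : ℕ) * (1 + Real.log z)) - v) + ((z : ℝ) + 1) ^ v * ((k ^ 2 : ℕ) : ℝ) ^ v) := by
  have hr := rare_count z y0 (4 * Y) v h (-(2 * (Y : ℤ))) hk
  have e1 : ∀ j' ∈ M, (((range U).filter (fun u' => ¬ ((pz z \ pz y0).filter (fun p => Som (cd h (-(j' : ℤ) - ((u : ℤ) - j))) p u')).card < v)).card : ℝ) =
      ∑ u' ∈ range U, (if v ≤ ((pz z \ pz y0).filter (fun p => Som (cd h (-(2 * (Y : ℤ)))) p (u' + j + 2 * Y - j' - u))).card then (1 : ℝ) else 0) := by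
    intro j' hj'
    have hj1 := mem_Icc.1 (hM hj)
    have hj2 := mem_Icc.1 (hM hj')
    rw [card_filter]
    push_cast
    apply sum_congr rfl
    intro u' _
    have hs : ∀ p, Som (cd h (-(j' : ℤ) - ((u : ℤ) - j))) p u' ↔ Som (cd h (-(2 * (Y : ℤ)))) p (u' + j + 2 * Y - j' - u) := by
      intro p
      unfold Som cd
      apply exists_congr
      intro q
      have : ((u' + j + 2 * Y - j' - u : ℕ) : ℤ) = (u' : ℤ) + j + 2 * Y - j' - u := by omega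
      rw [this]
      have e : (u' : ℤ) - ((h q.1 : ℤ) - h q.2 - (-(j' : ℤ) - ((u : ℤ) - j))) =
        (u' : ℤ) + j + 2 * Y - j' - u - ((h q.1 : ℤ) - h q.2 - -(2 * (Y : ℤ))) := by ring
      rw [e]
    have hf : (pz z \ pz y0).filter (fun p => Som (cd h (-(j' : ℤ) - ((u : ℤ) - j))) p u') =
        (pz z \ pz y0).filter (fun p => Som (cd h (-(2 * (Y : ℤ)))) p (u' + j + 2 * Y - j' - u)) :=
      filter_congr fun p _ => hs p
    rw [hf]
    by_cases hv : v ≤ ((pz z \ pz y0).filter (fun p => Som (cd h (-(2 * (Y : ℤ)))) p (u' + j + 2 * Y - j' - u))).card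
    · rw [if_pos hv, if_pos (not_lt.2 hv)]
    · rw [if_neg hv, if_neg (not_not.2 (not_le.1 hv))]
  rw [sum_congr rfl e1, sum_comm]
  have e2 : ∀ u' ∈ range U, ∑ j' ∈ M, (if v ≤ ((pz z \ pz y0).filter (fun p => Som (cd h (-(2 * (Y : ℤ)))) p (u' + j + 2 * Y - j' - u))).card then (1 : ℝ) else 0) ≤
      (((Icc 1 (4 * Y)).filter (fun a => v ≤ ((pz z \ pz y0).filter (fun p => Som (cd h (-(2 * (Y : ℤ)))) p a)).card)).card : ℝ) := by
    intro u' hu'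
    rw [mem_range] at hu'
    rw [← sum_filter, sum_const, nsmul_eq_mul, mul_one]
    have : (M.filter (fun j' => v ≤ ((pz z \ pz y0).filter (fun p => Som (cd h (-(2 * (Y : ℤ)))) p (u' + j + 2 * Y - j' - u))).card)).card ≤
        ((Icc 1 (4 * Y)).filter (fun a => v ≤ ((pz z \ pz y0).filter (fun p => Som (cd h (-(2 * (Y : ℤ)))) p a)).card)).card := by
      have hj1 := mem_Icc.1 (hM hj)
      apply card_le_card_of_injOn (fun j' => u' + j + 2 * Y - j' - u)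
      · intro j' hj'
        rw [mem_coe, mem_filter] at hj'
        have hj2 := mem_Icc.1 (hM hj'.1)
        rw [mem_coe, mem_filter, mem_Icc]
        refine ⟨?_, hj'.2⟩
        change 1 ≤ u' + j + 2 * Y - j' - u ∧ u' + j + 2 * Y - j' - u ≤ 4 * Y
        omega
      · intro a ha b hb hab
        rw [mem_coe, mem_filter] at ha hb
        have ha1 := mem_Icc.1 (hM ha.1)
        have hb1 := mem_Icc.1 (hM hb.1)
        simp only at hab
        omega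
    exact_mod_cast this
  refine (sum_le_sum e2).trans ?_
  rw [sum_const, card_range, nsmul_eq_mul]
  exact mul_le_mul_of_nonneg_left hr (Nat.cast_nonneg _)

open Classical in
/-- the sum of the singular factor, from the averages over the shifts which are not rare -/
theorem total_gen (k : ℕ) (hk : 1 ≤ k) (h : Fin k → ℕ) (hd : ∀ p, p.Prime → p ≤ 2 * k → ∀ l, p ∣ h l) (A E : ℕ) (δ : ℝ) (hδ : 0 < δ) :
    ∃ C1 N0 : ℕ, ∀ N : ℕ, N0 ≤ N → ∀ z Y U : ℕ, Real.log N ≤ z → (z : ℝ) ≤ Real.log N ^ E → 6 * Y ≤ N →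
    U ≤ Y → ∀ M ⊆ Icc 1 Y, N / Real.log N ^ A ≤ M.card → ∃ v : ℕ, (v : ℝ) ≤ C1 * Real.log (Real.log N) ∧ ∀ y0 : ℕ,
    (∀ s x : ℤ, ∑ u ∈ (range U).filter (fun u => ((pz z \ pz y0).filter (fun p => Som (cd h (x - s)) p u)).card < v), VV z (c2 h s ((u : ℤ) + x)) ≤
      (1 + 7 * δ) * U * VV z (cneg h) ^ 2) →
    ∑ t ∈ (range U ×ˢ M) ×ˢ (range U ×ˢ M), VV z (c2 h ((t.1.1 : ℤ) - t.1.2) ((t.2.1 : ℤ) - t.2.2)) ≤
      (1 + 12 * δ) * (U * M.card) ^ 2 * VV z (cneg h) ^ 2 := by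
  obtain ⟨A2, hA2⟩ : ∃ A2, A2 = A + 2 * (4 * k + 1) + 1 := ⟨_, rfl⟩
  obtain ⟨C1, hC1⟩ : ∃ C1, C1 = (3 * (k ^ 2 * (1 + E)) + A2 + 1) * 3 := ⟨_, rfl⟩
  obtain ⟨m2, h2⟩ := choice (k ^ 2) E A2 40
  obtain ⟨m3, h3⟩ := log_le_t (A2 + (3 * (k ^ 2 * (1 + E)) + A2 + 1) * k ^ 2)
  obtain ⟨m4, h4⟩ := ev_L' (max 3 (2 / δ))
  obtain ⟨m5, h5⟩ := V_low_L k E hk
  refine ⟨C1, max m2 (max (max m3 m4) (max m5 3)), ?_⟩
  intro N hN z Y U hz1 hz2 hY hUY M hM hMc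
  have n2 : m2 ≤ N := le_trans (le_max_left _ _) hN
  have nn := le_trans (le_max_right _ _) hN
  have n3 : m3 ≤ N := le_trans (le_trans (le_max_left _ _) (le_max_left _ _)) nn
  have n4 : m4 ≤ N := le_trans (le_trans (le_max_right _ _) (le_max_left _ _)) nn
  have n5 : m5 ≤ N := le_trans (le_trans (le_max_left _ _) (le_max_right _ _)) nn
  have hN3 : 3 ≤ N := le_trans (le_trans (le_max_right _ _) (le_max_right _ _)) nn
  have hN1 : 1 ≤ N := by omega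
  have hN0 : (0 : ℝ) < N := by exact_mod_cast hN1
  have b4 := h4 N n4
  obtain ⟨v, hv1, hv2, hv3⟩ := h2 N n2 z hz2
  obtain ⟨t, ht0, ht40, hsq⟩ := exists_t N hN1
  have hLm := h3 N n3 t ht0 ht40 hsq
  have hL3 : (3 : ℝ) ≤ Real.log N := le_trans (le_max_left _ _) b4
  have hzr : (1 : ℝ) ≤ z := by linarith
  have hz : 1 ≤ z := by exact_mod_cast hzr
  have hVz := h5 N n5 z hz hz2 h hd
  have hll : 0 ≤ Real.log (Real.log N) := Real.log_nonneg (by linarith)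
  have hvC : (v : ℝ) ≤ C1 * Real.log (Real.log N) := by
    have g1 := hv3 3
    have g2 := Real.log_le_log (by positivity) g1
    rw [Real.log_pow, Real.log_pow] at g2
    have g3 : 1 ≤ Real.log ((3 : ℕ) : ℝ) := by
      rw [Real.le_log_iff_exp_le (by norm_num)]
      have := Real.exp_one_lt_d9
      push_cast
      linarith
    rw [hC1]
    calc (v : ℝ) ≤ v * Real.log ((3 : ℕ) : ℝ) := le_mul_of_one_le_right (Nat.cast_nonneg _) g3
      _ ≤ _ := g2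
  refine ⟨v, hvC, fun y0 hcom => ?_⟩
  set L := Real.log N with hLd
  have hL0 : 0 < L := by linarith
  have hL1 : 1 ≤ L := by linarith
  have hLδ : 2 / δ ≤ L := le_trans (le_max_right _ _) b4
  have ht1 : 1 ≤ t := by
    have : L ≤ t := le_trans (le_self_pow₀ hL1 (by omega)) hLm
    linarith
  obtain ⟨V, hV⟩ : ∃ V, V = VV z (cneg h) := ⟨_, rfl⟩
  rw [← hV] at hVz hcom ⊢
  have hV0 : 0 ≤ V := by rw [hV]; exact VV_nonneg _ _
  -- the rare part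
  have hrare : (U : ℝ) * ((4 * Y : ℕ) * Real.exp (3 * ((k ^ 2 : ℕ) * (1 + Real.log z)) - v) + ((z : ℝ) + 1) ^ v * ((k ^ 2 : ℕ) : ℝ) ^ v) ≤
      δ * (U * M.card) * V ^ 2 := by
    have q1 : ((4 * Y : ℕ) : ℝ) * Real.exp (3 * ((k ^ 2 : ℕ) * (1 + Real.log z)) - v) ≤ N / L ^ A2 := by
      have : ((4 * Y : ℕ) : ℝ) ≤ N := by exact_mod_cast (by omega : 4 * Y ≤ N)
      calc _ ≤ (N : ℝ) * (1 / L ^ A2) := mul_le_mul this hv1 (Real.exp_pos _).le hN0.le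
        _ = _ := by ring
    have hzt : ((z : ℝ) + 1) ^ v ≤ t := by
      apply le_of_pow_le_pow_left₀ (n := 40) (by norm_num) ht0
      rw [ht40]
      exact hv2
    have q2 : ((z : ℝ) + 1) ^ v * ((k ^ 2 : ℕ) : ℝ) ^ v ≤ N / L ^ A2 := by
      rw [le_div_iff₀ (by positivity)]
      have q3 : ((k ^ 2 : ℕ) : ℝ) ^ v * L ^ A2 ≤ t := by
        calc ((k ^ 2 : ℕ) : ℝ) ^ v * L ^ A2 ≤ L ^ ((3 * (k ^ 2 * (1 + E)) + A2 + 1) * k ^ 2) * L ^ A2 := mul_le_mul_of_nonneg_right (hv3 (k ^ 2)) (by positivity)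
          _ = L ^ (A2 + (3 * (k ^ 2 * (1 + E)) + A2 + 1) * k ^ 2) := by rw [← pow_add, add_comm]
          _ ≤ t := hLm
      calc ((z : ℝ) + 1) ^ v * ((k ^ 2 : ℕ) : ℝ) ^ v * L ^ A2 = ((z : ℝ) + 1) ^ v * (((k ^ 2 : ℕ) : ℝ) ^ v * L ^ A2) := by ring
        _ ≤ t * t := mul_le_mul hzt q3 (by positivity) ht0
        _ = t ^ 2 := by ring
        _ ≤ t ^ 40 := pow_le_pow_right₀ ht1 (by norm_num)
        _ = N := ht40
    have q4 : (N : ℝ) / L ^ A2 + N / L ^ A2 ≤ δ * M.card * V ^ 2 := by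
      have q5 : (1 / L ^ (4 * k + 1)) ^ 2 ≤ V ^ 2 := pow_le_pow_left₀ (by positivity) hVz 2
      have q6 : δ * (N / L ^ A) * (1 / L ^ (4 * k + 1)) ^ 2 ≤ δ * M.card * V ^ 2 := by gcongr
      refine le_trans ?_ q6
      have e1 : L ^ A2 = L ^ A * (L ^ (4 * k + 1)) ^ 2 * L := by rw [hA2]; ring
      have e2 : (N : ℝ) / L ^ A2 + N / L ^ A2 = (2 / δ) / L * (δ * (N / L ^ A) * (1 / L ^ (4 * k + 1)) ^ 2) := by
        rw [e1]
        field_simp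
        ring
      rw [e2]
      have e3 : (2 / δ) / L ≤ 1 := by rw [div_le_one hL0]; exact hLδ
      calc _ ≤ 1 * (δ * ((N : ℝ) / L ^ A) * (1 / L ^ (4 * k + 1)) ^ 2) := mul_le_mul_of_nonneg_right e3 (by positivity)
        _ = _ := one_mul _
    calc _ ≤ (U : ℝ) * (N / L ^ A2 + N / L ^ A2) := mul_le_mul_of_nonneg_left (add_le_add q1 q2) (Nat.cast_nonneg _)
      _ ≤ U * (δ * M.card * V ^ 2) := mul_le_mul_of_nonneg_left q4 (Nat.cast_nonneg _)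
      _ = _ := by ring
  -- one pair
  have hone : ∀ t1 ∈ range U ×ˢ M, ∑ t2 ∈ range U ×ˢ M, VV z (c2 h ((t1.1 : ℤ) - t1.2) ((t2.1 : ℤ) - t2.2)) ≤ (1 + 12 * δ) * (U * M.card) * V ^ 2 := by
    intro t1 ht
    rw [mem_product, mem_range] at ht
    rw [sum_product, sum_comm]
    have g1 : ∀ j' ∈ M, ∑ u' ∈ range U, VV z (c2 h ((t1.1 : ℤ) - t1.2) ((u' : ℤ) - j')) ≤
        (1 + 7 * δ) * U * V ^ 2 +
        (((range U).filter (fun u' => ¬ ((pz z \ pz y0).filter (fun p => Som (cd h (-(j' : ℤ) - ((t1.1 : ℤ) - t1.2))) p u')).card < v)).card : ℝ) := by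
      intro j' _
      rw [← sum_filter_add_sum_filter_not (range U) (fun u' => ((pz z \ pz y0).filter (fun p => Som (cd h (-(j' : ℤ) - ((t1.1 : ℤ) - t1.2))) p u')).card < v)]
      apply add_le_add
      · have := hcom ((t1.1 : ℤ) - t1.2) (-(j' : ℤ))
        simp only [← sub_eq_add_neg] at this
        exact this
      · rw [card_eq_sum_ones]
        push_cast
        apply sum_le_sum
        intro _ _
        exact VV_le_one _ _
    refine (sum_le_sum g1).trans ?_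
    rw [sum_add_distrib, sum_const, nsmul_eq_mul]
    have g2 := (rare_pairs k z y0 v Y U h hk hUY M hM t1.1 t1.2 ht.1 ht.2).trans hrare
    have g3 : (M.card : ℝ) * ((1 + 7 * δ) * U * V ^ 2) + δ * (U * M.card) * V ^ 2 = (1 + 8 * δ) * (U * M.card) * V ^ 2 := by ring
    have g4 : (1 + 8 * δ) * ((U : ℝ) * M.card) * V ^ 2 ≤ (1 + 12 * δ) * (U * M.card) * V ^ 2 := by
      gcongr
      norm_num
    linarith
  rw [sum_product]
  refine (sum_le_sum hone).trans (le_of_eq ?_)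
  rw [sum_const, nsmul_eq_mul, card_product, card_range]
  push_cast
  ring

open Classical in
/-- **the sum of the singular factor.** -/
theorem sing_total (k : ℕ) (hk : 1 ≤ k) (h : Fin k → ℕ) (hd : ∀ p, p.Prime → p ≤ 2 * k → ∀ l, p ∣ h l) (A E : ℕ) (δ : ℝ) (hδ : 0 < δ) (hδ1 : δ ≤ 1) :
    ∃ N0 : ℕ, ∀ N : ℕ, N0 ≤ N → ∀ z Y U : ℕ, Real.log N ≤ z → (z : ℝ) ≤ Real.log N ^ E → 6 * Y ≤ N →
    Real.log (Real.log (Real.log N)) ^ (2 * k ^ 3 + 1) ≤ U → U ≤ Y → ∀ M ⊆ Icc 1 Y, N / Real.log N ^ A ≤ M.card →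
    ∑ t ∈ (range U ×ˢ M) ×ˢ (range U ×ˢ M), VV z (c2 h ((t.1.1 : ℤ) - t.1.2) ((t.2.1 : ℤ) - t.2.2)) ≤
      (1 + 12 * δ) * (U * M.card) ^ 2 * VV z (cneg h) ^ 2 := by
  obtain ⟨w, hw1, hwk, hw3⟩ := w_choice hk h hd δ hδ
  obtain ⟨C1, m0, h0⟩ := total_gen k hk h hd A E δ hδ
  have hVw : 0 < VV w (cneg h) ^ 2 := pow_pos (V_pos hk w h hd) 2
  obtain ⟨m1, h1⟩ := y0_choice k w C1 (∏ p ∈ pz w, p) (VV w (cneg h) ^ 2) δ hVw hδ
  refine ⟨max m0 m1, ?_⟩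
  intro N hN z Y U hz1 hz2 hY hU hUY M hM hMc
  obtain ⟨v, hvC, hfin⟩ := h0 N (le_trans (le_max_left _ _) hN) z Y U hz1 hz2 hY hUY M hM hMc
  obtain ⟨y0, hy1, hy2, hy3, hy4, hy5⟩ := h1 N (le_trans (le_max_right _ _) hN) z U v hz1 hU hvC
  apply hfin y0
  intro s x
  refine (sing_avg w y0 z U v hw1 hwk hy1 hy2 h s x).trans ?_
  obtain ⟨V, hV⟩ : ∃ V, V = VV z (cneg h) := ⟨_, rfl⟩
  rw [← hV]
  obtain ⟨G, hG⟩ : ∃ G, G = ∏ p ∈ pz z \ pz w, (1 - (nu (cneg h) p : ℝ) / p) := ⟨_, rfl⟩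
  obtain ⟨Vw, hVwd⟩ : ∃ Vw, Vw = VV w (cneg h) := ⟨_, rfl⟩
  have hs := VV_split w z (hy1.trans hy2) (cneg h)
  rw [← hG, ← hV, ← hVwd] at hs
  rw [← hG, ← hVwd]
  rw [← hVwd] at hy5 hw3 hVw
  rw [hs]
  have hU0 : (0 : ℝ) ≤ U := Nat.cast_nonneg _
  have g1 : (U + ((∏ p ∈ pz w, p : ℕ) : ℝ)) * Vw ^ 2 + U * (Real.exp (2 * k ^ 3 / w) - 1) + ∏ p ∈ pz y0, (1 + 2 * (k : ℝ) ^ 3 / p) ≤
      (1 + 3 * δ) * (U * Vw ^ 2) := by
    have g2 : ((∏ p ∈ pz w, p : ℕ) : ℝ) * Vw ^ 2 ≤ δ * U * Vw ^ 2 := mul_le_mul_of_nonneg_right hy4 hVw.le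
    have g3 : U * (Real.exp (2 * k ^ 3 / w) - 1) ≤ U * (δ * Vw ^ 2) := mul_le_mul_of_nonneg_left hw3 hU0
    nlinarith
  calc G ^ 2 * (Real.exp (2 * k * v / y0) * ((U + ((∏ p ∈ pz w, p : ℕ) : ℝ)) * Vw ^ 2 + U * (Real.exp (2 * k ^ 3 / w) - 1) + ∏ p ∈ pz y0, (1 + 2 * (k : ℝ) ^ 3 / p))) ≤
      G ^ 2 * (Real.exp (2 * k * v / y0) * ((1 + 3 * δ) * (U * Vw ^ 2))) := by gcongr
    _ ≤ G ^ 2 * ((1 + δ) * ((1 + 3 * δ) * (U * Vw ^ 2))) := by gcongr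
    _ = ((1 + δ) * (1 + 3 * δ)) * (U * (G * Vw) ^ 2) := by ring
    _ ≤ (1 + 7 * δ) * (U * (G * Vw) ^ 2) := by
        apply mul_le_mul_of_nonneg_right _ (by positivity)
        nlinarith
    _ = _ := by ring

end Pool.Agent.L0h42.EG
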