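import Mathlib
import Pool.Agent.L0h42.EG.E7
import Pool.Agent.L0h42.TB.B20

/-! The variance. -/

set_option autoImplicit false
set_option linter.unusedSectionVars false

namespace Pool.Agent.L0h42.EG
open Finset
open Pool.Agent.L0h42.TB
open Pool.Agent.H373R2.T7

/-- the sum over the shifted points -/
noncomputable def TT {k : ℕ} (z R U : ℕ) (M : Finset ℕ) (h : Fin k → ℕ) (Λ : (Fin k → ℕ) → ℝ) (n : ℕ) : ℝ :=
  ∑ t ∈ range U ×ˢ M, FF z R h Λ (n + t.1 - t.2)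

open Classical in
/-- **the variance**, assuming a bound for the sum of the singular factor. -/
theorem variance_gen (k A B : ℕ) (hk : 1 ≤ k) (h : Fin k → ℕ) (hinj : Function.Injective h) (hd : ∀ p, p.Prime → p ≤ 2 * k → ∀ l, p ∣ h l) :
    ∃ E0 : ℕ, ∀ E : ℕ, ∀ δ : ℝ, 0 < δ → δ ≤ 1 → ∃ N0 : ℕ, ∀ N : ℕ, N0 ≤ N → ∀ z R Y U : ℕ,
    Real.log N ^ E0 ≤ z → (z : ℝ) ≤ Real.log N ^ E → 1 ≤ R → R ^ 80 ≤ N → 6 * Y ≤ N → N ≤ 12 * Y →
    1 ≤ U → U ≤ Y → (∀ l, h l ≤ z) → ∀ M ⊆ Icc 1 Y, N / Real.log N ^ A ≤ M.card →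
    (Real.log N ≤ z → ∑ t ∈ (range U ×ˢ M) ×ˢ (range U ×ˢ M), VV z (c2 h ((t.1.1 : ℤ) - t.1.2) ((t.2.1 : ℤ) - t.2.2)) ≤
      (1 + 12 * δ) * (U * M.card) ^ 2 * VV z (cneg h) ^ 2) →
    ∀ Λ : (Fin k → ℕ) → ℝ,
    (∀ d ∈ PD (Fin k) z R, |Λ d| ≤ Real.log N ^ B) → (∀ d, Λ d ≠ 0 → ∏ l, d l ≤ R) → 1 ≤ Qf z R Λ →
    (((Ioc (2 * Y) (4 * Y)).filter (fun n => U * M.card * VV z (cneg h) * Qf z R Λ / 2 <
      |TT z R U M h Λ n - U * M.card * VV z (cneg h) * Qf z R Λ|)).card : ℝ) ≤ 104 * δ * Y := by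
  obtain ⟨A', hA'⟩ : ∃ A', A' = 2 * A + 2 * (4 * k + 1) + 1 := ⟨_, rfl⟩
  obtain ⟨e1, he1⟩ := second_main k A' B hk
  obtain ⟨e2, he2⟩ := first_main k A' B hk
  refine ⟨max (max e1 e2) 1, fun E δ hδ hδ1 => ?_⟩
  obtain ⟨m1, h1⟩ := he1 E
  obtain ⟨m2, h2⟩ := he2 E
  obtain ⟨m4, h4⟩ := ev_L' (max 3 (24 / δ))
  obtain ⟨m5, h5⟩ := V_low_L k E hk
  refine ⟨max (max m1 m2) (max m4 (max m5 3)), ?_⟩
  intro N hN z R Y U hz1 hz2 hR1 hR hY hY2 hU1 hUY hhz M hM hMc g3' Λ hΛ hs hQ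
  have n1 : m1 ≤ N := le_trans (le_trans (le_max_left _ _) (le_max_left _ _)) hN
  have n2 : m2 ≤ N := le_trans (le_trans (le_max_right _ _) (le_max_left _ _)) hN
  have nn := le_trans (le_max_right _ _) hN
  have n4 : m4 ≤ N := le_trans (le_max_left _ _) nn
  have n5 : m5 ≤ N := le_trans (le_trans (le_max_left _ _) (le_max_right _ _)) nn
  have hN3 : 3 ≤ N := le_trans (le_trans (le_max_right _ _) (le_max_right _ _)) nn
  have hN1 : 1 ≤ N := by omega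
  have hN0 : (0 : ℝ) < N := by exact_mod_cast hN1
  have b4 := h4 N n4
  set L := Real.log N with hLd
  have hL3 : (3 : ℝ) ≤ L := le_trans (le_max_left _ _) b4
  have hLδ : 24 / δ ≤ L := le_trans (le_max_right _ _) b4
  have hL0 : 0 < L := by linarith
  have hL1 : 1 ≤ L := by linarith
  have hze1 : L ^ e1 ≤ z := (pow_le_pow_right₀ hL1 (le_trans (le_max_left _ _) (le_max_left _ _))).trans hz1
  have hze2 : L ^ e2 ≤ z := (pow_le_pow_right₀ hL1 (le_trans (le_max_right _ _) (le_max_left _ _))).trans hz1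
  have hzL : L ≤ z := (le_self_pow₀ hL1 (by
    have := le_max_right (max e1 e2) 1
    omega)).trans hz1
  have hz : 1 ≤ z := by
    have : (1 : ℝ) ≤ z := by linarith
    exact_mod_cast this
  have hVz := h5 N n5 z hz hz2 h hd
  have g1 := h1 N n1 z R Y U hze1 hz2 hR1 hR hY hUY h hinj hhz M hM Λ hΛ hs
  have g2 := h2 N n2 z R Y U hze2 hz2 hR1 hR hY hUY h hinj hhz Λ hΛ hs
  have g3 := g3' hzL
  obtain ⟨V, hV⟩ : ∃ V, V = VV z (cneg h) := ⟨_, rfl⟩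
  obtain ⟨Q, hQd⟩ : ∃ Q, Q = Qf z R Λ := ⟨_, rfl⟩
  rw [← hV] at hVz g2 g3 ⊢
  rw [← hQd] at g1 g2 hQ ⊢
  have hV0 : 0 < V := lt_of_lt_of_le (by positivity) hVz
  have hQ0 : 0 < Q := by linarith
  have hMc0 : (0 : ℝ) < M.card := lt_of_lt_of_le (by positivity) hMc
  have hU0 : (0 : ℝ) < U := by exact_mod_cast hU1
  obtain ⟨μ, hμ⟩ : ∃ μ, μ = U * M.card * V := ⟨_, rfl⟩
  have hμ0 : 0 < μ := by rw [hμ]; positivity
  rw [← hμ]
  have hYr : (N : ℝ) / 12 ≤ Y := by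
    rw [div_le_iff₀ (by norm_num)]
    have : (N : ℝ) ≤ 12 * Y := by exact_mod_cast hY2
    linarith
  have hY0 : (0 : ℝ) < Y := by linarith [show (0 : ℝ) < N / 12 by positivity]
  -- the second moment
  have s2 : ∑ n ∈ Ioc (2 * Y) (4 * Y), TT z R U M h Λ n ^ 2 ≤ 2 * Y * ((1 + 12 * δ) * μ ^ 2) * Q ^ 2 + U ^ 2 * N ^ 3 / L ^ A' := by
    have e1 : ∑ n ∈ Ioc (2 * Y) (4 * Y), TT z R U M h Λ n ^ 2 =
        ∑ t ∈ (range U ×ˢ M) ×ˢ (range U ×ˢ M), ∑ n ∈ Ioc (2 * Y) (4 * Y), FF z R h Λ (n + t.1.1 - t.1.2) * FF z R h Λ (n + t.2.1 - t.2.2) := by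
      rw [sum_comm]
      apply sum_congr rfl
      intro n _
      unfold TT
      rw [sum_prod_mul (range U ×ˢ M) (range U ×ˢ M) (fun t => FF z R h Λ (n + t.1 - t.2)) (fun t => FF z R h Λ (n + t.1 - t.2)), sq]
    rw [e1]
    have e2 : ∀ t ∈ (range U ×ˢ M) ×ˢ (range U ×ˢ M), ∑ n ∈ Ioc (2 * Y) (4 * Y), FF z R h Λ (n + t.1.1 - t.1.2) * FF z R h Λ (n + t.2.1 - t.2.2) ≤
        2 * Y * Q ^ 2 * VV z (c2 h ((t.1.1 : ℤ) - t.1.2) ((t.2.1 : ℤ) - t.2.2)) +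
        |∑ n ∈ Ioc (2 * Y) (4 * Y), FF z R h Λ (n + t.1.1 - t.1.2) * FF z R h Λ (n + t.2.1 - t.2.2) -
          2 * Y * VV z (c2 h ((t.1.1 : ℤ) - t.1.2) ((t.2.1 : ℤ) - t.2.2)) * (Q * Q)| := by
      intro t _
      have := le_abs_self (∑ n ∈ Ioc (2 * Y) (4 * Y), FF z R h Λ (n + t.1.1 - t.1.2) * FF z R h Λ (n + t.2.1 - t.2.2) -
          2 * Y * VV z (c2 h ((t.1.1 : ℤ) - t.1.2) ((t.2.1 : ℤ) - t.2.2)) * (Q * Q))
      linarith
    refine (sum_le_sum e2).trans ?_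
    rw [sum_add_distrib, ← mul_sum]
    apply add_le_add _ g1
    calc 2 * Y * Q ^ 2 * ∑ t ∈ (range U ×ˢ M) ×ˢ (range U ×ˢ M), VV z (c2 h ((t.1.1 : ℤ) - t.1.2) ((t.2.1 : ℤ) - t.2.2)) ≤
        2 * Y * Q ^ 2 * ((1 + 12 * δ) * (U * M.card) ^ 2 * V ^ 2) := mul_le_mul_of_nonneg_left g3 (by positivity)
      _ = _ := by rw [hμ]; ring
  -- the first moment
  have s1 : 2 * Y * μ * Q - U * M.card * (N / L ^ A') ≤ ∑ n ∈ Ioc (2 * Y) (4 * Y), TT z R U M h Λ n := by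
    unfold TT
    rw [sum_comm]
    have e1 : ∀ t ∈ range U ×ˢ M, 2 * Y * V * Q - N / L ^ A' ≤ ∑ n ∈ Ioc (2 * Y) (4 * Y), FF z R h Λ (n + t.1 - t.2) := by
      intro t ht
      rw [mem_product, mem_range] at ht
      have j1 := mem_Icc.1 (hM ht.2)
      have := (abs_le.1 (g2 t.1 t.2 ht.1 j1.1 j1.2)).1
      linarith
    refine le_trans (le_of_eq ?_) (sum_le_sum e1)
    rw [sum_const, nsmul_eq_mul, card_product, card_range, hμ]
    push_cast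
    ring
  -- the variance
  have hvar : ∑ n ∈ Ioc (2 * Y) (4 * Y), (TT z R U M h Λ n - μ * Q) ^ 2 ≤ 26 * δ * Y * (μ * Q) ^ 2 := by
    have e1 : ∑ n ∈ Ioc (2 * Y) (4 * Y), (TT z R U M h Λ n - μ * Q) ^ 2 =
        ∑ n ∈ Ioc (2 * Y) (4 * Y), TT z R U M h Λ n ^ 2 - 2 * (μ * Q) * ∑ n ∈ Ioc (2 * Y) (4 * Y), TT z R U M h Λ n + 2 * Y * (μ * Q) ^ 2 := by
      have e2 : ∀ n ∈ Ioc (2 * Y) (4 * Y), (TT z R U M h Λ n - μ * Q) ^ 2 = TT z R U M h Λ n ^ 2 - 2 * (μ * Q) * TT z R U M h Λ n + (μ * Q) ^ 2 := by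
        intro n _; ring
      rw [sum_congr rfl e2, sum_add_distrib, sum_sub_distrib, ← mul_sum, sum_const, Nat.card_Ioc, nsmul_eq_mul]
      have : 4 * Y - 2 * Y = 2 * Y := by omega
      rw [this]
      push_cast
      ring
    rw [e1]
    have s1' := mul_le_mul_of_nonneg_left s1 (show 0 ≤ 2 * (μ * Q) by positivity)
    have t1 : (U : ℝ) ^ 2 * N ^ 3 / L ^ A' ≤ δ * Y * (μ * Q) ^ 2 := by
      have q1 : (U : ℝ) * (N / L ^ A) * (1 / L ^ (4 * k + 1)) ≤ μ * Q := by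
        rw [hμ]
        calc (U : ℝ) * (N / L ^ A) * (1 / L ^ (4 * k + 1)) ≤ U * M.card * V := by gcongr
          _ = U * M.card * V * 1 := by ring
          _ ≤ U * M.card * V * Q := mul_le_mul_of_nonneg_left hQ (by positivity)
      have q2 : δ * (N / 12) * ((U : ℝ) * (N / L ^ A) * (1 / L ^ (4 * k + 1))) ^ 2 ≤ δ * Y * (μ * Q) ^ 2 := by gcongr
      refine le_trans ?_ q2
      have e3 : L ^ A' = (L ^ A) ^ 2 * (L ^ (4 * k + 1)) ^ 2 * L := by rw [hA']; ring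
      have e4 : (U : ℝ) ^ 2 * N ^ 3 / L ^ A' = (12 / δ) / L * (δ * (N / 12) * ((U : ℝ) * (N / L ^ A) * (1 / L ^ (4 * k + 1))) ^ 2) := by
        rw [e3]
        field_simp
      rw [e4]
      have e5 : (12 / δ) / L ≤ 1 := by
        rw [div_le_one hL0]
        refine le_trans ?_ hLδ
        gcongr
        norm_num
      calc _ ≤ 1 * (δ * ((N : ℝ) / 12) * ((U : ℝ) * (N / L ^ A) * (1 / L ^ (4 * k + 1))) ^ 2) := mul_le_mul_of_nonneg_right e5 (by positivity)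
        _ = _ := one_mul _
    have t2 : 2 * (μ * Q) * (U * M.card * (N / L ^ A')) ≤ δ * Y * (μ * Q) ^ 2 := by
      have q1 : 2 * (U * M.card * (N / L ^ A')) ≤ δ * Y * (μ * Q) := by
        have q2 : (U : ℝ) * M.card * (1 / L ^ (4 * k + 1)) ≤ μ * Q := by
          rw [hμ]
          calc (U : ℝ) * M.card * (1 / L ^ (4 * k + 1)) ≤ U * M.card * V := by gcongr
            _ = U * M.card * V * 1 := by ring
            _ ≤ U * M.card * V * Q := mul_le_mul_of_nonneg_left hQ (by positivity)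
        have q3 : δ * (N / 12) * ((U : ℝ) * M.card * (1 / L ^ (4 * k + 1))) ≤ δ * Y * (μ * Q) := by gcongr
        refine le_trans ?_ q3
        have e3 : L ^ A' = L ^ (2 * A) * L ^ (4 * k + 1) * L ^ (4 * k + 1) * L := by rw [hA']; ring
        have e4 : 2 * ((U : ℝ) * M.card * (N / L ^ A')) = (24 / δ) / L * (1 / (L ^ (2 * A) * L ^ (4 * k + 1))) * (δ * (N / 12) * ((U : ℝ) * M.card * (1 / L ^ (4 * k + 1)))) := by
          rw [e3]
          field_simp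
          ring
        rw [e4]
        have e5 : (24 / δ) / L ≤ 1 := by rw [div_le_one hL0]; exact hLδ
        have e6 : 1 / (L ^ (2 * A) * L ^ (4 * k + 1)) ≤ 1 := by
          rw [div_le_one (by positivity)]
          exact one_le_mul_of_one_le_of_one_le (one_le_pow₀ hL1) (one_le_pow₀ hL1)
        have e7 : (24 / δ) / L * (1 / (L ^ (2 * A) * L ^ (4 * k + 1))) ≤ 1 := mul_le_one₀ e5 (by positivity) e6
        calc _ ≤ 1 * (δ * ((N : ℝ) / 12) * ((U : ℝ) * M.card * (1 / L ^ (4 * k + 1)))) := mul_le_mul_of_nonneg_right e7 (by positivity)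
          _ = _ := one_mul _
      calc 2 * (μ * Q) * (U * M.card * (N / L ^ A')) = (μ * Q) * (2 * (U * M.card * (N / L ^ A'))) := by ring
        _ ≤ (μ * Q) * (δ * Y * (μ * Q)) := mul_le_mul_of_nonneg_left q1 (by positivity)
        _ = _ := by ring
    nlinarith
  have hmk := markov (Ioc (2 * Y) (4 * Y)) (fun n => (TT z R U M h Λ n - μ * Q) ^ 2) (fun n _ => sq_nonneg _) ((μ * Q / 2) ^ 2) (by positivity) _ hvar
    (fun n => μ * Q / 2 < |TT z R U M h Λ n - μ * Q|) (by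
      intro n _ hn
      rw [← sq_abs (TT z R U M h Λ n - μ * Q)]
      exact pow_le_pow_left₀ (by positivity) hn.le 2)
  refine hmk.trans (le_of_eq ?_)
  field_simp
  ring

open Classical in
/-- **the variance.** -/
theorem variance (k A B : ℕ) (hk : 1 ≤ k) (h : Fin k → ℕ) (hinj : Function.Injective h) (hd : ∀ p, p.Prime → p ≤ 2 * k → ∀ l, p ∣ h l) :
    ∃ E0 : ℕ, ∀ E : ℕ, ∀ δ : ℝ, 0 < δ → δ ≤ 1 → ∃ N0 : ℕ, ∀ N : ℕ, N0 ≤ N → ∀ z R Y U : ℕ,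
    Real.log N ^ E0 ≤ z → (z : ℝ) ≤ Real.log N ^ E → 1 ≤ R → R ^ 80 ≤ N → 6 * Y ≤ N → N ≤ 12 * Y →
    Real.log (Real.log (Real.log N)) ^ (2 * k ^ 3 + 1) ≤ U → 1 ≤ U → U ≤ Y → (∀ l, h l ≤ z) → ∀ M ⊆ Icc 1 Y, N / Real.log N ^ A ≤ M.card →
    ∀ Λ : (Fin k → ℕ) → ℝ,
    (∀ d ∈ PD (Fin k) z R, |Λ d| ≤ Real.log N ^ B) → (∀ d, Λ d ≠ 0 → ∏ l, d l ≤ R) → 1 ≤ Qf z R Λ →
    (((Ioc (2 * Y) (4 * Y)).filter (fun n => U * M.card * VV z (cneg h) * Qf z R Λ / 2 <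
      |TT z R U M h Λ n - U * M.card * VV z (cneg h) * Qf z R Λ|)).card : ℝ) ≤ 104 * δ * Y := by
  obtain ⟨E0, hE0⟩ := variance_gen k A B hk h hinj hd
  refine ⟨E0, fun E δ hδ hδ1 => ?_⟩
  obtain ⟨m1, h1⟩ := hE0 E δ hδ hδ1
  obtain ⟨m3, h3⟩ := sing_total k hk h hd A E δ hδ hδ1
  refine ⟨max m1 m3, ?_⟩
  intro N hN z R Y U hz1 hz2 hR1 hR hY hY2 hU hU1 hUY hhz M hM hMc Λ hΛ hs hQ
  exact h1 N (le_trans (le_max_left _ _) hN) z R Y U hz1 hz2 hR1 hR hY hY2 hU1 hUY hhz M hM hMc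
    (fun hzL => h3 N (le_trans (le_max_right _ _) hN) z Y U hzL hz2 hY hU hUY M hM hMc) Λ hΛ hs hQ

/-- the prime part -/
theorem prime_part (k A B : ℕ) (hk : 1 ≤ k) : ∃ E0 : ℕ, ∀ E : ℕ, ∃ N0 : ℕ, ∀ N : ℕ, N0 ≤ N → ∀ z R Y U : ℕ,
    Real.log N ^ E0 ≤ z → (z : ℝ) ≤ Real.log N ^ E → 1 ≤ R → R ^ 80 ≤ N → 6 * Y ≤ N → z ≤ Y → U ≤ Y →
    ∀ h : Fin k → ℕ, Function.Injective h → (∀ l, h l ≤ z) → ∀ M ⊆ Icc 1 Y, ∀ (i : Fin k) (Λ : (Fin k → ℕ) → ℝ),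
    (∀ d ∈ PD (Fin k) z R, |Λ d| ≤ Real.log N ^ B) → (∀ d, Λ d ≠ 0 → ∏ l, d l ≤ R ∧ d i = 1) →
    ∑ n ∈ Ioc (2 * Y) (4 * Y), |∑ t ∈ range U ×ˢ M, Df z R h i Λ (n + t.1 - t.2)| ≤ U * (N ^ 2 / Real.log N ^ A) := by
  classical
  obtain ⟨E0, hE0⟩ := fourier_small k A B hk
  refine ⟨E0, fun E => ?_⟩
  obtain ⟨N0, h0⟩ := hE0 E
  refine ⟨max N0 3, ?_⟩
  intro N hN z R Y U hz1 hz2 hR1 hR hY hzY hU h hinj hhz M hM i Λ hΛ hs
  have f1 := h0 N (le_trans (le_max_left _ _) hN) z R hz1 hz2 hR1 hR h hinj hhz i Λ hΛ hs Y (5 * Y) hzY (by omega) (by omega)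
  have hN3 : 3 ≤ N := le_trans (le_max_right _ _) hN
  have hN0 : (0 : ℝ) < N := by exact_mod_cast (by omega : 0 < N)
  have hL0 : 0 < Real.log N := Real.log_pos (by exact_mod_cast (by omega : 1 < N))
  obtain ⟨η, hη⟩ : ∃ η : ℝ, η = N / Real.log N ^ A := ⟨_, rfl⟩
  have hη0 : 0 ≤ η := by rw [hη]; positivity
  rw [← hη] at f1
  obtain ⟨a, ha⟩ : ∃ a : ℕ → ℂ, a = fun m => if m ∈ Ioc Y (5 * Y) then ((Df z R h i Λ m : ℝ) : ℂ) else 0 := ⟨_, rfl⟩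
  obtain ⟨b, hb⟩ : ∃ b : ℕ → ℂ, b = fun n => if n ∈ M then 1 else 0 := ⟨_, rfl⟩
  have key := Pool.Agent.R311.DEH.mean_abs (5 * Y) a b η hη0 (by
    intro α
    refine le_trans (le_of_eq ?_) (f1 α)
    congr 1
    have h2 : ∀ m ∈ Icc 1 (5 * Y), a m * Pool.Agent.H807R2.Dav.ee ((m : ℝ) * α) =
        if m ∈ Ioc Y (5 * Y) then ((Gr z (cneg h) m * SS z R Λ (cneg h) m ^ 2) •
          ((((pl (m + h i) - lamz z (m + h i) : ℝ)) : ℂ) * Pool.Agent.H807R2.Dav.ee (m * α))) else 0 := by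
      intro m _
      rw [ha]
      simp only
      split_ifs
      · unfold Df
        rw [Complex.real_smul]
        push_cast
        ring
      · simp
    rw [sum_congr rfl h2, ← sum_filter]
    apply sum_congr _ fun _ _ => rfl
    ext m
    rw [mem_filter, mem_Icc, mem_Ioc]
    constructor
    · exact fun h => h.2
    · intro h; exact ⟨by omega, h⟩)
  have hb2 : ∑ n ∈ Icc 1 (5 * Y), ‖b n‖ ^ 2 ≤ N := by
    have e1 : ∀ n ∈ Icc 1 (5 * Y), ‖b n‖ ^ 2 ≤ 1 := by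
      intro n _
      rw [hb]
      simp only
      split_ifs <;> simp
    refine (sum_le_sum e1).trans ?_
    rw [sum_const, nsmul_eq_mul, mul_one, Nat.card_Icc]
    exact_mod_cast (by omega : 5 * Y + 1 - 1 ≤ N)
  have hsq : √(((5 * Y : ℕ) : ℝ) * ∑ n ∈ Icc 1 (5 * Y), ‖b n‖ ^ 2) ≤ N := by
    rw [Real.sqrt_le_left hN0.le]
    have : ((5 * Y : ℕ) : ℝ) ≤ N := by exact_mod_cast (by omega : 5 * Y ≤ N)
    calc _ ≤ (N : ℝ) * N := mul_le_mul this hb2 (sum_nonneg fun _ _ => by positivity) hN0.le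
      _ = _ := by ring
  have key2 := key.trans (mul_le_mul_of_nonneg_left hsq hη0)
  have hone : ∀ u ∈ range U, ∑ n ∈ Ioc (2 * Y) (4 * Y), |∑ j ∈ M, Df z R h i Λ (n + u - j)| ≤ η * N := by
    intro u hu
    rw [mem_range] at hu
    refine le_trans ?_ key2
    have e1 : ∑ n ∈ Ioc (2 * Y) (4 * Y), |∑ j ∈ M, Df z R h i Λ (n + u - j)| =
        ∑ n' ∈ (Ioc (2 * Y) (4 * Y)).image (fun n => n + u), ‖∑ m ∈ Ico 1 n', b m * a (n' - m)‖ := by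
      rw [sum_image (fun x _ y _ hxy => by simpa using hxy)]
      apply sum_congr rfl
      intro n hn
      rw [mem_Ioc] at hn
      have e2 : ∑ m ∈ Ico 1 (n + u), b m * a (n + u - m) = ((∑ j ∈ M, Df z R h i Λ (n + u - j) : ℝ) : ℂ) := by
        have e3 : ∀ m ∈ Ico 1 (n + u), b m * a (n + u - m) = if m ∈ M then ((Df z R h i Λ (n + u - m) : ℝ) : ℂ) else 0 := by
          intro m _
          rw [hb, ha]
          simp only
          by_cases hm : m ∈ M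
          · have hj := mem_Icc.1 (hM hm)
            rw [if_pos hm, if_pos hm, if_pos, one_mul]
            rw [mem_Ioc]
            omega
          · rw [if_neg hm, if_neg hm, zero_mul]
        rw [sum_congr rfl e3, ← sum_filter]
        push_cast
        apply sum_congr _ fun _ _ => rfl
        ext m
        rw [mem_filter, mem_Ico]
        constructor
        · exact fun h => h.2
        · intro hm
          have hj := mem_Icc.1 (hM hm)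
          exact ⟨by omega, hm⟩
      rw [e2, Complex.norm_real, Real.norm_eq_abs]
    rw [e1]
    apply sum_le_sum_of_subset_of_nonneg
    · intro n' hn'
      rw [mem_image] at hn'
      obtain ⟨n, hn, rfl⟩ := hn'
      rw [mem_Ioc] at hn
      rw [mem_Icc]
      omega
    · intro _ _ _; exact norm_nonneg _
  have hfin : ∑ n ∈ Ioc (2 * Y) (4 * Y), |∑ t ∈ range U ×ˢ M, Df z R h i Λ (n + t.1 - t.2)| ≤
      ∑ u ∈ range U, ∑ n ∈ Ioc (2 * Y) (4 * Y), |∑ j ∈ M, Df z R h i Λ (n + u - j)| := by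
    rw [sum_comm]
    apply sum_le_sum
    intro n _
    rw [sum_product]
    exact abs_sum_le_sum_abs _ _
  refine hfin.trans ((sum_le_sum hone).trans (le_of_eq ?_))
  rw [sum_const, card_range, nsmul_eq_mul, hη]
  ring

end Pool.Agent.L0h42.EG
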