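import Mathlib
import Pool.Agent.L0h42.EG.E8
import Pool.Agent.L0h42.TB.B7

/-! Many primes in short intervals after the differences with an arbitrary set. -/

set_option autoImplicit false
set_option linter.unusedSectionVars false

namespace Pool.Agent.L0h42.EG
open Finset
open Pool.Agent.L0h42.TB
open Pool.Agent.H373R2.T7

lemma aux_sq {x : ℝ} (h : 3 ≤ x) : x + 1 ≤ x ^ 2 := by nlinarith

lemma aux_z {a L z : ℝ} (h1 : z ≤ a + 1) (h2 : 1 ≤ a) (h3 : 8 ≤ L) : z + 1 ≤ a * L := by nlinarith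

lemma aux_sqrt {N : ℝ} (h : 1 ≤ N) : √N ≤ N := by
  rw [Real.sqrt_le_left (by linarith)]
  nlinarith

lemma aux_ratio (J C m : ℝ) (h : J = 288 * C ^ 2 * (320 * (2 * m))) (hC : 1 ≤ C) : 640 * m ≤ (J + 1) / (288 * C ^ 2) := by
  rw [le_div_iff₀ (by positivity), h]
  linarith

set_option maxHeartbeats 4000000 in
open Classical in
/-- **the core.** -/
theorem egen_core (m : ℕ) (hm : 1 ≤ m) : ∃ k : ℕ, 1 ≤ k ∧ ∀ h : Fin k → ℕ, Function.Injective h →
    (∀ p, p.Prime → p ≤ 2 * k → ∀ l, p ∣ h l) → ∀ (A : ℕ) (δ : ℝ), 0 < δ → δ ≤ 1 → ∃ N0 : ℕ, ∀ N : ℕ, N0 ≤ N → ∀ Y U : ℕ,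
    6 * Y ≤ N → N ≤ 12 * Y → Real.log (Real.log (Real.log N)) ^ (2 * k ^ 3 + 1) ≤ U → 1 ≤ U → U ≤ Y →
    ∀ M ⊆ Icc 1 Y, N / Real.log N ^ A ≤ M.card →
    (((Ioc (2 * Y) (4 * Y)).filter (fun n => ∀ u < U, ∀ j ∈ M, np h (n + u - j) < m)).card : ℝ) ≤ δ * Y := by
  obtain ⟨C, hC1, hC⟩ := mertens_up
  obtain ⟨J, hJ⟩ : ∃ J, J = 288 * C ^ 2 * (320 * (2 * m)) := ⟨_, rfl⟩
  obtain ⟨k, hk2⟩ : ∃ k, k = 2 ^ J := ⟨_, rfl⟩
  obtain ⟨W, hW⟩ : ∃ W, W = k + 8 * k * C * (J + 1) := ⟨_, rfl⟩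
  have hk : 1 ≤ k := by rw [hk2]; exact Nat.one_le_two_pow
  have hW1 : 1 ≤ W := by omega
  refine ⟨k, hk, fun h hinj hd A δ hδ hδ1 => ?_⟩
  obtain ⟨A1, hA1⟩ : ∃ A1, A1 = A + (4 * k + 1) + 1 := ⟨_, rfl⟩
  obtain ⟨Bw, hBw⟩ : ∃ Bw, Bw = 3 * k := ⟨_, rfl⟩
  obtain ⟨δ', hδ'⟩ : ∃ δ' : ℝ, δ' = δ / (104 * (k + 2)) := ⟨_, rfl⟩
  have hkr : (1 : ℝ) ≤ k := by exact_mod_cast hk
  have hδ'0 : 0 < δ' := by rw [hδ']; positivity
  have hδ'1 : δ' ≤ 1 := by
    rw [hδ', div_le_one (by positivity)]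
    nlinarith
  obtain ⟨e0, hE0⟩ := variance k A Bw hk h hinj hd
  obtain ⟨e1, hE1⟩ := prime_part k A1 Bw hk
  obtain ⟨E0, hE0d⟩ : ∃ E0, E0 = max e0 e1 + 1 := ⟨_, rfl⟩
  obtain ⟨m0, h0⟩ := hE0 (E0 + 1) δ' hδ'0 hδ'1
  obtain ⟨m1, h1⟩ := hE1 (E0 + 1)
  obtain ⟨m2, h2⟩ := Vz_inv_small (E0 + 1)
  obtain ⟨m3, h3⟩ := ev_log' ((E0 + 1) * (W * 80)) 1
  obtain ⟨m4, h4⟩ := ev_L' (max (2 * C ^ 2 + 8 : ℝ) (max (12 * k * (k + 2) / δ) (∑ l, (h l : ℝ))))
  obtain ⟨m5, h5⟩ := ev_log' (E0 + 1) 28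
  obtain ⟨m6, h6⟩ := V_low_L k (E0 + 1) hk
  refine ⟨max (max (max m0 m1) m2) (max m3 (max m4 (max m5 (max m6 16)))), ?_⟩
  intro N hN Y U hY1 hY2 hU hU1 hUY M hM hMc
  have n0 : m0 ≤ N := le_trans (le_trans (le_trans (le_max_left _ _) (le_max_left _ _)) (le_max_left _ _)) hN
  have n1 : m1 ≤ N := le_trans (le_trans (le_trans (le_max_right _ _) (le_max_left _ _)) (le_max_left _ _)) hN
  have n2 : m2 ≤ N := le_trans (le_trans (le_max_right _ _) (le_max_left _ _)) hN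
  have n3 : m3 ≤ N := le_trans (le_trans (le_max_left _ _) (le_max_right _ _)) hN
  have nn := le_trans (le_max_right m3 _) (le_trans (le_max_right _ _) hN)
  have n4 : m4 ≤ N := le_trans (le_max_left _ _) nn
  have n5 : m5 ≤ N := le_trans (le_trans (le_max_left _ _) (le_max_right _ _)) nn
  have nn' := le_trans (le_max_right m5 _) (le_trans (le_max_right _ _) nn)
  have n6 : m6 ≤ N := le_trans (le_max_left _ _) nn'
  have hN16 : 16 ≤ N := le_trans (le_max_right _ _) nn'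
  have hN0 : (0 : ℝ) < N := by exact_mod_cast (show 0 < N by omega)
  have b3 := h3 N n3
  have b4 := h4 N n4
  have b5 := h5 N n5
  have hvar := h0 N n0
  have hpp := h1 N n1
  have hVz := h2 N n2
  have hVl := h6 N n6
  set L := Real.log N with hL
  have l1 : (2 * C ^ 2 + 8 : ℝ) ≤ L := le_trans (le_max_left _ _) b4
  have l2 : 12 * k * (k + 2) / δ ≤ L := le_trans (le_trans (le_max_left _ _) (le_max_right _ _)) b4
  have l3 : (∑ l, (h l : ℝ)) ≤ L := le_trans (le_trans (le_max_right _ _) (le_max_right _ _)) b4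
  have hmr : (1 : ℝ) ≤ m := by exact_mod_cast hm
  have hCr : (1 : ℝ) ≤ C := by exact_mod_cast hC1
  have hL8 : 8 ≤ L := by
    have hC2 := sq_nonneg (C : ℝ)
    linarith only [hC2, l1]
  have hL1 : 1 ≤ L := by linarith
  have hL0 : 0 < L := by linarith
  have hh : ∀ l, (h l : ℝ) ≤ L := fun l => (single_le_sum (f := fun l => (h l : ℝ)) (fun _ _ => Nat.cast_nonneg _) (mem_univ l)).trans l3
  -- the parameter `z`
  obtain ⟨z, hz⟩ : ∃ z, z = ⌈L ^ E0⌉₊ := ⟨_, rfl⟩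
  have hz1 : L ^ E0 ≤ z := by rw [hz]; exact Nat.le_ceil _
  have hz1' : L ≤ z := (le_self_pow₀ hL1 (by omega)).trans hz1
  have hz2 : (z : ℝ) + 1 ≤ L ^ (E0 + 1) := by
    have g1 := (Nat.ceil_lt_add_one (show 0 ≤ L ^ E0 by positivity)).le
    rw [← hz] at g1
    have g2 : 1 ≤ L ^ E0 := one_le_pow₀ hL1
    rw [pow_succ]
    exact aux_z g1 g2 hL8
  have hz2' : (z : ℝ) ≤ L ^ (E0 + 1) := by linarith
  have hz8 : 8 ≤ z := by
    have : (8 : ℝ) ≤ z := by linarith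
    exact_mod_cast this
  have hze0 : L ^ e0 ≤ z := (pow_le_pow_right₀ hL1 (by have := le_max_left e0 e1; omega)).trans hz1
  have hze1 : L ^ e1 ≤ z := (pow_le_pow_right₀ hL1 (by have := le_max_right e0 e1; omega)).trans hz1
  have hhz : ∀ l, h l ≤ z := fun l => by exact_mod_cast (hh l).trans hz1'
  -- the parameters `x` and `R`
  obtain ⟨x, hx1, hx2, hx3⟩ := root_exists (W * 80) N (by omega) (by omega)
  have hsq : √(N : ℝ) ≤ N := aux_sqrt (by exact_mod_cast (show 1 ≤ N by omega))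
  have hzx : z ≤ x := by
    by_contra hcon
    have g1 : (x + 1) ^ (W * 80) ≤ (z + 1) ^ (W * 80) := Nat.pow_le_pow_left (by omega) _
    have g2 : ((z : ℝ) + 1) ^ (W * 80) ≤ N := by
      calc ((z : ℝ) + 1) ^ (W * 80) ≤ (L ^ (E0 + 1)) ^ (W * 80) := pow_le_pow_left₀ (by positivity) hz2 _
        _ = 1 * L ^ ((E0 + 1) * (W * 80)) := by rw [one_mul, ← pow_mul]
        _ ≤ √N := b3
        _ ≤ N := hsq
    have g3 : (z + 1) ^ (W * 80) ≤ N := by exact_mod_cast g2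
    omega
  have hx3' : 3 ≤ x := by omega
  obtain ⟨R, hRd⟩ : ∃ R, R = x ^ W := ⟨_, rfl⟩
  have hR80 : R ^ 80 ≤ N := by rw [hRd, ← pow_mul]; exact hx2
  have hxR : x ≤ R := by rw [hRd]; exact Nat.le_self_pow (by omega) x
  have hR1 : 1 ≤ R := by omega
  have hR3 : 3 ≤ R := by omega
  have hRr : (1 : ℝ) ≤ R := by exact_mod_cast hR1
  obtain ⟨Λ, w1, w2, w3, w4, w5⟩ := weights_spec C J z R x k W hC1 hC hx3' hzx hk2 hW (by rw [hRd]) (by
    rw [hRd]
    exact Nat.pow_lt_pow_left (Nat.lt_succ_self x) (by omega))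
  have hlR : Real.log R ≤ L := by
    apply Real.log_le_log (by linarith)
    exact_mod_cast (Nat.le_self_pow (by norm_num : (80:ℕ) ≠ 0) R).trans hR80
  have hlR0 : 0 ≤ Real.log R := Real.log_nonneg hRr
  have hΛB : ∀ d ∈ PD (Fin k) z R, |Λ d| ≤ L ^ Bw := by
    intro d hd
    refine (w1 d hd).trans ?_
    rw [hBw, pow_mul]
    have hVR0 : 0 ≤ (Vz R)⁻¹ := (inv_pos.2 (Vz_pos R)).le
    apply pow_le_pow_left₀ (by positivity)
    have g1 := hC R hR3
    have g2 : (Vz R)⁻¹ ≤ C * L := g1.trans (mul_le_mul_of_nonneg_left hlR (by positivity))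
    calc 2 * ((Vz R)⁻¹ * (Vz R)⁻¹) ≤ 2 * ((C * L) * (C * L)) := by gcongr
      _ = (2 * C ^ 2) * L ^ 2 := by ring
      _ ≤ L * L ^ 2 := by
          apply mul_le_mul_of_nonneg_right _ (by positivity)
          linarith
      _ = L ^ 3 := by ring
  have hΛi : ∀ i, ∀ d ∈ PD (Fin k) z R, |Lr Λ i d| ≤ L ^ Bw := fun i d hd' => (Lr_abs Λ i d).trans (hΛB d hd')
  have hsi : ∀ i, ∀ d, Lr Λ i d ≠ 0 → ∏ l, d l ≤ R ∧ d i = 1 := fun i d hd' => ⟨w2 d (Lr_ne Λ i d hd').1, (Lr_ne Λ i d hd').2⟩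
  -- `Y`
  have hYr : (N : ℝ) ≤ 12 * Y := by exact_mod_cast hY2
  have hY0 : (0 : ℝ) < Y := by linarith
  have hzY : z ≤ Y := by
    have g1 : (28 : ℝ) * z ≤ N := by
      calc (28 : ℝ) * z ≤ 28 * L ^ (E0 + 1) := by linarith
        _ ≤ √N := b5
        _ ≤ N := hsq
    have g2 : 28 * z ≤ N := by exact_mod_cast g1
    omega
  have hRY : R ≤ Y := by
    have g1 : R ^ 2 ≤ N := (Nat.pow_le_pow_right hR1 (by norm_num)).trans hR80
    by_contra hcon
    have g2 : Y + 1 ≤ R := by omega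
    have g3 : R ^ 80 = R * R ^ 79 := by ring
    have g4 : 3 ^ 79 ≤ R ^ 79 := Nat.pow_le_pow_left hR3 79
    have g5 : 12 ≤ 3 ^ 79 := by norm_num
    have g6 : R * 12 ≤ R ^ 80 := by rw [g3]; exact Nat.mul_le_mul_left _ (g5.trans g4)
    omega
  have hv := hVz z (by omega) hz2'
  have hv1 : 1 ≤ (Vz z)⁻¹ := (one_le_inv₀ (Vz_pos z)).2 (Vz_le_one z)
  -- the ratio
  have hratio : 4 * m * L * Qf z R Λ ≤ (Vz z)⁻¹ * ∑ i, Qf z R (Lr Λ i) := by
    have g1 : L ≤ 160 * Real.log R := by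
      have g2 : L ≤ Real.log (((x : ℝ) + 1) ^ (W * 80)) := by
        apply Real.log_le_log hN0
        have : ((N : ℕ) : ℝ) < (((x + 1) ^ (W * 80) : ℕ) : ℝ) := by exact_mod_cast hx3
        push_cast at this
        exact this.le
      rw [Real.log_pow] at g2
      have hx3r : (3 : ℝ) ≤ x := by exact_mod_cast hx3'
      have g3 : Real.log ((x : ℝ) + 1) ≤ 2 * Real.log x := by
        have g4 : Real.log ((x : ℝ) + 1) ≤ Real.log ((x : ℝ) ^ 2) := Real.log_le_log (by positivity) (aux_sq hx3r)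
        rw [Real.log_pow] at g4
        push_cast at g4
        exact g4
      have g5 : Real.log R = W * Real.log x := by rw [hRd]; push_cast; rw [Real.log_pow]
      rw [g5]
      calc L ≤ ((W * 80 : ℕ) : ℝ) * Real.log ((x : ℝ) + 1) := g2
        _ ≤ ((W * 80 : ℕ) : ℝ) * (2 * Real.log x) := mul_le_mul_of_nonneg_left g3 (Nat.cast_nonneg _)
        _ = _ := by push_cast; ring
    have g2 : ((J : ℝ) + 1) / (288 * C ^ 2) ≥ 640 * m := aux_ratio J C m (by rw [hJ]; push_cast; ring) hCr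
    have hQ0 : 0 ≤ Qf z R Λ := by linarith
    have hVp := Vz_pos z
    have g3 : (Vz z)⁻¹ * (((J : ℝ) + 1) / (288 * C ^ 2) * (Vz z * Real.log R) * Qf z R Λ) ≤ (Vz z)⁻¹ * ∑ i, Qf z R (Lr Λ i) :=
      mul_le_mul_of_nonneg_left w5 (by linarith)
    refine le_trans ?_ g3
    have g4 : (Vz z)⁻¹ * (((J : ℝ) + 1) / (288 * C ^ 2) * (Vz z * Real.log R) * Qf z R Λ) =
        ((J : ℝ) + 1) / (288 * C ^ 2) * Real.log R * Qf z R Λ := by
      field_simp
    rw [g4]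
    apply mul_le_mul_of_nonneg_right _ hQ0
    calc 4 * (m : ℝ) * L ≤ 4 * m * (160 * Real.log R) := by gcongr
      _ = 640 * m * Real.log R := by ring
      _ ≤ _ := mul_le_mul_of_nonneg_right g2 hlR0
  -- the density
  obtain ⟨V, hV⟩ : ∃ V, V = VV z (cneg h) := ⟨_, rfl⟩
  have hVlow : 1 / L ^ (4 * k + 1) ≤ V := by rw [hV]; exact hVl z (by omega) hz2' h hd
  have hV0 : 0 < V := lt_of_lt_of_le (by positivity) hVlow
  have hU0 : (0 : ℝ) < U := by exact_mod_cast hU1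
  have hMc0 : (0 : ℝ) < M.card := lt_of_lt_of_le (by positivity) hMc
  obtain ⟨μ, hμ⟩ : ∃ μ, μ = U * M.card * V := ⟨_, rfl⟩
  have hμ0 : 0 < μ := by rw [hμ]; positivity
  -- the exceptional sets
  have x0 := hvar z R Y U hze0 hz2' hR1 hR80 hY1 hY2 hU hU1 hUY hhz M hM hMc Λ hΛB w2 w3
  rw [← hV, ← hμ] at x0
  have xi : ∀ i, (((Ioc (2 * Y) (4 * Y)).filter (fun n => μ * Qf z R (Lr Λ i) / 2 < |TT z R U M h (Lr Λ i) n - μ * Qf z R (Lr Λ i)|)).card : ℝ) ≤ 104 * δ' * Y := by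
    intro i
    have := hvar z R Y U hze0 hz2' hR1 hR80 hY1 hY2 hU hU1 hUY hhz M hM hMc (Lr Λ i) (hΛi i) (fun d hd' => (hsi i d hd').1) (w4 i)
    rw [← hV, ← hμ] at this
    exact this
  obtain ⟨Er, hEr⟩ : ∃ Er : ℕ → ℝ, Er = fun n => ∑ i : Fin k, |∑ t ∈ range U ×ˢ M, Df z R h i (Lr Λ i) (n + t.1 - t.2)| := ⟨_, rfl⟩
  have hEr0 : ∀ n ∈ Ioc (2 * Y) (4 * Y), 0 ≤ Er n := fun n _ => by rw [hEr]; exact sum_nonneg fun _ _ => abs_nonneg _
  have hErS : ∑ n ∈ Ioc (2 * Y) (4 * Y), Er n ≤ k * (U * (N ^ 2 / L ^ A1)) := by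
    rw [hEr]
    rw [sum_comm]
    refine (sum_le_sum (fun i _ => hpp z R Y U hze1 hz2' hR1 hR80 hY1 hzY hUY h hinj hhz M hM i (Lr Λ i) (hΛi i) (hsi i))).trans (le_of_eq ?_)
    rw [sum_const, card_univ, Fintype.card_fin, nsmul_eq_mul]
  have xE := markov (Ioc (2 * Y) (4 * Y)) Er hEr0 μ hμ0 _ hErS (fun n => μ ≤ Er n) (fun _ _ h => h)
  have xE' : (k * (U * (N ^ 2 / L ^ A1))) / μ ≤ 104 * δ' * Y := by
    rw [div_le_iff₀ hμ0]
    have q1 : (U : ℝ) * (N / L ^ A) * (1 / L ^ (4 * k + 1)) ≤ μ := by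
      rw [hμ]; gcongr
    have q2 : 104 * δ' * (N / 12) * ((U : ℝ) * (N / L ^ A) * (1 / L ^ (4 * k + 1))) ≤ 104 * δ' * Y * μ := by
      have : (N : ℝ) / 12 ≤ Y := by linarith
      gcongr
    refine le_trans ?_ q2
    rw [hδ']
    have e3 : L ^ A1 = L ^ A * L ^ (4 * k + 1) * L := by rw [hA1]; ring
    have e4 : k * ((U : ℝ) * (N ^ 2 / L ^ A1)) = (12 * k * (k + 2) / δ) / L * (104 * (δ / (104 * (k + 2))) * (N / 12) * ((U : ℝ) * (N / L ^ A) * (1 / L ^ (4 * k + 1)))) := by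
      rw [e3]
      field_simp
    rw [e4]
    have e5 : (12 * k * (k + 2) / δ) / L ≤ 1 := by rw [div_le_one hL0]; exact l2
    calc _ ≤ 1 * (104 * (δ / (104 * (k + 2))) * ((N : ℝ) / 12) * ((U : ℝ) * (N / L ^ A) * (1 / L ^ (4 * k + 1)))) :=
          mul_le_mul_of_nonneg_right e5 (by positivity)
      _ = _ := one_mul _
  -- the bad integers are exceptional
  have hsub : (Ioc (2 * Y) (4 * Y)).filter (fun n => ∀ u < U, ∀ j ∈ M, np h (n + u - j) < m) ⊆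
      (((Ioc (2 * Y) (4 * Y)).filter (fun n => μ * Qf z R Λ / 2 < |TT z R U M h Λ n - μ * Qf z R Λ|)) ∪
        ((Ioc (2 * Y) (4 * Y)).filter (fun n => μ ≤ Er n))) ∪
      univ.biUnion (fun i : Fin k => (Ioc (2 * Y) (4 * Y)).filter (fun n => μ * Qf z R (Lr Λ i) / 2 < |TT z R U M h (Lr Λ i) n - μ * Qf z R (Lr Λ i)|)) := by
    intro n hn
    rw [mem_filter] at hn
    obtain ⟨hnI, hbad⟩ := hn
    rw [mem_union, mem_union, mem_biUnion, mem_filter, mem_filter]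
    by_contra hcon
    push Not at hcon
    obtain ⟨⟨c1, c2⟩, c3⟩ := hcon
    have c1 := c1 hnI
    have c2 := c2 hnI
    have c3' : ∀ i : Fin k, |TT z R U M h (Lr Λ i) n - μ * Qf z R (Lr Λ i)| ≤ μ * Qf z R (Lr Λ i) / 2 := by
      intro i
      have := c3 i (mem_univ i)
      rw [mem_filter] at this
      push Not at this
      exact this hnI
    rw [mem_Ioc] at hnI
    -- the sum is nonpositive
    have p1 : ∑ t ∈ range U ×ˢ M, FF z R h Λ (n + t.1 - t.2) * (∑ i, pl (n + t.1 - t.2 + h i) - (m - 1) * L) ≤ 0 := by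
      apply sum_nonpos
      intro t ht
      rw [mem_product, mem_range] at ht
      have hj := mem_Icc.1 (hM ht.2)
      apply mul_nonpos_of_nonneg_of_nonpos (FF_nonneg _ _ _ _ _)
      have q1 := sum_pl_le h (n + t.1 - t.2) N (by omega) (fun l => by have := hhz l; omega)
      have q2 := hbad t.1 ht.1 t.2 ht.2
      have q3 : (np h (n + t.1 - t.2) : ℝ) ≤ m - 1 := by
        have : np h (n + t.1 - t.2) + 1 ≤ m := q2
        have : ((np h (n + t.1 - t.2) + 1 : ℕ) : ℝ) ≤ m := by exact_mod_cast this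
        push_cast at this
        linarith
      have q4 := mul_le_mul_of_nonneg_right q3 hL0.le
      linarith
    -- the expansion
    have p2 : ∑ t ∈ range U ×ˢ M, FF z R h Λ (n + t.1 - t.2) * (∑ i, pl (n + t.1 - t.2 + h i) - (m - 1) * L) =
        ∑ i : Fin k, (∑ t ∈ range U ×ˢ M, Df z R h i (Lr Λ i) (n + t.1 - t.2) + (Vz z)⁻¹ * TT z R U M h (Lr Λ i) n) -
          (m - 1) * L * TT z R U M h Λ n := by
      have q1 : ∀ t ∈ range U ×ˢ M, FF z R h Λ (n + t.1 - t.2) * (∑ i, pl (n + t.1 - t.2 + h i) - (m - 1) * L) =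
          ∑ i : Fin k, (Df z R h i (Lr Λ i) (n + t.1 - t.2) + (Vz z)⁻¹ * FF z R h (Lr Λ i) (n + t.1 - t.2)) -
            (m - 1) * L * FF z R h Λ (n + t.1 - t.2) := by
        intro t ht
        rw [mem_product, mem_range] at ht
        have hj := mem_Icc.1 (hM ht.2)
        rw [mul_sub, mul_sum]
        congr 1
        · apply sum_congr rfl
          intro i _
          exact Df_eq z R h i Λ (n + t.1 - t.2) (by omega)
        · ring
      rw [sum_congr rfl q1, sum_sub_distrib, sum_comm, ← mul_sum]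
      congr 1
      apply sum_congr rfl
      intro i _
      rw [sum_add_distrib, ← mul_sum]
      rfl
    have hVi : 0 < (Vz z)⁻¹ := by linarith
    -- lower bounds
    have p3 : ∑ i : Fin k, (-|∑ t ∈ range U ×ˢ M, Df z R h i (Lr Λ i) (n + t.1 - t.2)| + (Vz z)⁻¹ * (μ * Qf z R (Lr Λ i) / 2)) ≤
        ∑ i : Fin k, (∑ t ∈ range U ×ˢ M, Df z R h i (Lr Λ i) (n + t.1 - t.2) + (Vz z)⁻¹ * TT z R U M h (Lr Λ i) n) := by
      apply sum_le_sum
      intro i _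
      apply add_le_add
      · exact neg_abs_le _
      · apply mul_le_mul_of_nonneg_left _ hVi.le
        have := (abs_le.1 (c3' i)).1
        linarith
    have p4 : ∑ i : Fin k, (-|∑ t ∈ range U ×ˢ M, Df z R h i (Lr Λ i) (n + t.1 - t.2)| + (Vz z)⁻¹ * (μ * Qf z R (Lr Λ i) / 2)) =
        -Er n + μ / 2 * ((Vz z)⁻¹ * ∑ i, Qf z R (Lr Λ i)) := by
      rw [sum_add_distrib, sum_neg_distrib, hEr, mul_sum, mul_sum]
      congr 1
      apply sum_congr rfl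
      intro i _
      ring
    have p5 : TT z R U M h Λ n ≤ 3 / 2 * (μ * Qf z R Λ) := by
      have := (abs_le.1 c1).2
      linarith
    have p6 := mul_le_mul_of_nonneg_left hratio (show 0 ≤ μ / 2 by positivity)
    have hm1 : (0 : ℝ) ≤ (m - 1) * L := mul_nonneg (by linarith) hL0.le
    have p7 := mul_le_mul_of_nonneg_left p5 hm1
    have hQL : 1 ≤ L * Qf z R Λ := one_le_mul_of_one_le_of_one_le hL1 w3
    have p8 : μ ≤ μ / 2 * (4 * m * L * Qf z R Λ) - (m - 1) * L * (3 / 2 * (μ * Qf z R Λ)) := by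
      have e1 : μ / 2 * (4 * m * L * Qf z R Λ) - (m - 1) * L * (3 / 2 * (μ * Qf z R Λ)) = μ * ((m / 2 + 3 / 2) * (L * Qf z R Λ)) := by ring
      rw [e1]
      apply le_mul_of_one_le_right hμ0.le
      exact one_le_mul_of_one_le_of_one_le (by linarith only [hmr]) hQL
    rw [p2] at p1
    linarith
  calc _ ≤ ((((((Ioc (2 * Y) (4 * Y)).filter (fun n => μ * Qf z R Λ / 2 < |TT z R U M h Λ n - μ * Qf z R Λ|)) ∪
        ((Ioc (2 * Y) (4 * Y)).filter (fun n => μ ≤ Er n))) ∪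
      univ.biUnion (fun i : Fin k => (Ioc (2 * Y) (4 * Y)).filter (fun n => μ * Qf z R (Lr Λ i) / 2 < |TT z R U M h (Lr Λ i) n - μ * Qf z R (Lr Λ i)|))).card : ℕ) : ℝ) := by
        exact_mod_cast card_le_card hsub
    _ ≤ (((Ioc (2 * Y) (4 * Y)).filter (fun n => μ * Qf z R Λ / 2 < |TT z R U M h Λ n - μ * Qf z R Λ|)).card : ℝ) +
        (((Ioc (2 * Y) (4 * Y)).filter (fun n => μ ≤ Er n)).card : ℝ) +
        ∑ i : Fin k, (((Ioc (2 * Y) (4 * Y)).filter (fun n => μ * Qf z R (Lr Λ i) / 2 < |TT z R U M h (Lr Λ i) n - μ * Qf z R (Lr Λ i)|)).card : ℝ) := by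
        exact_mod_cast (card_union_le _ _).trans (add_le_add (card_union_le _ _) card_biUnion_le)
    _ ≤ 104 * δ' * Y + 104 * δ' * Y + ∑ _i : Fin k, 104 * δ' * (Y : ℝ) := by
        apply add_le_add (add_le_add x0 (xE.trans xE'))
        exact sum_le_sum fun i _ => xi i
    _ = 104 * δ' * (k + 2) * Y := by
        rw [sum_const, card_univ, Fintype.card_fin, nsmul_eq_mul]
        ring
    _ = δ * Y := by
        rw [hδ']
        field_simp

end Pool.Agent.L0h42.EG
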