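import Mathlib
import Pool.Agent.L0h42.EG.E9

/-! All integers up to `X`. -/

set_option autoImplicit false
set_option linter.unusedSectionVars false

namespace Pool.Agent.L0h42.EG
open Finset
open Pool.Agent.L0h42.TB
open Pool.Agent.H373R2.T7

/-- from dyadic ranges to initial segments -/
lemma dyadic_sum (P : ℕ → Prop) [DecidablePred P] (δ : ℝ) (hδ : 0 ≤ δ) (Y0 : ℕ)
    (h : ∀ Y, Y0 ≤ Y → (((Ioc (2 * Y) (4 * Y)).filter P).card : ℝ) ≤ δ * Y) :
    ∃ K : ℕ, ∀ X : ℕ, (((Icc 1 X).filter P).card : ℝ) ≤ K + δ * X := by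
  refine ⟨4 * Y0 + 20, fun X => ?_⟩
  induction X using Nat.strong_induction_on with
  | _ X ih =>
    by_cases hX : X ≤ 4 * Y0 + 20
    · have h1 : ((Icc 1 X).filter P).card ≤ X := by
        refine (card_filter_le _ _).trans ?_
        simp
      have h2 : (((Icc 1 X).filter P).card : ℝ) ≤ ((4 * Y0 + 20 : ℕ) : ℝ) := by exact_mod_cast h1.trans hX
      have h3 : 0 ≤ δ * X := by positivity
      linarith
    · push Not at hX
      have h1 := ih (X / 2 + 2) (by omega)
      have h2 := h ((X + 3) / 4) (by omega)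
      have h3 : ((Icc 1 X).filter P).card ≤ ((Icc 1 (X / 2 + 2)).filter P).card + ((Ioc (2 * ((X + 3) / 4)) (4 * ((X + 3) / 4))).filter P).card := by
        refine le_trans (card_le_card ?_) (card_union_le _ _)
        intro n hn
        rw [mem_filter, mem_Icc] at hn
        rw [mem_union, mem_filter, mem_filter, mem_Icc, mem_Ioc]
        by_cases h4 : n ≤ 2 * ((X + 3) / 4)
        · left
          exact ⟨by omega, hn.2⟩
        · right
          exact ⟨by omega, hn.2⟩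
      have h4 : (((Icc 1 X).filter P).card : ℝ) ≤ ((Icc 1 (X / 2 + 2)).filter P).card + ((Ioc (2 * ((X + 3) / 4)) (4 * ((X + 3) / 4))).filter P).card := by
        exact_mod_cast h3
      have h5 : ((X / 2 + 2 : ℕ) : ℝ) + (((X + 3) / 4 : ℕ) : ℝ) ≤ X := by
        exact_mod_cast (by omega : (X / 2 + 2) + (X + 3) / 4 ≤ X)
      have h6 : δ * (((X / 2 + 2 : ℕ) : ℝ) + (((X + 3) / 4 : ℕ) : ℝ)) ≤ δ * X := mul_le_mul_of_nonneg_left h5 hδ
      push_cast at h1 h2 h4 h6 ⊢
      linarith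

/-- iterated logarithms do not change much -/
lemma l3_comp (p : ℕ) : ∃ Y0 : ℕ, ∀ Y : ℕ, Y0 ≤ Y → ∀ n : ℕ, 2 * Y < n →
    (∀ u : ℕ, u < ⌈Real.log (Real.log (Real.log (12 * Y : ℕ))) ^ p⌉₊ → (u : ℝ) ≤ Real.log (Real.log (Real.log n)) ^ (p + 1)) := by
  obtain ⟨n1, h1⟩ := logs_large ((2 : ℝ) ^ p + 1)
  obtain ⟨n2, h2⟩ := sq_log_small
  refine ⟨max (max n1 n2) 16, fun Y hY n hn u hu => ?_⟩
  have hY1 : n1 ≤ Y := le_trans (le_trans (le_max_left _ _) (le_max_left _ _)) hY
  have hY2 : n2 ≤ Y := le_trans (le_trans (le_max_right _ _) (le_max_left _ _)) hY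
  have hY16 : 16 ≤ Y := le_trans (le_max_right _ _) hY
  have a1 := h1 n (by omega)
  have a2 := h2 n (by omega)
  rw [Nat.lt_ceil] at hu
  have hn0 : (32 : ℝ) ≤ n := by exact_mod_cast (by omega : 32 ≤ n)
  have p1 : (1 : ℝ) ≤ 2 ^ p := one_le_pow₀ (by norm_num)
  -- `log n > 1`, `log log n > 1`
  have hL : 1 < Real.log n := by
    rw [Real.lt_log_iff_exp_lt (by linarith)]
    have := Real.exp_one_lt_d9
    linarith
  have hl2 : 0 < Real.log (Real.log n) := Real.log_pos hL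
  have hl2' : 1 ≤ Real.log (Real.log n) := by
    by_contra hcon
    push Not at hcon
    have := Real.log_nonpos hl2.le hcon.le
    linarith
  have g1 : Real.log (12 * Y : ℕ) ≤ 2 * Real.log n := by
    have : ((12 * Y : ℕ) : ℝ) ≤ (n : ℝ) ^ 2 := by
      have : 12 * Y ≤ n ^ 2 := by nlinarith
      exact_mod_cast this
    have h3 := Real.log_le_log (by exact_mod_cast (by omega : 0 < 12 * Y)) this
    rw [Real.log_pow] at h3
    exact_mod_cast h3
  have hy0 : (192 : ℝ) ≤ (12 * Y : ℕ) := by exact_mod_cast (by omega : 192 ≤ 12 * Y)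
  have hLY : 1 < Real.log (12 * Y : ℕ) := by
    rw [Real.lt_log_iff_exp_lt (by linarith)]
    have := Real.exp_one_lt_d9
    linarith
  have g2 : Real.log (Real.log (12 * Y : ℕ)) ≤ 2 * Real.log (Real.log n) := by
    have h3 := Real.log_le_log (by linarith) g1
    rw [Real.log_mul (by norm_num) (by linarith)] at h3
    have := Real.log_two_lt_d9
    linarith
  have hl2Y : 0 < Real.log (Real.log (12 * Y : ℕ)) := Real.log_pos hLY
  have g3 : Real.log (Real.log (Real.log (12 * Y : ℕ))) ≤ 2 * Real.log (Real.log (Real.log n)) := by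
    have h3 := Real.log_le_log hl2Y g2
    rw [Real.log_mul (by norm_num) (by linarith)] at h3
    have := Real.log_two_lt_d9
    linarith
  have g0 : 0 ≤ Real.log (Real.log (Real.log (12 * Y : ℕ))) := by
    apply Real.log_nonneg
    have hn1 : n1 ≤ 12 * Y := by omega
    have a3 := h1 (12 * Y) hn1
    by_contra hcon
    push Not at hcon
    have := Real.log_nonpos hl2Y.le hcon.le
    linarith
  have hl3 : 0 ≤ Real.log (Real.log (Real.log n)) := by linarith
  calc (u : ℝ) ≤ Real.log (Real.log (Real.log (12 * Y : ℕ))) ^ p := hu.le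
    _ ≤ (2 * Real.log (Real.log (Real.log n))) ^ p := pow_le_pow_left₀ g0 g3 p
    _ = 2 ^ p * Real.log (Real.log (Real.log n)) ^ p := by rw [mul_pow]
    _ ≤ Real.log (Real.log (Real.log n)) * Real.log (Real.log (Real.log n)) ^ p := by
        apply mul_le_mul_of_nonneg_right _ (by positivity)
        linarith
    _ = _ := by rw [pow_succ, mul_comm]

open Classical in
/-- **the theorem for initial segments.** -/
theorem egen_all (m : ℕ) (hm : 1 ≤ m) : ∃ k : ℕ, 1 ≤ k ∧ ∀ h : Fin k → ℕ, Function.Injective h →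
    (∀ p, p.Prime → p ≤ 2 * k → ∀ l, p ∣ h l) → ∀ (A : ℕ) (S : ℕ → Prop) (X1 : ℕ),
    (∀ X : ℕ, X1 ≤ X → X / Real.log X ^ A ≤ (((Icc 1 X).filter S).card : ℝ)) → ∀ ε : ℝ, 0 < ε → ∃ X0 : ℕ, ∀ X : ℕ, X0 ≤ X →
    (((Icc 1 X).filter (fun n : ℕ => ¬ ∃ u j : ℕ, (u : ℝ) ≤ Real.log (Real.log (Real.log n)) ^ (2 * k ^ 3 + 2) ∧ 1 ≤ j ∧ 2 * j < n ∧ S j ∧
      m ≤ np h (n + u - j))).card : ℝ) ≤ ε * X := by
  obtain ⟨k, hk, hcore⟩ := egen_core m hm
  refine ⟨k, hk, fun h hinj hd A S X1 hS ε hε => ?_⟩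
  obtain ⟨δ, hδd⟩ : ∃ δ : ℝ, δ = min (ε / 2) 1 := ⟨_, rfl⟩
  have hδ : 0 < δ := by rw [hδd]; exact lt_min (by linarith) one_pos
  have hδ1 : δ ≤ 1 := by rw [hδd]; exact min_le_right _ _
  have hδε : δ ≤ ε / 2 := by rw [hδd]; exact min_le_left _ _
  obtain ⟨N0, h0⟩ := hcore h hinj hd (A + 1) δ hδ hδ1
  obtain ⟨Y1, h1⟩ := l3_comp (2 * k ^ 3 + 1)
  obtain ⟨n2, h2⟩ := ev_L' 12
  obtain ⟨n3, h3⟩ := logs_large 1
  obtain ⟨n4, h4⟩ := ev_log' (2 * k ^ 3 + 1) 24
  obtain ⟨n5, h5⟩ := sq_log_small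
  have hdy : ∀ Y, max (max N0 Y1) (max (max X1 n2) (max n3 (max n4 (max n5 32)))) ≤ Y →
      (((Ioc (2 * Y) (4 * Y)).filter (fun n : ℕ => ¬ ∃ u j : ℕ, (u : ℝ) ≤ Real.log (Real.log (Real.log n)) ^ (2 * k ^ 3 + 2) ∧ 1 ≤ j ∧ 2 * j < n ∧ S j ∧
      m ≤ np h (n + u - j))).card : ℝ) ≤ δ * Y := by
    intro Y hY
    have hN0 : N0 ≤ Y := le_trans (le_trans (le_max_left _ _) (le_max_left _ _)) hY
    have hY1 : Y1 ≤ Y := le_trans (le_trans (le_max_right _ _) (le_max_left _ _)) hY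
    have hh := le_trans (le_max_right _ _) hY
    have hX1 : X1 ≤ Y := le_trans (le_trans (le_max_left _ _) (le_max_left _ _)) hh
    have hn2 : n2 ≤ Y := le_trans (le_trans (le_max_right _ _) (le_max_left _ _)) hh
    have hh' := le_trans (le_max_right _ _) hh
    have hn3 : n3 ≤ Y := le_trans (le_max_left _ _) hh'
    have hn4 : n4 ≤ Y := le_trans (le_trans (le_max_left _ _) (le_max_right _ _)) hh'
    have hn5 : n5 ≤ Y := le_trans (le_trans (le_max_left _ _) (le_trans (le_max_right _ _) (le_max_right _ _))) hh'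
    have h32 : 32 ≤ Y := le_trans (le_trans (le_max_right _ _) (le_trans (le_max_right _ _) (le_max_right _ _))) hh'
    obtain ⟨N, hN⟩ : ∃ N, N = 12 * Y := ⟨_, rfl⟩
    have a2 := h2 N (by omega)
    have a3 := h3 N (by omega)
    have a4 := h4 N (by omega)
    have a5 := h5 N (by omega)
    have hYr : (32 : ℝ) ≤ Y := by exact_mod_cast h32
    have hN' : (N : ℝ) = 12 * Y := by rw [hN]; push_cast; ring
    have hlogN : 12 ≤ Real.log N := a2
    have hl2 : 0 < Real.log (Real.log N) := Real.log_pos (by linarith)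
    have hl2' : 1 ≤ Real.log (Real.log N) := by
      by_contra hcon
      push Not at hcon
      have := Real.log_nonpos hl2.le hcon.le
      linarith
    have hl32 : Real.log (Real.log (Real.log N)) ≤ Real.log (Real.log N) := by
      have := Real.log_le_sub_one_of_pos hl2
      linarith
    have hl21 : Real.log (Real.log N) ≤ Real.log N := by
      have := Real.log_le_sub_one_of_pos (show 0 < Real.log N by linarith)
      linarith
    obtain ⟨U, hU⟩ : ∃ U, U = ⌈Real.log (Real.log (Real.log N)) ^ (2 * k ^ 3 + 1)⌉₊ := ⟨_, rfl⟩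
    have hU0 : Real.log (Real.log (Real.log N)) ^ (2 * k ^ 3 + 1) ≤ U := by rw [hU]; exact Nat.le_ceil _
    have hp1 : 1 ≤ Real.log (Real.log (Real.log N)) ^ (2 * k ^ 3 + 1) := one_le_pow₀ a3
    have hU1 : 1 ≤ U := by
      have : (1 : ℝ) ≤ U := by linarith
      exact_mod_cast this
    have hUY : U ≤ Y := by
      have q1 : (U : ℝ) ≤ Real.log (Real.log (Real.log N)) ^ (2 * k ^ 3 + 1) + 1 := by
        rw [hU]; exact (Nat.ceil_lt_add_one (by positivity)).le
      have q2 : Real.log (Real.log (Real.log N)) ^ (2 * k ^ 3 + 1) ≤ Real.log N ^ (2 * k ^ 3 + 1) :=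
        pow_le_pow_left₀ (by linarith) (hl32.trans hl21) _
      have q3 : √(N : ℝ) ≤ N := by
        rw [Real.sqrt_le_left (Nat.cast_nonneg _)]
        rw [hN']
        nlinarith
      have q4 : (1 : ℝ) ≤ Real.log N ^ (2 * k ^ 3 + 1) := one_le_pow₀ (by linarith)
      have q5 : (12 : ℝ) * U ≤ N := by linarith
      have : (U : ℝ) ≤ Y := by
        rw [hN'] at q5
        linarith
      exact_mod_cast this
    have hMc : (N : ℝ) / Real.log N ^ (A + 1) ≤ (((Icc 1 Y).filter S).card : ℝ) := by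
      refine le_trans ?_ (hS Y hX1)
      have hlY : 0 < Real.log Y := Real.log_pos (by linarith)
      have hlYN : Real.log Y ≤ Real.log N := by
        apply Real.log_le_log (by linarith)
        rw [hN']; linarith
      rw [div_le_div_iff₀ (by positivity) (by positivity)]
      have q1 : Real.log Y ^ A ≤ Real.log N ^ A := pow_le_pow_left₀ hlY.le hlYN A
      calc (N : ℝ) * Real.log Y ^ A = Y * (12 * Real.log Y ^ A) := by rw [hN']; ring
        _ ≤ Y * (Real.log N * Real.log N ^ A) := by gcongr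
        _ = Y * Real.log N ^ (A + 1) := by ring
    have key := h0 N (by omega) Y U (by omega) (by omega) hU0 hU1 hUY ((Icc 1 Y).filter S) (filter_subset _ _) hMc
    refine le_trans (Nat.cast_le.2 (card_le_card ?_)) key
    intro n hn
    rw [mem_filter, mem_Ioc] at hn
    rw [mem_filter, mem_Ioc]
    refine ⟨hn.1, fun u hu j hj => ?_⟩
    rw [mem_filter, mem_Icc] at hj
    by_contra hcon
    push Not at hcon
    apply hn.2
    refine ⟨u, j, h1 Y hY1 n hn.1.1 u ?_, hj.1.1, by omega, hj.2, hcon⟩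
    rw [← hN, ← hU]
    exact hu
  obtain ⟨K, hK⟩ := dyadic_sum _ δ hδ.le _ hdy
  refine ⟨⌈2 * K / ε⌉₊, fun X hX => ?_⟩
  refine (hK X).trans ?_
  have q1 : 2 * (K : ℝ) / ε ≤ X := (Nat.le_ceil _).trans (by exact_mod_cast hX)
  rw [div_le_iff₀ hε] at q1
  have q2 : δ * (X : ℝ) ≤ ε / 2 * X := mul_le_mul_of_nonneg_right hδε (Nat.cast_nonneg _)
  linarith

end Pool.Agent.L0h42.EG
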