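import Mathlib
import Pool.Agent.L0h42.EG.E8
import Pool.Agent.L0h42.EG.E10

/-! One form: windows of length a multiple of `log log log n`. -/

set_option autoImplicit false
set_option linter.unusedSectionVars false

namespace Pool.Agent.L0h42.EG
open Finset
open Pool.Agent.L0h42.TB
open Pool.Agent.H373R2.T7

/-- one form -/
def ho : Fin 1 → ℕ := fun _ => 0

lemma nu_ho (p : ℕ) (hp : p.Prime) : nu (cneg ho) p = 1 := by
  classical
  have : NeZero p := ⟨hp.ne_zero⟩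
  rw [nu_eq]
  simp [cneg, ho]

open Classical in
lemma factor_up1 (s : ℤ) (u : ℕ) (x : ℤ) (p : ℕ) (hp : p.Prime) :
    1 - (nu (c2 ho s ((u : ℤ) + x)) p : ℝ) / p ≤ (1 - (nu (cneg ho) p : ℝ) / p) ^ 2 * (1 + 1 / ((p : ℝ) - 1) * (if Som (cd ho (x - s)) p u then 1 else 0)) := by
  have : NeZero p := ⟨hp.ne_zero⟩
  have hp0 : (0 : ℝ) < p := by exact_mod_cast hp.pos
  have hp2 : (2 : ℝ) ≤ p := by exact_mod_cast hp.two_le
  have hp1 : (0 : ℝ) < (p : ℝ) - 1 := by linarith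
  by_cases hc : Som (cd ho (x - s)) p u
  · rw [if_pos hc, mul_one, nu_ho p hp]
    have h1 : (1 : ℝ) / p ≤ (nu (c2 ho s ((u : ℤ) + x)) p : ℝ) / p := by
      apply div_le_div_of_nonneg_right _ hp0.le
      have := nu_c2_ge ho s ((u : ℤ) + x) p
      rw [nu_ho p hp] at this
      exact_mod_cast this
    have h2 : (1 - ((1 : ℕ) : ℝ) / p) ^ 2 * (1 + 1 / ((p : ℝ) - 1)) = 1 - 1 / p := by
      push_cast
      field_simp
      ring
    rw [h2]
    linarith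
  · rw [if_neg hc, mul_zero, add_zero, mul_one, nu_c2_eq ho s u x p hc, nu_ho p hp]
    push_cast
    have : (1 - 1 / (p : ℝ)) ^ 2 = 1 - 2 * 1 / p + (1 / p) ^ 2 := by ring
    rw [this]
    have := sq_nonneg (1 / (p : ℝ))
    linarith

lemma tele (w y : ℕ) (hw : 1 ≤ w) (hwy : w ≤ y) : ∑ n ∈ Ioc w y, 1 / ((n : ℝ) * ((n : ℝ) - 1)) ≤ 1 / w := by
  have h : ∀ y, w ≤ y → ∑ n ∈ Ioc w y, 1 / ((n : ℝ) * ((n : ℝ) - 1)) = 1 / w - 1 / y := by
    intro y hy
    induction y, hy using Nat.le_induction with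
    | base => simp
    | succ y hy ih =>
      have e : Ioc w (y + 1) = insert (y + 1) (Ioc w y) := by
        ext n; rw [mem_insert, mem_Ioc, mem_Ioc]; omega
      rw [e, sum_insert (by rw [mem_Ioc]; omega), ih]
      have hy0 : (0 : ℝ) < y := by exact_mod_cast (by omega : 0 < y)
      have hw0 : (0 : ℝ) < w := by exact_mod_cast (by omega : 0 < w)
      push_cast
      have e2 : ((y : ℝ) + 1) - 1 = y := by ring
      rw [e2]
      field_simp
      ring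
  rw [h y hwy]
  have : (0 : ℝ) ≤ 1 / y := by positivity
  linarith

open Classical in
/-- the mean of the factors of the medium primes -/
lemma mid_sum1 (w y0 U : ℕ) (hw : 1 ≤ w) (hwy : w ≤ y0) (x : ℤ) :
    ∑ u ∈ range U, ∏ p ∈ pz y0 \ pz w, (1 + 1 / ((p : ℝ) - 1) * (if Som (cd ho x) p u then 1 else 0)) ≤
      U * Real.exp (1 / w) + (Vz y0)⁻¹ := by
  have hpp : ∀ p ∈ pz y0 \ pz w, p.Prime ∧ w < p ∧ p ≤ y0 := by
    intro p hp
    rw [mem_sdiff, mem_pz, mem_pz] at hp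
    refine ⟨hp.1.2, ?_, hp.1.1⟩
    by_contra h9
    exact hp.2 ⟨by omega, hp.1.2⟩
  have hp1 : ∀ p ∈ pz y0 \ pz w, (0 : ℝ) < (p : ℝ) - 1 := by
    intro p hp
    have : (2 : ℝ) ≤ p := by exact_mod_cast (hpp p hp).1.two_le
    linarith
  have h1 : ∀ u ∈ range U, ∏ p ∈ pz y0 \ pz w, (1 + 1 / ((p : ℝ) - 1) * (if Som (cd ho x) p u then 1 else 0)) =
      ∑ S ∈ (pz y0 \ pz w).powerset, (∏ p ∈ S, (1 / ((p : ℝ) - 1))) * (if ∀ p ∈ S, Som (cd ho x) p u then 1 else 0) := by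
    intro u _
    rw [prod_one_add]
    apply sum_congr rfl
    intro S _
    rw [prod_mul_distrib, prod_ite_zero]
    simp
  rw [sum_congr rfl h1, sum_comm]
  have h2 : ∀ S ∈ (pz y0 \ pz w).powerset, ∑ u ∈ range U, (∏ p ∈ S, (1 / ((p : ℝ) - 1))) * (if ∀ p ∈ S, Som (cd ho x) p u then 1 else 0) ≤
      U * ∏ p ∈ S, (1 / ((p : ℝ) * ((p : ℝ) - 1))) + ∏ p ∈ S, (1 / ((p : ℝ) - 1)) := by
    intro S hS
    rw [mem_powerset] at hS
    rw [← mul_sum, ← sum_filter, sum_const, nsmul_eq_mul, mul_one]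
    have h3 := som_count' y0 U ho x S (hS.trans sdiff_subset)
    have h4 : (0 : ℝ) ≤ ∏ p ∈ S, (1 / ((p : ℝ) - 1)) := prod_nonneg fun p hp => by
      have := hp1 p (hS hp)
      positivity
    refine (mul_le_mul_of_nonneg_left h3 h4).trans (le_of_eq ?_)
    rw [mul_add, ← prod_mul_distrib]
    have e1 : (∏ p ∈ S, (1 / ((p : ℝ) - 1))) * (U * ∏ p ∈ S, (((1 : ℕ) : ℝ) ^ 2 / p)) = U * ∏ p ∈ S, ((1 / ((p : ℝ) - 1)) * (((1 : ℕ) : ℝ) ^ 2 / p)) := by
      rw [prod_mul_distrib]; ring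
    rw [e1]
    congr 1
    · congr 1
      apply prod_congr rfl
      intro p hp
      push_cast
      rw [one_pow, div_mul_div_comm, one_mul, mul_comm]
    · apply prod_congr rfl
      intro p _
      push_cast
      ring
  refine (sum_le_sum h2).trans ?_
  rw [sum_add_distrib, ← mul_sum, ← prod_one_add, ← prod_one_add]
  apply add_le_add
  · apply mul_le_mul_of_nonneg_left _ (Nat.cast_nonneg _)
    have h5 : ∏ p ∈ pz y0 \ pz w, (1 + 1 / ((p : ℝ) * ((p : ℝ) - 1))) ≤ ∏ p ∈ pz y0 \ pz w, Real.exp (1 / ((p : ℝ) * ((p : ℝ) - 1))) := by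
      apply prod_le_prod
      · intro p hp
        have := hp1 p hp
        positivity
      · intro p _
        have := Real.add_one_le_exp (1 / ((p : ℝ) * ((p : ℝ) - 1)))
        linarith
    refine h5.trans ?_
    rw [← Real.exp_sum]
    apply Real.exp_le_exp.2
    refine le_trans ?_ (tele w y0 hw hwy)
    apply sum_le_sum_of_subset_of_nonneg
    · intro p hp
      have := hpp p hp
      rw [mem_Ioc]
      omega
    · intro n hn _
      rw [mem_Ioc] at hn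
      have : (1 : ℝ) < n := by exact_mod_cast (by omega : 1 < n)
      have : (0 : ℝ) < (n : ℝ) - 1 := by linarith
      positivity
  · have h6 : (Vz y0)⁻¹ = ∏ p ∈ pz y0, (1 + 1 / ((p : ℝ) - 1)) := by
      unfold Vz
      rw [← prod_inv_distrib]
      apply prod_congr rfl
      intro p hp
      have hp2 : (2 : ℝ) ≤ p := by exact_mod_cast (mem_pz.1 hp).2.two_le
      have : (0 : ℝ) < (p : ℝ) - 1 := by linarith
      have : (0 : ℝ) < (p : ℝ) := by linarith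
      have h9 : (1 : ℝ) - 1 / p = (p - 1) / p := by field_simp
      rw [h9, inv_div]
      field_simp
      ring
    have h7 : ∏ p ∈ pz y0, (1 + 1 / ((p : ℝ) - 1)) =
        (∏ p ∈ pz y0 \ pz w, (1 + 1 / ((p : ℝ) - 1))) * ∏ p ∈ pz w, (1 + 1 / ((p : ℝ) - 1)) :=
      (prod_sdiff (pz_mono hwy)).symm
    rw [h6, h7]
    apply le_mul_of_one_le_right (prod_nonneg fun p hp => by
      have := hp1 p hp
      positivity)
    have h8 : ∏ p ∈ pz w, (1 : ℝ) ≤ ∏ p ∈ pz w, (1 + 1 / ((p : ℝ) - 1)) := by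
      apply prod_le_prod (fun _ _ => zero_le_one)
      intro p hp
      have hp2 : (2 : ℝ) ≤ p := by exact_mod_cast (mem_pz.1 hp).2.two_le
      have : (0 : ℝ) < (p : ℝ) - 1 := by linarith
      have : (0 : ℝ) ≤ 1 / ((p : ℝ) - 1) := by positivity
      linarith
    rwa [prod_const_one] at h8

open Classical in
/-- the average of the singular factor, one form. -/
theorem sing_avg1 (w y0 z U v : ℕ) (hw1 : 1 ≤ w) (hwy : w ≤ y0) (hyz : y0 ≤ z) (s x : ℤ) :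
    ∑ u ∈ (range U).filter (fun u => ((pz z \ pz y0).filter (fun p => Som (cd ho (x - s)) p u)).card < v), VV z (c2 ho s ((u : ℤ) + x)) ≤
      (∏ p ∈ pz z \ pz w, (1 - (nu (cneg ho) p : ℝ) / p)) ^ 2 * (Real.exp (2 * (1 : ℕ) * v / y0) *
        ((U + (∏ p ∈ pz w, p : ℕ)) * VV w (cneg ho) ^ 2 + U * (Real.exp (1 / w) - 1) + (Vz y0)⁻¹)) := by
  obtain ⟨G, hG⟩ : ∃ G, G = ∏ p ∈ pz z \ pz w, (1 - (nu (cneg ho) p : ℝ) / p) := ⟨_, rfl⟩
  rw [← hG]
  have hy0 : (0 : ℝ) < y0 := by exact_mod_cast (by omega : 0 < y0)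
  have hprime : ∀ p ∈ pz z \ pz w, p.Prime ∧ w < p := by
    intro p hp
    rw [mem_sdiff, mem_pz, mem_pz] at hp
    refine ⟨hp.1.2, ?_⟩
    by_contra h9
    exact hp.2 ⟨by omega, hp.1.2⟩
  have hp1 : ∀ p : ℕ, p.Prime → (0 : ℝ) < (p : ℝ) - 1 := by
    intro p hp
    have : (2 : ℝ) ≤ p := by exact_mod_cast hp.two_le
    linarith
  obtain ⟨F, hF⟩ : ∃ F : ℕ → ℝ, F = fun u => ∏ p ∈ pz y0 \ pz w, (1 + 1 / ((p : ℝ) - 1) * (if Som (cd ho (x - s)) p u then 1 else 0)) := ⟨_, rfl⟩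
  have hF1 : ∀ u, 1 ≤ F u := by
    intro u
    rw [hF]
    have h7 : ∏ p ∈ pz y0 \ pz w, (1 : ℝ) ≤ ∏ p ∈ pz y0 \ pz w, (1 + 1 / ((p : ℝ) - 1) * (if Som (cd ho (x - s)) p u then 1 else 0)) := by
      apply prod_le_prod (fun _ _ => zero_le_one)
      intro p hp
      have := hp1 p (mem_pz.1 (mem_sdiff.1 hp).1).2
      have : (0 : ℝ) ≤ 1 / ((p : ℝ) - 1) * (if Som (cd ho (x - s)) p u then 1 else 0) := by
        apply mul_nonneg (by positivity)
        split_ifs <;> norm_num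
      linarith
    rwa [prod_const_one] at h7
  have hpt : ∀ u ∈ (range U).filter (fun u => ((pz z \ pz y0).filter (fun p => Som (cd ho (x - s)) p u)).card < v),
      VV z (c2 ho s ((u : ℤ) + x)) ≤ G ^ 2 * Real.exp (2 * (1 : ℕ) * v / y0) * (VV w (c2 ho s ((u : ℤ) + x)) + (F u - 1)) := by
    intro u hu
    rw [mem_filter] at hu
    rw [VV_split w z (hwy.trans hyz)]
    have h1 : ∏ p ∈ pz z \ pz w, (1 - (nu (c2 ho s ((u : ℤ) + x)) p : ℝ) / p) ≤
        ∏ p ∈ pz z \ pz w, ((1 - (nu (cneg ho) p : ℝ) / p) ^ 2 * (1 + 1 / ((p : ℝ) - 1) * (if Som (cd ho (x - s)) p u then 1 else 0))) := by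
      apply prod_le_prod
      · intro p hp
        have hp0 : (0 : ℝ) < p := by exact_mod_cast (hprime p hp).1.pos
        have : (nu (c2 ho s ((u : ℤ) + x)) p : ℝ) / p ≤ 1 := by
          rw [div_le_one hp0]
          exact_mod_cast nu_le_self _ p
        linarith
      · intro p hp
        exact factor_up1 s u x p (hprime p hp).1
    rw [prod_mul_distrib, prod_pow, ← hG] at h1
    have h2 : ∏ p ∈ pz z \ pz w, (1 + 1 / ((p : ℝ) - 1) * (if Som (cd ho (x - s)) p u then 1 else 0)) =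
        (∏ p ∈ pz z \ pz y0, (1 + 1 / ((p : ℝ) - 1) * (if Som (cd ho (x - s)) p u then 1 else 0))) * F u := by
      rw [hF]
      have hd : Disjoint (pz z \ pz y0) (pz y0 \ pz w) := by
        rw [disjoint_left]
        intro p hp hq
        rw [mem_sdiff] at hp hq
        exact hp.2 hq.1
      have hun : pz z \ pz w = (pz z \ pz y0) ∪ (pz y0 \ pz w) := by
        ext p
        simp only [mem_sdiff, mem_union, mem_pz]
        constructor
        · rintro ⟨⟨h1, h2⟩, h3⟩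
          by_cases h4 : p ≤ y0
          · exact Or.inr ⟨⟨h4, h2⟩, h3⟩
          · exact Or.inl ⟨⟨h1, h2⟩, fun h5 => h4 h5.1⟩
        · rintro (⟨⟨h1, h2⟩, h3⟩ | ⟨⟨h1, h2⟩, h3⟩)
          · exact ⟨⟨h1, h2⟩, fun h5 => h3 ⟨by omega, h2⟩⟩
          · exact ⟨⟨by omega, h2⟩, h3⟩
      rw [hun, prod_union hd]
    have h3 : ∏ p ∈ pz z \ pz y0, (1 + 1 / ((p : ℝ) - 1) * (if Som (cd ho (x - s)) p u then 1 else 0)) ≤ Real.exp (2 * (1 : ℕ) * v / y0) := by
      have e1 : ∏ p ∈ pz z \ pz y0, (1 + 1 / ((p : ℝ) - 1) * (if Som (cd ho (x - s)) p u then 1 else 0)) =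
          ∏ p ∈ (pz z \ pz y0).filter (fun p => Som (cd ho (x - s)) p u), (1 + 1 / ((p : ℝ) - 1)) := by
        rw [prod_filter]
        apply prod_congr rfl
        intro p _
        split_ifs <;> simp
      rw [e1]
      calc ∏ p ∈ (pz z \ pz y0).filter (fun p => Som (cd ho (x - s)) p u), (1 + 1 / ((p : ℝ) - 1)) ≤
            ∏ p ∈ (pz z \ pz y0).filter (fun p => Som (cd ho (x - s)) p u), Real.exp (2 / y0) := by
            apply prod_le_prod
            · intro p hp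
              rw [mem_filter, mem_sdiff, mem_pz] at hp
              have := hp1 p hp.1.1.2
              positivity
            · intro p hp
              rw [mem_filter, mem_sdiff, mem_pz, mem_pz] at hp
              have hpy : (y0 : ℝ) + 1 ≤ p := by
                have : y0 + 1 ≤ p := by
                  by_contra h9
                  exact hp.1.2 ⟨by omega, hp.1.1.2⟩
                exact_mod_cast this
              have h4 := Real.add_one_le_exp ((2 : ℝ) / y0)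
              have h5 : (1 : ℝ) / ((p : ℝ) - 1) ≤ 1 / y0 := div_le_div_of_nonneg_left (by norm_num) hy0 (by linarith)
              have h6 : (1 : ℝ) / y0 ≤ 2 / y0 := div_le_div_of_nonneg_right (by norm_num) hy0.le
              linarith
        _ = Real.exp (2 / y0) ^ ((pz z \ pz y0).filter (fun p => Som (cd ho (x - s)) p u)).card := by rw [prod_const]
        _ ≤ Real.exp (2 / y0) ^ v := by
            apply pow_le_pow_right₀ _ hu.2.le
            have : (0 : ℝ) ≤ 2 / y0 := by positivity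
            exact Real.one_le_exp this
        _ = _ := by rw [← Real.exp_nat_mul]; congr 1; push_cast; ring
    have hV0 := VV_nonneg w (c2 ho s ((u : ℤ) + x))
    have hV1 := VV_le_one w (c2 ho s ((u : ℤ) + x))
    have hG0 : 0 ≤ G ^ 2 := sq_nonneg G
    calc _ ≤ (G ^ 2 * (Real.exp (2 * (1 : ℕ) * v / y0) * F u)) * VV w (c2 ho s ((u : ℤ) + x)) := by
          apply mul_le_mul_of_nonneg_right _ hV0
          refine h1.trans ?_
          rw [h2]
          apply mul_le_mul_of_nonneg_left _ hG0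
          exact mul_le_mul_of_nonneg_right h3 (by linarith [hF1 u])
      _ = G ^ 2 * Real.exp (2 * (1 : ℕ) * v / y0) * (VV w (c2 ho s ((u : ℤ) + x)) + (F u - 1) * VV w (c2 ho s ((u : ℤ) + x))) := by ring
      _ ≤ _ := by
          apply mul_le_mul_of_nonneg_left _ (by positivity)
          have : (F u - 1) * VV w (c2 ho s ((u : ℤ) + x)) ≤ (F u - 1) * 1 := mul_le_mul_of_nonneg_left hV1 (by linarith [hF1 u])
          linarith
  have hA := avg_small w U ho s x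
  have hB := mid_sum1 w y0 U hw1 hwy (x - s)
  have hGe : 0 ≤ G ^ 2 * Real.exp (2 * (1 : ℕ) * v / y0) := by positivity
  calc _ ≤ ∑ u ∈ (range U).filter (fun u => ((pz z \ pz y0).filter (fun p => Som (cd ho (x - s)) p u)).card < v),
        G ^ 2 * Real.exp (2 * (1 : ℕ) * v / y0) * (VV w (c2 ho s ((u : ℤ) + x)) + (F u - 1)) := sum_le_sum hpt
    _ ≤ ∑ u ∈ range U, G ^ 2 * Real.exp (2 * (1 : ℕ) * v / y0) * (VV w (c2 ho s ((u : ℤ) + x)) + (F u - 1)) := by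
        apply sum_le_sum_of_subset_of_nonneg (filter_subset _ _)
        intro u _ _
        have := VV_nonneg w (c2 ho s ((u : ℤ) + x))
        have := hF1 u
        apply mul_nonneg hGe
        linarith
    _ = G ^ 2 * Real.exp (2 * (1 : ℕ) * v / y0) * (∑ u ∈ range U, VV w (c2 ho s ((u : ℤ) + x)) + (∑ u ∈ range U, F u - U)) := by
        rw [← mul_sum, sum_add_distrib, sum_sub_distrib]
        simp
    _ ≤ G ^ 2 * Real.exp (2 * (1 : ℕ) * v / y0) * ((U + (∏ p ∈ pz w, p : ℕ)) * VV w (cneg ho) ^ 2 +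
        (U * Real.exp (1 / w) + (Vz y0)⁻¹ - U)) := by
        apply mul_le_mul_of_nonneg_left _ hGe
        rw [hF]
        linarith
    _ = _ := by ring

/-- the choice of `y0` -/
lemma y0_gen (k w C1 : ℕ) (δ c : ℝ) (hδ : 0 < δ) : ∃ N0 : ℕ, ∀ N : ℕ, N0 ≤ N → c ≤ Real.log (Real.log (Real.log N)) ∧
    ∀ z v : ℕ, Real.log N ≤ z → (v : ℝ) ≤ C1 * Real.log (Real.log N) →
    ∃ y0 : ℕ, 3 ≤ y0 ∧ w ≤ y0 ∧ y0 ≤ z ∧ Real.exp (2 * k * v / y0) ≤ 1 + δ ∧ Real.log y0 ≤ 3 * Real.log (Real.log (Real.log N)) := by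
  obtain ⟨n1, h1⟩ := logs_large (max (max c 2) (max (max w 3) (2 * k * C1 / Real.log (1 + δ))))
  obtain ⟨n2, h2⟩ := sq_log_small
  obtain ⟨n3, h3⟩ := ev_L' 2
  refine ⟨max (max n1 n2) n3, ?_⟩
  intro N hN
  have a1 := h1 N (le_trans (le_trans (le_max_left _ _) (le_max_left _ _)) hN)
  have a2 := h2 N (le_trans (le_trans (le_max_right _ _) (le_max_left _ _)) hN)
  have a3 := h3 N (le_trans (le_max_right _ _) hN)
  refine ⟨le_trans (le_trans (le_max_left _ _) (le_max_left _ _)) a1, ?_⟩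
  intro z v hz hv
  obtain ⟨l3, hl3⟩ : ∃ l3, l3 = Real.log (Real.log (Real.log N)) := ⟨_, rfl⟩
  obtain ⟨l2, hl2⟩ : ∃ l2, l2 = Real.log (Real.log N) := ⟨_, rfl⟩
  rw [← hl3] at a1 ⊢
  rw [← hl2] at a2 hv
  have b2 : (2 : ℝ) ≤ l3 := le_trans (le_trans (le_max_right _ _) (le_max_left _ _)) a1
  have b3 : (w : ℝ) ≤ l3 := le_trans (le_trans (le_max_left _ _) (le_trans (le_max_left _ _) (le_max_right _ _))) a1
  have b4 : 2 * (k : ℝ) * C1 / Real.log (1 + δ) ≤ l3 := le_trans (le_trans (le_max_right _ _) (le_max_right _ _)) a1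
  have c1 : l3 = Real.log l2 := by rw [hl3, hl2]
  have hl : 0 < l2 := by rw [hl2]; exact Real.log_pos (by linarith)
  have c2 : l3 ≤ l2 := by
    rw [c1]
    have := Real.log_le_sub_one_of_pos hl
    linarith
  have c3 : 2 ≤ l2 := by linarith
  refine ⟨⌈l2 ^ 2⌉₊, ?_, ?_, ?_, ?_, ?_⟩
  · have : (3 : ℝ) ≤ (⌈l2 ^ 2⌉₊ : ℝ) := by
      refine le_trans ?_ (Nat.le_ceil _)
      nlinarith
    exact_mod_cast this
  · have : (w : ℝ) ≤ (⌈l2 ^ 2⌉₊ : ℝ) := by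
      refine le_trans ?_ (Nat.le_ceil _)
      nlinarith
    exact_mod_cast this
  · have := (Nat.ceil_lt_add_one (show 0 ≤ l2 ^ 2 by positivity)).le
    have h3 : ((⌈l2 ^ 2⌉₊ : ℕ) : ℝ) ≤ z := by linarith
    exact_mod_cast h3
  · have h3 : l2 ^ 2 ≤ (⌈l2 ^ 2⌉₊ : ℝ) := Nat.le_ceil _
    have h4 : 2 * (k : ℝ) * v / (⌈l2 ^ 2⌉₊ : ℝ) ≤ Real.log (1 + δ) := by
      have hlog : 0 < Real.log (1 + δ) := Real.log_pos (by linarith)
      rw [div_le_iff₀ (by positivity)]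
      rw [div_le_iff₀ hlog] at b4
      calc 2 * (k : ℝ) * v ≤ 2 * k * (C1 * l2) := by gcongr
        _ = (2 * k * C1) * l2 := by ring
        _ ≤ (l3 * Real.log (1 + δ)) * l2 := mul_le_mul_of_nonneg_right b4 (by linarith)
        _ ≤ (l2 * Real.log (1 + δ)) * l2 := by gcongr
        _ = Real.log (1 + δ) * l2 ^ 2 := by ring
        _ ≤ _ := mul_le_mul_of_nonneg_left h3 hlog.le
    calc Real.exp (2 * k * v / (⌈l2 ^ 2⌉₊ : ℝ)) ≤ Real.exp (Real.log (1 + δ)) := Real.exp_le_exp.2 h4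
      _ = 1 + δ := Real.exp_log (by linarith)
  · have h5 : (⌈l2 ^ 2⌉₊ : ℝ) ≤ l2 ^ 3 := by
      have := (Nat.ceil_lt_add_one (show 0 ≤ l2 ^ 2 by positivity)).le
      nlinarith [sq_nonneg l2]
    have h6 := Real.log_le_log (by
      have : (0 : ℝ) < l2 ^ 2 := by positivity
      linarith [Nat.le_ceil (l2 ^ 2)]) h5
    rw [Real.log_pow, ← c1] at h6
    push_cast at h6
    exact h6

lemma w_choice1 (δ : ℝ) (hδ : 0 < δ) : ∃ w : ℕ, 1 ≤ w ∧ Real.exp (1 / w) - 1 ≤ δ * VV w (cneg ho) ^ 2 := by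
  obtain ⟨w, h1, h2, h3⟩ := w_choice (k := 1) le_rfl ho (fun _ _ _ _ => dvd_zero _) δ hδ
  refine ⟨w, h1, le_trans ?_ h3⟩
  have hw0 : (0 : ℝ) < w := by exact_mod_cast (by omega : 0 < w)
  have : Real.exp (1 / w) ≤ Real.exp (2 * ((1 : ℕ) : ℝ) ^ 3 / w) := by
    apply Real.exp_le_exp.2
    apply div_le_div_of_nonneg_right _ hw0.le
    norm_num
  linarith

open Classical in
/-- the sum of the singular factor, one form. -/
theorem sing_total1 (δ : ℝ) (hδ : 0 < δ) (hδ1 : δ ≤ 1) : ∃ K : ℕ, ∀ (A E : ℕ),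
    ∃ N0 : ℕ, ∀ N : ℕ, N0 ≤ N → ∀ z Y U : ℕ, Real.log N ≤ z → (z : ℝ) ≤ Real.log N ^ E → 6 * Y ≤ N →
    K * Real.log (Real.log (Real.log N)) ≤ U → U ≤ Y → ∀ M ⊆ Icc 1 Y, N / Real.log N ^ A ≤ M.card →
    ∑ t ∈ (range U ×ˢ M) ×ˢ (range U ×ˢ M), VV z (c2 ho ((t.1.1 : ℤ) - t.1.2) ((t.2.1 : ℤ) - t.2.2)) ≤
      (1 + 12 * δ) * (U * M.card) ^ 2 * VV z (cneg ho) ^ 2 := by
  have hd : ∀ p, p.Prime → p ≤ 2 * 1 → ∀ l, p ∣ ho l := fun _ _ _ _ => dvd_zero _
  obtain ⟨w, hw1, hw3⟩ := w_choice1 δ hδ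
  obtain ⟨C, hC1, hC⟩ := mertens_up
  have hVw : 0 < VV w (cneg ho) ^ 2 := pow_pos (V_pos le_rfl w ho hd) 2
  obtain ⟨K, hK⟩ : ∃ K : ℕ, K = ⌈3 * C / (δ * VV w (cneg ho) ^ 2)⌉₊ + 1 := ⟨_, rfl⟩
  refine ⟨K, fun A E => ?_⟩
  obtain ⟨C1, m0, h0⟩ := total_gen 1 le_rfl ho hd A E δ hδ
  obtain ⟨m1, h1⟩ := y0_gen 1 w C1 δ (max 1 ((∏ p ∈ pz w, p : ℕ) / δ)) hδ
  refine ⟨max m0 m1, ?_⟩
  intro N hN z Y U hz1 hz2 hY hU hUY M hM hMc
  obtain ⟨v, hvC, hfin⟩ := h0 N (le_trans (le_max_left _ _) hN) z Y U hz1 hz2 hY hUY M hM hMc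
  obtain ⟨hl3, hy⟩ := h1 N (le_trans (le_max_right _ _) hN)
  obtain ⟨y0, hy3, hy1, hy2, hye, hyl⟩ := hy z v hz1 hvC
  obtain ⟨l3, hl3d⟩ : ∃ l3, l3 = Real.log (Real.log (Real.log N)) := ⟨_, rfl⟩
  rw [← hl3d] at hl3 hyl hU
  have hl1 : 1 ≤ l3 := le_trans (le_max_left _ _) hl3
  have hl2 : ((∏ p ∈ pz w, p : ℕ) : ℝ) / δ ≤ l3 := le_trans (le_max_right _ _) hl3
  have hK1 : (1 : ℝ) ≤ K := by rw [hK]; push_cast; linarith [Nat.cast_nonneg (α := ℝ) ⌈3 * C / (δ * VV w (cneg ho) ^ 2)⌉₊]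
  have hK2 : 3 * C / (δ * VV w (cneg ho) ^ 2) ≤ (K : ℝ) := by
    rw [hK]; push_cast
    linarith [Nat.le_ceil (3 * C / (δ * VV w (cneg ho) ^ 2))]
  have hU0 : (0 : ℝ) ≤ U := Nat.cast_nonneg _
  have hUl : l3 ≤ U := by nlinarith
  apply hfin y0
  intro s x
  refine (sing_avg1 w y0 z U v hw1 hy1 hy2 s x).trans ?_
  obtain ⟨V, hV⟩ : ∃ V, V = VV z (cneg ho) := ⟨_, rfl⟩
  rw [← hV]
  obtain ⟨G, hG⟩ : ∃ G, G = ∏ p ∈ pz z \ pz w, (1 - (nu (cneg ho) p : ℝ) / p) := ⟨_, rfl⟩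
  obtain ⟨Vw, hVwd⟩ : ∃ Vw, Vw = VV w (cneg ho) := ⟨_, rfl⟩
  have hs := VV_split w z (hy1.trans hy2) (cneg ho)
  rw [← hG, ← hV, ← hVwd] at hs
  rw [← hG, ← hVwd]
  rw [← hVwd] at hK2 hw3 hVw
  rw [hs]
  have g1 : (U + ((∏ p ∈ pz w, p : ℕ) : ℝ)) * Vw ^ 2 + U * (Real.exp (1 / w) - 1) + (Vz y0)⁻¹ ≤
      (1 + 3 * δ) * (U * Vw ^ 2) := by
    have g2 : ((∏ p ∈ pz w, p : ℕ) : ℝ) * Vw ^ 2 ≤ δ * U * Vw ^ 2 := by
      apply mul_le_mul_of_nonneg_right _ hVw.le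
      rw [div_le_iff₀ hδ] at hl2
      calc _ ≤ l3 * δ := hl2
        _ ≤ U * δ := mul_le_mul_of_nonneg_right hUl hδ.le
        _ = _ := mul_comm _ _
    have g3 : U * (Real.exp (1 / w) - 1) ≤ U * (δ * Vw ^ 2) := mul_le_mul_of_nonneg_left hw3 hU0
    have g4 : (Vz y0)⁻¹ ≤ δ * (U * Vw ^ 2) := by
      refine (hC y0 hy3).trans ?_
      rw [div_le_iff₀ (by positivity)] at hK2
      calc C * Real.log y0 ≤ C * (3 * l3) := mul_le_mul_of_nonneg_left hyl (Nat.cast_nonneg _)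
        _ = (3 * C) * l3 := by ring
        _ ≤ (K * (δ * Vw ^ 2)) * l3 := mul_le_mul_of_nonneg_right hK2 (by linarith)
        _ = (K * l3) * (δ * Vw ^ 2) := by ring
        _ ≤ U * (δ * Vw ^ 2) := mul_le_mul_of_nonneg_right hU (by positivity)
        _ = _ := by ring
    nlinarith
  calc G ^ 2 * (Real.exp (2 * (1 : ℕ) * v / y0) * ((U + ((∏ p ∈ pz w, p : ℕ) : ℝ)) * Vw ^ 2 + U * (Real.exp (1 / w) - 1) + (Vz y0)⁻¹)) ≤
      G ^ 2 * (Real.exp (2 * (1 : ℕ) * v / y0) * ((1 + 3 * δ) * (U * Vw ^ 2))) := by gcongr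
    _ ≤ G ^ 2 * ((1 + δ) * ((1 + 3 * δ) * (U * Vw ^ 2))) := by gcongr
    _ = ((1 + δ) * (1 + 3 * δ)) * (U * (G * Vw) ^ 2) := by ring
    _ ≤ (1 + 7 * δ) * (U * (G * Vw) ^ 2) := by
        apply mul_le_mul_of_nonneg_right _ (by positivity)
        nlinarith
    _ = _ := by ring

end Pool.Agent.L0h42.EG
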