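import Mathlib
import Pool.Agent.L0h42.EG.E11

/-! One form: primes after the differences with an arbitrary set, in windows of length a multiple of `log log log n`. -/

set_option autoImplicit false
set_option linter.unusedSectionVars false

namespace Pool.Agent.L0h42.EG
open Finset
open Pool.Agent.L0h42.TB
open Pool.Agent.H373R2.T7

/-- the trivial weights -/
noncomputable def Λo (d : Fin 1 → ℕ) : ℝ := if d = (fun _ => 1) then 1 else 0

lemma Lr_o (i : Fin 1) : Lr Λo i = Λo := by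
  funext d
  unfold Lr
  split_ifs with h
  · rfl
  · unfold Λo
    rw [if_neg]
    intro h2
    exact h (by rw [h2])

lemma Qf_o (z R : ℕ) (hR : 1 ≤ R) : Qf z R Λo = 1 := by
  unfold Qf
  have h1 := one_mem_PD (k := 1) (z := z) hR
  rw [sum_eq_single (fun _ => 1 : Fin 1 → ℕ), sum_eq_single (fun _ => 1 : Fin 1 → ℕ)]
  · unfold Λo
    simp
  · intro e _ he
    unfold Λo
    rw [if_neg he, mul_zero, zero_mul]
  · exact fun h => absurd h1 h
  · intro d _ hd
    apply sum_eq_zero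
    intro e _
    unfold Λo
    rw [if_neg hd, zero_mul, zero_mul]
  · exact fun h => absurd h1 h

open Classical in
/-- **the core, one form.** -/
theorem core1 (δ : ℝ) (hδ : 0 < δ) (hδ1 : δ ≤ 1) : ∃ K : ℕ, ∀ A : ℕ, ∃ N0 : ℕ, ∀ N : ℕ, N0 ≤ N → ∀ Y U : ℕ,
    6 * Y ≤ N → N ≤ 12 * Y → K * Real.log (Real.log (Real.log N)) ≤ U → 1 ≤ U → U ≤ Y →
    ∀ M ⊆ Icc 1 Y, N / Real.log N ^ A ≤ M.card →
    (((Ioc (2 * Y) (4 * Y)).filter (fun n => ∀ u < U, ∀ j ∈ M, ¬ (n + u - j).Prime)).card : ℝ) ≤ δ * Y := by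
  obtain ⟨δ', hδ'⟩ : ∃ δ' : ℝ, δ' = δ / 208 := ⟨_, rfl⟩
  have hδ'0 : 0 < δ' := by rw [hδ']; positivity
  have hδ'1 : δ' ≤ 1 := by rw [hδ']; linarith
  obtain ⟨K, hK⟩ := sing_total1 δ' hδ'0 hδ'1
  refine ⟨K, fun A => ?_⟩
  have hd : ∀ p, p.Prime → p ≤ 2 * 1 → ∀ l, p ∣ ho l := fun _ _ _ _ => dvd_zero _
  have hinj : Function.Injective ho := fun a b _ => Subsingleton.elim a b
  obtain ⟨A1, hA1⟩ : ∃ A1, A1 = A + (4 * 1 + 1) + 1 := ⟨_, rfl⟩
  obtain ⟨e0, hE0⟩ := variance_gen 1 A 0 le_rfl ho hinj hd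
  obtain ⟨e1, hE1⟩ := prime_part 1 A1 0 le_rfl
  obtain ⟨E0, hE0d⟩ : ∃ E0, E0 = max e0 e1 + 1 := ⟨_, rfl⟩
  obtain ⟨m0, h0⟩ := hE0 (E0 + 1) δ' hδ'0 hδ'1
  obtain ⟨m1, h1⟩ := hE1 (E0 + 1)
  obtain ⟨m2, h2⟩ := hK A (E0 + 1)
  obtain ⟨m4, h4⟩ := ev_L' (max 8 (48 / δ))
  obtain ⟨m5, h5⟩ := ev_log' (E0 + 1) 28
  obtain ⟨m6, h6⟩ := V_low_L 1 (E0 + 1) le_rfl
  refine ⟨max (max (max m0 m1) m2) (max m4 (max m5 (max m6 16))), ?_⟩
  intro N hN Y U hY1 hY2 hU hU1 hUY M hM hMc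
  have n0 : m0 ≤ N := le_trans (le_trans (le_trans (le_max_left _ _) (le_max_left _ _)) (le_max_left _ _)) hN
  have n1 : m1 ≤ N := le_trans (le_trans (le_trans (le_max_right _ _) (le_max_left _ _)) (le_max_left _ _)) hN
  have n2 : m2 ≤ N := le_trans (le_trans (le_max_right _ _) (le_max_left _ _)) hN
  have nn := le_trans (le_max_right _ _) hN
  have n4 : m4 ≤ N := le_trans (le_max_left _ _) nn
  have n5 : m5 ≤ N := le_trans (le_trans (le_max_left _ _) (le_max_right _ _)) nn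
  have nn' := le_trans (le_max_right m5 _) (le_trans (le_max_right _ _) nn)
  have n6 : m6 ≤ N := le_trans (le_max_left _ _) nn'
  have hN16 : 16 ≤ N := le_trans (le_max_right _ _) nn'
  have hN0 : (0 : ℝ) < N := by exact_mod_cast (show 0 < N by omega)
  have b4 := h4 N n4
  have b5 := h5 N n5
  have hvar := h0 N n0
  have hpp := h1 N n1
  have hst := h2 N n2
  have hVl := h6 N n6
  set L := Real.log N with hL
  have hL8 : 8 ≤ L := le_trans (le_max_left _ _) b4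
  have l2 : 48 / δ ≤ L := le_trans (le_max_right _ _) b4
  have hL1 : 1 ≤ L := by linarith
  have hL0 : 0 < L := by linarith
  -- the parameter `z`
  obtain ⟨z, hz⟩ : ∃ z, z = ⌈L ^ E0⌉₊ := ⟨_, rfl⟩
  have hz1 : L ^ E0 ≤ z := by rw [hz]; exact Nat.le_ceil _
  have hz1' : L ≤ z := (le_self_pow₀ hL1 (by omega)).trans hz1
  have hz2 : (z : ℝ) + 1 ≤ L ^ (E0 + 1) := by
    have g1 := (Nat.ceil_lt_add_one (show 0 ≤ L ^ E0 by positivity)).le
    rw [← hz] at g1
    have g2 : 1 ≤ L ^ E0 := one_le_pow₀ hL1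
    rw [pow_succ]
    nlinarith
  have hz2' : (z : ℝ) ≤ L ^ (E0 + 1) := by linarith
  have hze0 : L ^ e0 ≤ z := (pow_le_pow_right₀ hL1 (by have := le_max_left e0 e1; omega)).trans hz1
  have hze1 : L ^ e1 ≤ z := (pow_le_pow_right₀ hL1 (by have := le_max_right e0 e1; omega)).trans hz1
  have hhz : ∀ l, ho l ≤ z := fun l => Nat.zero_le _
  have hz8 : 8 ≤ z := by
    have : (8 : ℝ) ≤ z := by linarith
    exact_mod_cast this
  have hsq : √(N : ℝ) ≤ N := by
    rw [Real.sqrt_le_left (by positivity)]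
    have : (1 : ℝ) ≤ N := by exact_mod_cast (show 1 ≤ N by omega)
    nlinarith
  have hYr : (N : ℝ) ≤ 12 * Y := by exact_mod_cast hY2
  have hY0 : (0 : ℝ) < Y := by linarith
  have hzY : z ≤ Y := by
    have g1 : (28 : ℝ) * z ≤ N := by
      calc (28 : ℝ) * z ≤ 28 * L ^ (E0 + 1) := by linarith
        _ ≤ √N := b5
        _ ≤ N := hsq
    have g2 : 28 * z ≤ N := by exact_mod_cast g1
    omega
  have hY2' : 2 ≤ Y := by omega
  have hΛ : ∀ d ∈ PD (Fin 1) z 1, |Λo d| ≤ L ^ 0 := by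
    intro d _
    unfold Λo
    split_ifs <;> simp
  have hs : ∀ d, Λo d ≠ 0 → ∏ l, d l ≤ 1 := by
    intro d hd'
    unfold Λo at hd'
    by_cases h9 : d = fun _ => 1
    · rw [h9]; simp
    · rw [if_neg h9] at hd'
      exact absurd rfl hd'
  have hsi : ∀ d, Λo d ≠ 0 → ∏ l, d l ≤ 1 ∧ d 0 = 1 := by
    intro d hd'
    refine ⟨hs d hd', ?_⟩
    unfold Λo at hd'
    by_cases h9 : d = fun _ => 1
    · rw [h9]
    · rw [if_neg h9] at hd'
      exact absurd rfl hd'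
  have hQ : Qf z 1 Λo = 1 := Qf_o z 1 le_rfl
  have hv1 : 1 ≤ (Vz z)⁻¹ := (one_le_inv₀ (Vz_pos z)).2 (Vz_le_one z)
  -- the density
  obtain ⟨V, hV⟩ : ∃ V, V = VV z (cneg ho) := ⟨_, rfl⟩
  have hVlow : 1 / L ^ (4 * 1 + 1) ≤ V := by rw [hV]; exact hVl z (by omega) hz2' ho hd
  have hV0 : 0 < V := lt_of_lt_of_le (by positivity) hVlow
  have hU0 : (0 : ℝ) < U := by exact_mod_cast hU1
  have hMc0 : (0 : ℝ) < M.card := lt_of_lt_of_le (by positivity) hMc
  obtain ⟨μ, hμ⟩ : ∃ μ, μ = U * M.card * V := ⟨_, rfl⟩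
  have hμ0 : 0 < μ := by rw [hμ]; positivity
  -- the exceptional sets
  have x0 := hvar z 1 Y U hze0 hz2' le_rfl (by rw [one_pow]; omega) hY1 hY2 hU1 hUY hhz M hM hMc
    (fun hzL => hst z Y U hzL hz2' hY1 hU hUY M hM hMc) Λo hΛ hs (by rw [hQ])
  rw [← hV, ← hμ, hQ, mul_one] at x0
  obtain ⟨Er, hEr⟩ : ∃ Er : ℕ → ℝ, Er = fun n => |∑ t ∈ range U ×ˢ M, Df z 1 ho 0 Λo (n + t.1 - t.2)| := ⟨_, rfl⟩
  have hEr0 : ∀ n ∈ Ioc (2 * Y) (4 * Y), 0 ≤ Er n := fun n _ => by rw [hEr]; exact abs_nonneg _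
  have hErS : ∑ n ∈ Ioc (2 * Y) (4 * Y), Er n ≤ U * (N ^ 2 / L ^ A1) := by
    rw [hEr]
    exact hpp z 1 Y U hze1 hz2' le_rfl (by rw [one_pow]; omega) hY1 hzY hUY ho hinj hhz M hM 0 Λo hΛ hsi
  have xE := markov (Ioc (2 * Y) (4 * Y)) Er hEr0 (μ / 2) (by positivity) _ hErS (fun n => μ / 2 ≤ Er n) (fun _ _ h => h)
  have xE' : (U * (N ^ 2 / L ^ A1)) / (μ / 2) ≤ 104 * δ' * Y := by
    rw [div_le_iff₀ (by positivity)]
    have q1 : (U : ℝ) * (N / L ^ A) * (1 / L ^ (4 * 1 + 1)) ≤ μ := by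
      rw [hμ]; gcongr
    have q2 : 104 * δ' * (N / 12) * ((U : ℝ) * (N / L ^ A) * (1 / L ^ (4 * 1 + 1)) / 2) ≤ 104 * δ' * Y * (μ / 2) := by
      have : (N : ℝ) / 12 ≤ Y := by linarith
      gcongr
    refine le_trans ?_ q2
    rw [hδ']
    have e3 : L ^ A1 = L ^ A * L ^ (4 * 1 + 1) * L := by rw [hA1]; ring
    have e4 : ((U : ℝ) * (N ^ 2 / L ^ A1)) = (48 / δ) / L * (104 * (δ / 208) * (N / 12) * ((U : ℝ) * (N / L ^ A) * (1 / L ^ (4 * 1 + 1)) / 2)) := by
      rw [e3]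
      field_simp
      ring
    rw [e4]
    have e5 : (48 / δ) / L ≤ 1 := by rw [div_le_one hL0]; exact l2
    calc _ ≤ 1 * (104 * (δ / 208) * ((N : ℝ) / 12) * ((U : ℝ) * (N / L ^ A) * (1 / L ^ (4 * 1 + 1)) / 2)) :=
          mul_le_mul_of_nonneg_right e5 (by positivity)
      _ = _ := one_mul _
  -- the bad integers are exceptional
  have hsub : (Ioc (2 * Y) (4 * Y)).filter (fun n => ∀ u < U, ∀ j ∈ M, ¬ (n + u - j).Prime) ⊆
      (((Ioc (2 * Y) (4 * Y)).filter (fun n => μ / 2 < |TT z 1 U M ho Λo n - μ|)) ∪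
        ((Ioc (2 * Y) (4 * Y)).filter (fun n => μ / 2 ≤ Er n))) := by
    intro n hn
    rw [mem_filter] at hn
    obtain ⟨hnI, hbad⟩ := hn
    rw [mem_union, mem_filter, mem_filter]
    by_contra hcon
    push Not at hcon
    obtain ⟨c1, c2⟩ := hcon
    have c1 := c1 hnI
    have c2 := c2 hnI
    rw [mem_Ioc] at hnI
    have p2 : 0 = ∑ t ∈ range U ×ˢ M, Df z 1 ho 0 Λo (n + t.1 - t.2) + (Vz z)⁻¹ * TT z 1 U M ho Λo n := by
      unfold TT
      rw [mul_sum, ← sum_add_distrib]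
      symm
      apply sum_eq_zero
      intro t ht
      rw [mem_product, mem_range] at ht
      have hj := mem_Icc.1 (hM ht.2)
      have q1 := Df_eq z 1 ho 0 Λo (n + t.1 - t.2) (by omega)
      rw [Lr_o] at q1
      rw [← q1]
      have q2 : pl (n + t.1 - t.2 + ho 0) = 0 := by
        unfold pl
        rw [if_neg]
        exact hbad t.1 ht.1 t.2 ht.2
      rw [q2, mul_zero]
    have p3 : μ / 2 ≤ TT z 1 U M ho Λo n := by
      have := (abs_le.1 c1).1
      linarith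
    have p4 : μ / 2 ≤ (Vz z)⁻¹ * TT z 1 U M ho Λo n := by
      calc μ / 2 = 1 * (μ / 2) := by ring
        _ ≤ (Vz z)⁻¹ * TT z 1 U M ho Λo n := mul_le_mul hv1 p3 (by positivity) (by linarith)
    rw [hEr] at c2
    have p5 := neg_abs_le (∑ t ∈ range U ×ˢ M, Df z 1 ho 0 Λo (n + t.1 - t.2))
    simp only at c2
    linarith
  calc _ ≤ (((((Ioc (2 * Y) (4 * Y)).filter (fun n => μ / 2 < |TT z 1 U M ho Λo n - μ|)) ∪
        ((Ioc (2 * Y) (4 * Y)).filter (fun n => μ / 2 ≤ Er n))).card : ℕ) : ℝ) := by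
        exact_mod_cast card_le_card hsub
    _ ≤ (((Ioc (2 * Y) (4 * Y)).filter (fun n => μ / 2 < |TT z 1 U M ho Λo n - μ|)).card : ℝ) +
        (((Ioc (2 * Y) (4 * Y)).filter (fun n => μ / 2 ≤ Er n)).card : ℝ) := by
        exact_mod_cast (card_union_le _ _)
    _ ≤ 104 * δ' * Y + 104 * δ' * Y := add_le_add x0 (xE.trans xE')
    _ = δ * Y := by rw [hδ']; ring

/-- iterated logarithms do not change much -/
lemma l3_comp1 (K : ℕ) : ∃ Y0 : ℕ, ∀ Y : ℕ, Y0 ≤ Y → ∀ n : ℕ, 2 * Y < n →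
    (∀ u : ℕ, u < ⌈K * Real.log (Real.log (Real.log (12 * Y : ℕ)))⌉₊ → (u : ℝ) ≤ 2 * K * Real.log (Real.log (Real.log n))) := by
  obtain ⟨Y0, h0⟩ := l3_comp 1
  obtain ⟨n1, h1⟩ := logs_large 1
  refine ⟨max (max Y0 n1) 16, fun Y hY n hn u hu => ?_⟩
  have hY16 : 16 ≤ Y := le_trans (le_max_right _ _) hY
  have a1 := h1 n (by have := le_trans (le_trans (le_max_right Y0 n1) (le_max_left _ _)) hY; omega)
  rw [Nat.lt_ceil] at hu
  have hn0 : (32 : ℝ) ≤ n := by exact_mod_cast (by omega : 32 ≤ n)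
  have hL : 1 < Real.log n := by
    rw [Real.lt_log_iff_exp_lt (by linarith)]
    have := Real.exp_one_lt_d9
    linarith
  have hl2 : 0 < Real.log (Real.log n) := Real.log_pos hL
  have hl2' : 1 ≤ Real.log (Real.log n) := by
    by_contra hcon
    push Not at hcon
    have := Real.log_nonpos hl2.le hcon.le
    linarith
  have g1 : Real.log (12 * Y : ℕ) ≤ 2 * Real.log n := by
    have : ((12 * Y : ℕ) : ℝ) ≤ (n : ℝ) ^ 2 := by
      have : 12 * Y ≤ n ^ 2 := by nlinarith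
      exact_mod_cast this
    have h3 := Real.log_le_log (by exact_mod_cast (by omega : 0 < 12 * Y)) this
    rw [Real.log_pow] at h3
    exact_mod_cast h3
  have hy0 : (192 : ℝ) ≤ (12 * Y : ℕ) := by exact_mod_cast (by omega : 192 ≤ 12 * Y)
  have hLY : 1 < Real.log (12 * Y : ℕ) := by
    rw [Real.lt_log_iff_exp_lt (by linarith)]
    have := Real.exp_one_lt_d9
    linarith
  have g2 : Real.log (Real.log (12 * Y : ℕ)) ≤ 2 * Real.log (Real.log n) := by
    have h3 := Real.log_le_log (by linarith) g1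
    rw [Real.log_mul (by norm_num) (by linarith)] at h3
    have := Real.log_two_lt_d9
    linarith
  have hl2Y : 0 < Real.log (Real.log (12 * Y : ℕ)) := Real.log_pos hLY
  have g3 : Real.log (Real.log (Real.log (12 * Y : ℕ))) ≤ 2 * Real.log (Real.log (Real.log n)) := by
    have h3 := Real.log_le_log hl2Y g2
    rw [Real.log_mul (by norm_num) (by linarith)] at h3
    have := Real.log_two_lt_d9
    linarith
  calc (u : ℝ) ≤ K * Real.log (Real.log (Real.log (12 * Y : ℕ))) := hu.le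
    _ ≤ K * (2 * Real.log (Real.log (Real.log n))) := mul_le_mul_of_nonneg_left g3 (Nat.cast_nonneg _)
    _ = _ := by ring

open Classical in
/-- **the theorem for initial segments, one form.** -/
theorem one_all (ε : ℝ) (hε : 0 < ε) : ∃ K : ℕ, ∀ (A : ℕ) (S : ℕ → Prop) (X1 : ℕ),
    (∀ X : ℕ, X1 ≤ X → X / Real.log X ^ A ≤ (((Icc 1 X).filter S).card : ℝ)) → ∃ X0 : ℕ, ∀ X : ℕ, X0 ≤ X →
    (((Icc 1 X).filter (fun n : ℕ => ¬ ∃ u j : ℕ, (u : ℝ) ≤ K * Real.log (Real.log (Real.log n)) ∧ 1 ≤ j ∧ 2 * j < n ∧ S j ∧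
      (n + u - j).Prime)).card : ℝ) ≤ ε * X := by
  obtain ⟨δ, hδd⟩ : ∃ δ : ℝ, δ = min (ε / 2) 1 := ⟨_, rfl⟩
  have hδ : 0 < δ := by rw [hδd]; exact lt_min (by linarith) one_pos
  have hδ1 : δ ≤ 1 := by rw [hδd]; exact min_le_right _ _
  have hδε : δ ≤ ε / 2 := by rw [hδd]; exact min_le_left _ _
  obtain ⟨K, hcore⟩ := core1 δ hδ hδ1
  refine ⟨2 * (K + 1), fun A S X1 hS => ?_⟩
  obtain ⟨N0, h0⟩ := hcore (A + 1)
  obtain ⟨Y1, h1⟩ := l3_comp1 (K + 1)
  obtain ⟨n2, h2⟩ := ev_L' 12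
  obtain ⟨n3, h3⟩ := logs_large 1
  obtain ⟨n4, h4⟩ := ev_log' 1 (24 * (K + 1))
  have hdy : ∀ Y, max (max N0 Y1) (max (max X1 n2) (max n3 (max n4 32))) ≤ Y →
      (((Ioc (2 * Y) (4 * Y)).filter (fun n : ℕ => ¬ ∃ u j : ℕ, (u : ℝ) ≤ ((2 * (K + 1) : ℕ) : ℝ) * Real.log (Real.log (Real.log n)) ∧ 1 ≤ j ∧ 2 * j < n ∧ S j ∧
      (n + u - j).Prime)).card : ℝ) ≤ δ * Y := by
    intro Y hY
    have hN0 : N0 ≤ Y := le_trans (le_trans (le_max_left _ _) (le_max_left _ _)) hY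
    have hY1 : Y1 ≤ Y := le_trans (le_trans (le_max_right _ _) (le_max_left _ _)) hY
    have hh := le_trans (le_max_right _ _) hY
    have hX1 : X1 ≤ Y := le_trans (le_trans (le_max_left _ _) (le_max_left _ _)) hh
    have hn2 : n2 ≤ Y := le_trans (le_trans (le_max_right _ _) (le_max_left _ _)) hh
    have hh' := le_trans (le_max_right _ _) hh
    have hn3 : n3 ≤ Y := le_trans (le_max_left _ _) hh'
    have hn4 : n4 ≤ Y := le_trans (le_trans (le_max_left _ _) (le_max_right _ _)) hh'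
    have h32 : 32 ≤ Y := le_trans (le_trans (le_max_right _ _) (le_max_right _ _)) hh'
    obtain ⟨N, hN⟩ : ∃ N, N = 12 * Y := ⟨_, rfl⟩
    have a2 := h2 N (by omega)
    have a3 := h3 N (by omega)
    have a4 := h4 N (by omega)
    have hYr : (32 : ℝ) ≤ Y := by exact_mod_cast h32
    have hN' : (N : ℝ) = 12 * Y := by rw [hN]; push_cast; ring
    have hlogN : 12 ≤ Real.log N := a2
    have hl2 : 0 < Real.log (Real.log N) := Real.log_pos (by linarith)
    have hl32 : Real.log (Real.log (Real.log N)) ≤ Real.log (Real.log N) := by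
      have := Real.log_le_sub_one_of_pos hl2
      linarith
    have hl21 : Real.log (Real.log N) ≤ Real.log N := by
      have := Real.log_le_sub_one_of_pos (show 0 < Real.log N by linarith)
      linarith
    obtain ⟨U, hU⟩ : ∃ U, U = ⌈((K + 1 : ℕ) : ℝ) * Real.log (Real.log (Real.log N))⌉₊ := ⟨_, rfl⟩
    have hK0 : (0 : ℝ) ≤ K := Nat.cast_nonneg _
    have hU0 : K * Real.log (Real.log (Real.log N)) ≤ U := by
      refine le_trans ?_ (show ((K + 1 : ℕ) : ℝ) * Real.log (Real.log (Real.log N)) ≤ U by rw [hU]; exact Nat.le_ceil _)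
      push_cast
      nlinarith
    have hU1 : 1 ≤ U := by
      have h9 : ((K + 1 : ℕ) : ℝ) * Real.log (Real.log (Real.log N)) ≤ U := by rw [hU]; exact Nat.le_ceil _
      push_cast at h9
      have : (1 : ℝ) ≤ U := by nlinarith
      exact_mod_cast this
    have hUY : U ≤ Y := by
      have q1 : (U : ℝ) ≤ ((K + 1 : ℕ) : ℝ) * Real.log (Real.log (Real.log N)) + 1 := by
        rw [hU]; exact (Nat.ceil_lt_add_one (by positivity)).le
      push_cast at q1
      rw [pow_one] at a4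
      have q3 : √(N : ℝ) ≤ N := by
        rw [Real.sqrt_le_left (Nat.cast_nonneg _)]
        rw [hN']
        nlinarith
      have q4 : ((K : ℝ) + 1) * Real.log (Real.log (Real.log N)) ≤ (K + 1) * Real.log N := by
        apply mul_le_mul_of_nonneg_left _ (by linarith)
        linarith
      have q5 : (12 : ℝ) * U ≤ N := by nlinarith
      have : (U : ℝ) ≤ Y := by
        rw [hN'] at q5
        linarith
      exact_mod_cast this
    have hMc : (N : ℝ) / Real.log N ^ (A + 1) ≤ (((Icc 1 Y).filter S).card : ℝ) := by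
      refine le_trans ?_ (hS Y hX1)
      have hlY : 0 < Real.log Y := Real.log_pos (by linarith)
      have hlYN : Real.log Y ≤ Real.log N := by
        apply Real.log_le_log (by linarith)
        rw [hN']; linarith
      rw [div_le_div_iff₀ (by positivity) (by positivity)]
      have q1 : Real.log Y ^ A ≤ Real.log N ^ A := pow_le_pow_left₀ hlY.le hlYN A
      calc (N : ℝ) * Real.log Y ^ A = Y * (12 * Real.log Y ^ A) := by rw [hN']; ring
        _ ≤ Y * (Real.log N * Real.log N ^ A) := by gcongr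
        _ = Y * Real.log N ^ (A + 1) := by ring
    have key := h0 N (by omega) Y U (by omega) (by omega) hU0 hU1 hUY ((Icc 1 Y).filter S) (filter_subset _ _) hMc
    refine le_trans (Nat.cast_le.2 (card_le_card ?_)) key
    intro n hn
    rw [mem_filter, mem_Ioc] at hn
    rw [mem_filter, mem_Ioc]
    refine ⟨hn.1, fun u hu j hj => ?_⟩
    rw [mem_filter, mem_Icc] at hj
    intro hcon
    apply hn.2
    have h9 := h1 Y hY1 n hn.1.1 u (by rw [← hN, ← hU]; exact hu)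
    exact ⟨u, j, by push_cast at h9 ⊢; exact h9, hj.1.1, by omega, hj.2, hcon⟩
  obtain ⟨K', hK'⟩ := dyadic_sum _ δ hδ.le _ hdy
  refine ⟨⌈2 * K' / ε⌉₊, fun X hX => ?_⟩
  refine (hK' X).trans ?_
  have q1 : 2 * (K' : ℝ) / ε ≤ X := (Nat.le_ceil _).trans (by exact_mod_cast hX)
  rw [div_le_iff₀ hε] at q1
  have q2 : δ * (X : ℝ) ≤ ε / 2 * X := mul_le_mul_of_nonneg_right hδε (Nat.cast_nonneg _)
  linarith

end Pool.Agent.L0h42.EG
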