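import Mathlib
import Pool.Agent.L0h42.EG.E12
import Pool.Agent.TH665.GP.F3

/-! Iterated primes. -/

set_option autoImplicit false
set_option linter.unusedSectionVars false

namespace Pool.Agent.L0h42.EG
open Finset
open Pool.Agent.L0h42.TB
open Pool.Agent.H373R2.T7
open Pool.Agent.H197R2.PG (PI)
open Pool.Agent.TH665.GP (ff ff_pi exists_index PI_prime)

/-- an odd iterated prime -/
def OI (a j : ℕ) : Prop := PI a j ∧ 3 ≤ j

open Classical in
lemma OI_dense (a : ℕ) : ∃ X1 : ℕ, ∀ X : ℕ, X1 ≤ X → X / Real.log X ^ (a + 2) ≤ (((Icc 1 X).filter (OI a)).card : ℝ) := by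
  obtain ⟨c, hc, y0, h⟩ := Pool.Agent.TH665.GP.density3 a
  obtain ⟨n1, h1⟩ := ev_L' (max 1 (1 / c))
  refine ⟨max y0 n1, fun X hX => ?_⟩
  obtain ⟨S, hS1, hS2, hS3⟩ := h X (le_trans (le_max_left _ _) hX)
  have hL := h1 X (le_trans (le_max_right _ _) hX)
  have hL1 : 1 ≤ Real.log X := (le_max_left _ _).trans hL
  have hL2 : 1 / c ≤ Real.log X := (le_max_right _ _).trans hL
  have hL0 : 0 < Real.log X := by linarith
  have hsub : S ⊆ (Icc 1 X).filter (OI a) := by
    intro u hu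
    have h2 := mem_Icc.1 (hS1 hu)
    rw [mem_filter, mem_Icc]
    exact ⟨by omega, hS2 u hu, h2.1⟩
  have hcard : (S.card : ℝ) ≤ (((Icc 1 X).filter (OI a)).card : ℝ) := by exact_mod_cast card_le_card hsub
  refine le_trans ?_ hcard
  rw [div_le_iff₀ (by positivity)]
  rw [div_le_iff₀ hc] at hL2
  calc (X : ℝ) = X * 1 := by ring
    _ ≤ X * (Real.log X * c) := mul_le_mul_of_nonneg_left hL2 (Nat.cast_nonneg _)
    _ = (c * X) * Real.log X := by ring
    _ ≤ (S.card * Real.log X ^ (a + 1)) * Real.log X := mul_le_mul_of_nonneg_right hS3 hL0.le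
    _ = _ := by ring

/-- from the even integers to all integers -/
lemma even_transfer (P Q : ℕ → Prop) [DecidablePred P] [DecidablePred Q] (n0 : ℕ) (h : ∀ n, n0 ≤ n → P n → Q (2 * n)) (ε : ℝ) (hε : 0 < ε) (X0 : ℕ)
    (hQ : ∀ X : ℕ, X0 ≤ X → (((Icc 1 X).filter Q).card : ℝ) ≤ ε / 4 * X) :
    ∃ X1 : ℕ, ∀ X : ℕ, X1 ≤ X → (((Icc 1 X).filter P).card : ℝ) ≤ ε * X := by
  refine ⟨max X0 ⌈2 * n0 / ε⌉₊, fun X hX => ?_⟩
  have h1 : ((Icc 1 X).filter P).card ≤ n0 + ((Icc 1 (2 * X)).filter Q).card := by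
    have h2 : (Icc 1 X).filter P ⊆ range n0 ∪ ((Icc 1 X).filter (fun n => n0 ≤ n ∧ P n)) := by
      intro n hn
      rw [mem_filter, mem_Icc] at hn
      rw [mem_union, mem_range, mem_filter, mem_Icc]
      by_cases h3 : n < n0
      · exact Or.inl h3
      · exact Or.inr ⟨hn.1, by omega, hn.2⟩
    have h3 : ((Icc 1 X).filter (fun n => n0 ≤ n ∧ P n)).card ≤ ((Icc 1 (2 * X)).filter Q).card := by
      apply card_le_card_of_injOn (fun n => 2 * n)
      · intro n hn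
        rw [mem_coe, mem_filter, mem_Icc] at hn
        rw [mem_coe, mem_filter, mem_Icc]
        refine ⟨?_, h n hn.2.1 hn.2.2⟩
        change 1 ≤ 2 * n ∧ 2 * n ≤ 2 * X
        omega
      · intro a _ b _ hab
        simp only at hab
        omega
    calc _ ≤ (range n0 ∪ ((Icc 1 X).filter (fun n => n0 ≤ n ∧ P n))).card := card_le_card h2
      _ ≤ (range n0).card + ((Icc 1 X).filter (fun n => n0 ≤ n ∧ P n)).card := card_union_le _ _
      _ ≤ _ := by rw [card_range]; omega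
  have h2 := hQ (2 * X) (by have := le_trans (le_max_left _ _) hX; omega)
  have h3 : 2 * (n0 : ℝ) / ε ≤ X := (Nat.le_ceil _).trans (by exact_mod_cast le_trans (le_max_right _ _) hX)
  rw [div_le_iff₀ hε] at h3
  have h4 : (((Icc 1 X).filter P).card : ℝ) ≤ n0 + (((Icc 1 (2 * X)).filter Q).card : ℝ) := by exact_mod_cast h1
  push_cast at h2
  linarith

/-- iterated logarithms of `2 n` -/
lemma l3_two : ∃ n0 : ℕ, ∀ n : ℕ, n0 ≤ n → 1 ≤ Real.log (Real.log (Real.log n)) ∧ 0 ≤ Real.log (Real.log (Real.log (2 * n : ℕ))) ∧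
    Real.log (Real.log (Real.log (2 * n : ℕ))) ≤ 2 * Real.log (Real.log (Real.log n)) := by
  obtain ⟨n1, h1⟩ := logs_large 1
  refine ⟨max n1 32, fun n hn => ?_⟩
  have hn32 : 32 ≤ n := le_trans (le_max_right _ _) hn
  have a1 := h1 n (le_trans (le_max_left _ _) hn)
  have a2 := h1 (2 * n) (by have := le_trans (le_max_left _ _) hn; omega)
  refine ⟨a1, by linarith, ?_⟩
  have hn0 : (32 : ℝ) ≤ n := by exact_mod_cast hn32
  have hL : 1 < Real.log n := by
    rw [Real.lt_log_iff_exp_lt (by linarith)]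
    have := Real.exp_one_lt_d9
    linarith
  have hl2 : 0 < Real.log (Real.log n) := Real.log_pos hL
  have hl2' : 1 ≤ Real.log (Real.log n) := by
    by_contra hcon
    push Not at hcon
    have := Real.log_nonpos hl2.le hcon.le
    linarith
  have g1 : Real.log (2 * n : ℕ) ≤ 2 * Real.log n := by
    have : ((2 * n : ℕ) : ℝ) ≤ (n : ℝ) ^ 2 := by
      have : 2 * n ≤ n ^ 2 := by nlinarith
      exact_mod_cast this
    have h3 := Real.log_le_log (by exact_mod_cast (by omega : 0 < 2 * n)) this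
    rw [Real.log_pow] at h3
    exact_mod_cast h3
  have hy0 : (64 : ℝ) ≤ (2 * n : ℕ) := by exact_mod_cast (by omega : 64 ≤ 2 * n)
  have hLY : 1 < Real.log (2 * n : ℕ) := by
    rw [Real.lt_log_iff_exp_lt (by linarith)]
    have := Real.exp_one_lt_d9
    linarith
  have g2 : Real.log (Real.log (2 * n : ℕ)) ≤ 2 * Real.log (Real.log n) := by
    have h3 := Real.log_le_log (by linarith) g1
    rw [Real.log_mul (by norm_num) (by linarith)] at h3
    have := Real.log_two_lt_d9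
    linarith
  have hl2Y : 0 < Real.log (Real.log (2 * n : ℕ)) := Real.log_pos hLY
  have h3 := Real.log_le_log hl2Y g2
  rw [Real.log_mul (by norm_num) (by linarith)] at h3
  have := Real.log_two_lt_d9
  linarith

/-- the `k` shifts -/
def hs (k : ℕ) : Fin k → ℕ := fun l => (2 * k).factorial * (l + 1)

lemma hs_inj (k : ℕ) : Function.Injective (hs k) := by
  intro a b hab
  unfold hs at hab
  have h1 : 0 < (2 * k).factorial := Nat.factorial_pos _
  have h2 := Nat.eq_of_mul_eq_mul_left h1 hab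
  apply Fin.ext
  omega

lemma hs_dvd (k : ℕ) : ∀ p, p.Prime → p ≤ 2 * k → ∀ l, p ∣ hs k l := by
  intro p hp hpk l
  unfold hs
  exact Dvd.dvd.mul_right ((hp.dvd_factorial).2 hpk) _

lemma hs_le (k : ℕ) (l : Fin k) : hs k l ≤ (2 * k).factorial * k := by
  unfold hs
  exact Nat.mul_le_mul_left _ (by have := l.2; omega)

lemma hs_ge (k : ℕ) (l : Fin k) : 2 ≤ hs k l ∧ Even (hs k l) := by
  unfold hs
  have hk : 1 ≤ k := by have := l.2; omega
  have h2 : 2 ∣ (2 * k).factorial := (Nat.prime_two.dvd_factorial).2 (by omega)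
  obtain ⟨c, hc⟩ := h2
  have h3 : 0 < (2 * k).factorial := Nat.factorial_pos _
  constructor
  · rw [hc]
    have : 1 ≤ c := by omega
    nlinarith
  · exact (even_iff_two_dvd.2 ⟨c, hc⟩).mul_right _

/-- `u + q = 2 n` for a prime `q ≠ u` -/
def RepBy (u n : ℕ) : Prop := ∃ q : ℕ, q.Prime ∧ u ≠ q ∧ u + q = 2 * n

open Classical in
/-- windows with many representable numbers -/
theorem ip_clusters (m : ℕ) (hm : 1 ≤ m) : ∃ B C : ℕ, ∀ a : ℕ, ∀ ε : ℝ, 0 < ε → ∃ X1 : ℕ, ∀ X : ℕ, X1 ≤ X →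
    (((Icc 1 X).filter (fun n : ℕ => ¬ ∃ u t : ℕ, OI a u ∧ n ≤ t ∧ (t + C : ℝ) ≤ n + Real.log (Real.log (Real.log n)) ^ B ∧
      m ≤ ((Icc t (t + C)).filter (RepBy u)).card)).card : ℝ) ≤ ε * X := by
  obtain ⟨k, hk, hcore⟩ := egen_all m hm
  obtain ⟨C, hC⟩ : ∃ C, C = (2 * k).factorial * k := ⟨_, rfl⟩
  refine ⟨2 * k ^ 3 + 3, C, fun a ε hε => ?_⟩
  obtain ⟨X1, h1⟩ := OI_dense a
  obtain ⟨X0, h0⟩ := hcore (hs k) (hs_inj k) (hs_dvd k) (a + 2) (OI a) X1 h1 (ε / 4) (by positivity)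
  obtain ⟨n1, hn1⟩ := l3_two
  obtain ⟨n2, hn2⟩ := logs_large (2 ^ (2 * k ^ 3 + 2) + 2 * C + 1)
  refine even_transfer _ _ (max (max n1 n2) 3) ?_ ε hε X0 h0
  intro n hn
  contrapose!
  rintro ⟨u, j, hu, hj1, hj2, hj3, hnp⟩
  obtain ⟨b1, b2, b3⟩ := hn1 n (le_trans (le_trans (le_max_left _ _) (le_max_left _ _)) hn)
  have b4 := hn2 n (le_trans (le_trans (le_max_right _ _) (le_max_left _ _)) hn)
  have hn3 : 3 ≤ n := le_trans (le_max_right _ _) hn
  have hjp : j.Prime := PI_prime hj3.1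
  have hjodd : Odd j := hjp.odd_of_ne_two (by have := hj3.2; omega)
  -- the parity of `u`
  have hne : (univ.filter (fun l => ((2 * n + u - j) + hs k l).Prime)).card ≥ 1 := le_trans hm hnp
  obtain ⟨l0, hl0⟩ := card_pos.1 hne
  rw [mem_filter] at hl0
  have hev : Even u := by
    have h2 : Odd ((2 * n + u - j) + hs k l0) := hl0.2.odd_of_ne_two (by have := (hs_ge k l0).1; omega)
    have h3 := (hs_ge k l0).2
    rcases Nat.even_or_odd u with h4 | h4
    · exact h4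
    · exfalso
      obtain ⟨x1, e1⟩ := h2
      obtain ⟨x2, e2⟩ := h3
      obtain ⟨x3, e3⟩ := h4
      obtain ⟨x4, e4⟩ := hjodd
      omega
  obtain ⟨u', hu'⟩ := hev
  refine ⟨j, n + u', hj3, by omega, ?_, ?_⟩
  · -- the length of the window
    have h2 : (u : ℝ) ≤ 2 ^ (2 * k ^ 3 + 2) * Real.log (Real.log (Real.log n)) ^ (2 * k ^ 3 + 2) := by
      refine hu.trans ?_
      rw [← mul_pow]
      exact pow_le_pow_left₀ b2 b3 _
    have h3 : (u : ℝ) = u' + u' := by exact_mod_cast hu'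
    have h4 : (1 : ℝ) ≤ Real.log (Real.log (Real.log n)) ^ (2 * k ^ 3 + 2) := one_le_pow₀ b1
    have h5 : (0 : ℝ) ≤ C := Nat.cast_nonneg _
    have h6 : (2 ^ (2 * k ^ 3 + 2) + 2 * C + 1 : ℝ) * Real.log (Real.log (Real.log n)) ^ (2 * k ^ 3 + 2) ≤ Real.log (Real.log (Real.log n)) ^ (2 * k ^ 3 + 3) := by
      rw [pow_succ _ (2 * k ^ 3 + 2), mul_comm]
      exact mul_le_mul_of_nonneg_left b4 (by positivity)
    have h7 : (C : ℝ) ≤ C * Real.log (Real.log (Real.log n)) ^ (2 * k ^ 3 + 2) := le_mul_of_one_le_right h5 h4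
    have h8 : (0 : ℝ) ≤ 2 ^ (2 * k ^ 3 + 2) * Real.log (Real.log (Real.log n)) ^ (2 * k ^ 3 + 2) := by positivity
    push_cast
    nlinarith
  · -- the representable numbers
    refine le_trans hnp ?_
    unfold np
    apply card_le_card_of_injOn (fun l => n + u' + hs k l / 2)
    · intro l hl
      rw [mem_coe, mem_filter] at hl
      rw [mem_coe, mem_filter, mem_Icc]
      have h2 := hs_ge k l
      have h3 := hs_le k l
      obtain ⟨x2, e2⟩ := h2.2
      refine ⟨⟨Nat.le_add_right _ _, ?_⟩, (2 * n + u - j) + hs k l, hl.2, ?_, ?_⟩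
      · change n + u' + hs k l / 2 ≤ n + u' + C
        omega
      · omega
      · change j + ((2 * n + u - j) + hs k l) = 2 * (n + u' + hs k l / 2)
        omega
    · intro l1 _ l2 _ h12
      simp only at h12
      obtain ⟨x1, e1⟩ := (hs_ge k l1).2
      obtain ⟨x2, e2⟩ := (hs_ge k l2).2
      exact hs_inj k (by omega)

open Classical in
/-- windows with one representable number -/
theorem ip_one (ε : ℝ) (hε : 0 < ε) : ∃ K : ℕ, ∀ a : ℕ, ∃ X1 : ℕ, ∀ X : ℕ, X1 ≤ X →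
    (((Icc 1 X).filter (fun n : ℕ => ¬ ∃ u n' : ℕ, OI a u ∧ n ≤ n' ∧ (n' : ℝ) ≤ n + K * Real.log (Real.log (Real.log n)) ∧ RepBy u n')).card : ℝ) ≤ ε * X := by
  obtain ⟨K, hK⟩ := one_all (ε / 4) (by positivity)
  refine ⟨K, fun a => ?_⟩
  obtain ⟨X1, h1⟩ := OI_dense a
  obtain ⟨X0, h0⟩ := hK (a + 2) (OI a) X1 h1
  obtain ⟨n1, hn1⟩ := l3_two
  refine even_transfer _ _ (max n1 3) ?_ ε hε X0 h0
  intro n hn
  contrapose!
  rintro ⟨u, j, hu, hj1, hj2, hj3, hnp⟩
  obtain ⟨b1, b2, b3⟩ := hn1 n (le_trans (le_max_left _ _) hn)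
  have hn3 : 3 ≤ n := le_trans (le_max_right _ _) hn
  have hjp : j.Prime := PI_prime hj3.1
  have hjodd : Odd j := hjp.odd_of_ne_two (by have := hj3.2; omega)
  have hev : Even u := by
    have h2 : Odd (2 * n + u - j) := hnp.odd_of_ne_two (by omega)
    rcases Nat.even_or_odd u with h4 | h4
    · exact h4
    · exfalso
      obtain ⟨x1, e1⟩ := h2
      obtain ⟨x3, e3⟩ := h4
      obtain ⟨x4, e4⟩ := hjodd
      omega
  obtain ⟨u', hu'⟩ := hev
  refine ⟨j, n + u', hj3, by omega, ?_, 2 * n + u - j, hnp, by omega, by omega⟩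
  have h3 : (u : ℝ) = u' + u' := by exact_mod_cast hu'
  have hK0 : (0 : ℝ) ≤ K := Nat.cast_nonneg _
  have h4 : (u : ℝ) ≤ K * (2 * Real.log (Real.log (Real.log n))) := hu.trans (mul_le_mul_of_nonneg_left b3 hK0)
  push_cast
  linarith

end Pool.Agent.L0h42.EG
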