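import Mathlib
import Pool.Agent.L0h42.EG.F1
import Pool.Agent.L0h42.TB.B21

/-! Indices of clusters. -/

set_option autoImplicit false
set_option linter.unusedSectionVars false

namespace Pool.Agent.L0h42.EG
open Finset
open Pool.Agent.L0h42.TB
open Pool.Agent.H373R2.T7
open Pool.Agent.TH665.GP (ff ff_pi)

/-- iterated logarithms of `c n` -/
lemma l3_mul (c : ℕ) (hc : 1 ≤ c) : ∃ n0 : ℕ, ∀ n : ℕ, n0 ≤ n → 1 ≤ Real.log (Real.log (Real.log n)) ∧ 0 ≤ Real.log (Real.log (Real.log (c * n : ℕ))) ∧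
    Real.log (Real.log (Real.log (c * n : ℕ))) ≤ 2 * Real.log (Real.log (Real.log n)) := by
  obtain ⟨n1, h1⟩ := logs_large 1
  refine ⟨max n1 (max c 32), fun n hn => ?_⟩
  have hn32 : 32 ≤ n := le_trans (le_trans (le_max_right _ _) (le_max_right _ _)) hn
  have hcn : c ≤ n := le_trans (le_trans (le_max_left _ _) (le_max_right _ _)) hn
  have hnn : n ≤ c * n := Nat.le_mul_of_pos_left n hc
  have a1 := h1 n (le_trans (le_max_left _ _) hn)
  have a2 := h1 (c * n) (by have := le_trans (le_max_left _ _) hn; omega)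
  refine ⟨a1, by linarith, ?_⟩
  have hn0 : (32 : ℝ) ≤ n := by exact_mod_cast hn32
  have hL : 1 < Real.log n := by
    rw [Real.lt_log_iff_exp_lt (by linarith)]
    have := Real.exp_one_lt_d9
    linarith
  have hl2 : 0 < Real.log (Real.log n) := Real.log_pos hL
  have hl2' : 1 ≤ Real.log (Real.log n) := by
    by_contra hcon
    push Not at hcon
    have := Real.log_nonpos hl2.le hcon.le
    linarith
  have g1 : Real.log (c * n : ℕ) ≤ 2 * Real.log n := by
    have : ((c * n : ℕ) : ℝ) ≤ (n : ℝ) ^ 2 := by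
      have : c * n ≤ n ^ 2 := by rw [sq]; exact Nat.mul_le_mul_right n hcn
      exact_mod_cast this
    have h3 := Real.log_le_log (by exact_mod_cast (by omega : 0 < c * n)) this
    rw [Real.log_pow] at h3
    exact_mod_cast h3
  have hy0 : (32 : ℝ) ≤ (c * n : ℕ) := by exact_mod_cast (by omega : 32 ≤ c * n)
  have hLY : 1 < Real.log (c * n : ℕ) := by
    rw [Real.lt_log_iff_exp_lt (by linarith)]
    have := Real.exp_one_lt_d9
    linarith
  have g2 : Real.log (Real.log (c * n : ℕ)) ≤ 2 * Real.log (Real.log n) := by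
    have h3 := Real.log_le_log (by linarith) g1
    rw [Real.log_mul (by norm_num) (by linarith)] at h3
    have := Real.log_two_lt_d9
    linarith
  have hl2Y : 0 < Real.log (Real.log (c * n : ℕ)) := Real.log_pos hLY
  have h3 := Real.log_le_log hl2Y g2
  rw [Real.log_mul (by norm_num) (by linarith)] at h3
  have := Real.log_two_lt_d9
  linarith

/-- from the multiples of `c` to all integers -/
lemma mult_transfer (c : ℕ) (hc : 1 ≤ c) (P Q : ℕ → Prop) [DecidablePred P] [DecidablePred Q] (n0 : ℕ) (h : ∀ n, n0 ≤ n → P n → Q (c * n)) (ε : ℝ) (hε : 0 < ε) (X0 : ℕ)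
    (hQ : ∀ X : ℕ, X0 ≤ X → (((Icc 1 X).filter Q).card : ℝ) ≤ ε / (2 * c) * X) :
    ∃ X1 : ℕ, ∀ X : ℕ, X1 ≤ X → (((Icc 1 X).filter P).card : ℝ) ≤ ε * X := by
  refine ⟨max X0 ⌈2 * n0 / ε⌉₊, fun X hX => ?_⟩
  have h1 : ((Icc 1 X).filter P).card ≤ n0 + ((Icc 1 (c * X)).filter Q).card := by
    have h2 : (Icc 1 X).filter P ⊆ range n0 ∪ ((Icc 1 X).filter (fun n => n0 ≤ n ∧ P n)) := by
      intro n hn
      rw [mem_filter, mem_Icc] at hn
      rw [mem_union, mem_range, mem_filter, mem_Icc]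
      by_cases h3 : n < n0
      · exact Or.inl h3
      · exact Or.inr ⟨hn.1, by omega, hn.2⟩
    have h3 : ((Icc 1 X).filter (fun n => n0 ≤ n ∧ P n)).card ≤ ((Icc 1 (c * X)).filter Q).card := by
      apply card_le_card_of_injOn (fun n => c * n)
      · intro n hn
        rw [mem_coe, mem_filter, mem_Icc] at hn
        rw [mem_coe, mem_filter, mem_Icc]
        refine ⟨?_, h n hn.2.1 hn.2.2⟩
        change 1 ≤ c * n ∧ c * n ≤ c * X
        exact ⟨Nat.mul_pos hc hn.1.1, Nat.mul_le_mul_left c hn.1.2⟩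
      · intro a _ b _ hab
        exact Nat.eq_of_mul_eq_mul_left hc hab
    calc _ ≤ (range n0 ∪ ((Icc 1 X).filter (fun n => n0 ≤ n ∧ P n))).card := card_le_card h2
      _ ≤ (range n0).card + ((Icc 1 X).filter (fun n => n0 ≤ n ∧ P n)).card := card_union_le _ _
      _ ≤ _ := by rw [card_range]; omega
  have h2 := hQ (c * X) (by
    have := le_trans (le_max_left _ _) hX
    exact this.trans (Nat.le_mul_of_pos_left X hc))
  have h3 : 2 * (n0 : ℝ) / ε ≤ X := (Nat.le_ceil _).trans (by exact_mod_cast le_trans (le_max_right _ _) hX)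
  rw [div_le_iff₀ hε] at h3
  have h4 : (((Icc 1 X).filter P).card : ℝ) ≤ n0 + (((Icc 1 (c * X)).filter Q).card : ℝ) := by exact_mod_cast h1
  have hc0 : (0 : ℝ) < c := by exact_mod_cast hc
  have h5 : ε / (2 * c) * ((c * X : ℕ) : ℝ) = ε / 2 * X := by
    push_cast
    field_simp
  rw [h5] at h2
  linarith

/-- the number of primes in `[p, p + C]` is at least `m` -/
def Clu (m C p : ℕ) : Prop := m ≤ ((Icc p (p + C)).filter Nat.Prime).card

open Classical in
/-- the primes which start clusters have log density -/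
theorem clu_dense (m : ℕ) (hm : 1 ≤ m) : ∃ C A X1 : ℕ, ∀ X : ℕ, X1 ≤ X →
    X / Real.log X ^ A ≤ (((Icc 1 X).filter (fun p => p.Prime ∧ Clu m C p)).card : ℝ) := by
  obtain ⟨k, hk, hcore⟩ := core m hm
  obtain ⟨B, N0, h0⟩ := hcore 1
  obtain ⟨C, hC⟩ : ∃ C, C = (2 * k).factorial * k := ⟨_, rfl⟩
  obtain ⟨n1, h1⟩ := ev_L' (max (max C 8) (k * 2 ^ B))
  refine ⟨C, B + 1, max (max N0 n1) (3 * C + 100), fun X hX => ?_⟩
  obtain ⟨Y, hY⟩ : ∃ Y, Y = X / 4 := ⟨_, rfl⟩
  obtain ⟨N, hN⟩ : ∃ N, N = 13 * Y := ⟨_, rfl⟩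
  have hXb : 3 * C + 100 ≤ X := le_trans (le_max_right _ _) hX
  have hX0 : N0 ≤ X := le_trans (le_trans (le_max_left _ _) (le_max_left _ _)) hX
  have hX1 : n1 ≤ X := le_trans (le_trans (le_max_right _ _) (le_max_left _ _)) hX
  have hNX : X ≤ N := by omega
  have hNX2 : N ≤ X ^ 2 := by
    rw [sq]
    exact (show N ≤ 13 * X by omega).trans (Nat.mul_le_mul_right X (by omega))
  have hl := h1 N (by omega)
  have hlX := h1 X hX1
  have hL8 : 8 ≤ Real.log N := le_trans (le_trans (le_max_right _ _) (le_max_left _ _)) hl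
  have hLC : (C : ℝ) ≤ Real.log N := le_trans (le_trans (le_max_left _ _) (le_max_left _ _)) hl
  have hLX8 : 8 ≤ Real.log X := le_trans (le_trans (le_max_right _ _) (le_max_left _ _)) hlX
  have hLk : (k : ℝ) * 2 ^ B ≤ Real.log X := le_trans (le_max_right _ _) hlX
  have key := h0 N (by omega) Y (by omega) (by omega) (hs k) (hs k) (hs_inj k) (hs_inj k)
    (fun l => le_trans (by exact_mod_cast (hC ▸ hs_le k l)) hLC) (fun l => le_trans (by exact_mod_cast (hC ▸ hs_le k l)) hLC) (hs_dvd k) (hs_dvd k)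
  have hX0r : (0 : ℝ) < X := by exact_mod_cast (by omega : 0 < X)
  -- an even `n` with many `a`
  obtain ⟨n, hn, hgood⟩ : ∃ n : ℕ, n ≤ 12 * Y ∧ N / Real.log N ^ B ≤ ((Good m Y (hs k) (hs k) n).card : ℝ) := by
    by_contra hcon
    push Not at hcon
    have h2 : ((Icc (2 * Y + 1) (6 * Y)).image (fun i => 2 * i)) ⊆ (Ioc (4 * Y) (12 * Y)).filter (fun n => Even n ∧ ((Good m Y (hs k) (hs k) n).card : ℝ) < N / Real.log N ^ B) := by
      intro n hn
      rw [mem_image] at hn
      obtain ⟨i, hi, rfl⟩ := hn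
      rw [mem_Icc] at hi
      rw [mem_filter, mem_Ioc]
      exact ⟨by omega, even_two_mul i, hcon (2 * i) (by omega)⟩
    have h3 := card_le_card h2
    rw [card_image_of_injective _ (fun a b hab => by simpa using hab), Nat.card_Icc] at h3
    have h4 : ((6 * Y + 1 - (2 * Y + 1) : ℕ) : ℝ) ≤ N / Real.log N ^ 1 := le_trans (by exact_mod_cast h3) key
    rw [pow_one, le_div_iff₀ (by linarith)] at h4
    have h5 : ((6 * Y + 1 - (2 * Y + 1) : ℕ) : ℝ) = 4 * Y := by
      have : 6 * Y + 1 - (2 * Y + 1) = 4 * Y := by omega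
      rw [this]; push_cast; ring
    rw [h5] at h4
    have h6 : (N : ℝ) = 13 * Y := by rw [hN]; push_cast; ring
    have h7 : (0 : ℝ) < Y := by exact_mod_cast (by omega : 0 < Y)
    rw [h6] at h4 hL8
    nlinarith
  -- the injections
  obtain ⟨Cl, hCl⟩ : ∃ Cl, Cl = (Icc 1 X).filter (fun p => p.Prime ∧ Clu m C p) := ⟨_, rfl⟩
  have h2 : Good m Y (hs k) (hs k) n ⊆ univ.biUnion (fun l : Fin k => (Ioc Y (2 * Y)).filter (fun a => a + hs k l ∈ Cl)) := by
    intro a ha
    unfold Good at ha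
    rw [mem_filter, mem_Ioc] at ha
    have h3 : (univ.filter (fun l => (a + hs k l).Prime)).Nonempty := card_pos.1 (lt_of_lt_of_le hm ha.2.1)
    obtain ⟨l, hl1, hl2⟩ := exists_min_image _ (fun l => hs k l) h3
    rw [mem_filter] at hl1
    rw [mem_biUnion]
    refine ⟨l, mem_univ _, ?_⟩
    rw [mem_filter, mem_Ioc, hCl, mem_filter, mem_Icc]
    have h5 := hs_le k l
    rw [← hC] at h5
    refine ⟨ha.1, ⟨by omega, by omega⟩, hl1.2, ?_⟩
    unfold Clu
    refine le_trans ha.2.1 ?_
    unfold np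
    apply card_le_card_of_injOn (fun l' => a + hs k l')
    · intro l' hl'
      rw [mem_coe] at hl'
      have h6 := hl2 l' hl'
      rw [mem_filter] at hl'
      rw [mem_coe, mem_filter, mem_Icc]
      have h7 := hs_le k l'
      rw [← hC] at h7
      refine ⟨⟨?_, ?_⟩, hl'.2⟩
      · change a + hs k l ≤ a + hs k l'
        exact Nat.add_le_add_left h6 a
      · change a + hs k l' ≤ a + hs k l + C
        omega
    · intro x _ y _ hxy
      apply hs_inj k
      simp only at hxy
      omega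
  have h3 : (Good m Y (hs k) (hs k) n).card ≤ k * Cl.card := by
    calc _ ≤ _ := card_le_card h2
      _ ≤ ∑ l : Fin k, ((Ioc Y (2 * Y)).filter (fun a => a + hs k l ∈ Cl)).card := card_biUnion_le
      _ ≤ ∑ _l : Fin k, Cl.card := by
          apply sum_le_sum
          intro l _
          apply card_le_card_of_injOn (fun a => a + hs k l)
          · intro a ha
            rw [mem_coe, mem_filter] at ha
            exact ha.2
          · intro x _ y _ hxy
            simp only at hxy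
            omega
      _ = _ := by rw [sum_const, card_univ, Fintype.card_fin, smul_eq_mul]
  have h4 : N / Real.log N ^ B ≤ k * (Cl.card : ℝ) := hgood.trans (by exact_mod_cast h3)
  rw [← hCl]
  have hkr : (1 : ℝ) ≤ k := by exact_mod_cast hk
  have hlN : Real.log N ≤ 2 * Real.log X := by
    have h5 := Real.log_le_log (show (0 : ℝ) < N by exact_mod_cast (by omega : 0 < N)) (show (N : ℝ) ≤ (X : ℝ) ^ 2 by exact_mod_cast hNX2)
    rw [Real.log_pow] at h5
    exact_mod_cast h5
  have hLX0 : 0 < Real.log X := by linarith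
  have hLN0 : 0 < Real.log N := by linarith
  rw [div_le_iff₀ (by positivity)] at h4 ⊢
  have h5 : Real.log N ^ B ≤ 2 ^ B * Real.log X ^ B := by
    rw [← mul_pow]
    exact pow_le_pow_left₀ hLN0.le hlN B
  calc (X : ℝ) ≤ N := by exact_mod_cast hNX
    _ ≤ k * Cl.card * Real.log N ^ B := h4
    _ ≤ k * Cl.card * (2 ^ B * Real.log X ^ B) := mul_le_mul_of_nonneg_left h5 (by positivity)
    _ = Cl.card * ((k * 2 ^ B) * Real.log X ^ B) := by ring
    _ ≤ Cl.card * (Real.log X * Real.log X ^ B) := by gcongr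
    _ = _ := by ring

/-- the `i`-th prime starts a cluster -/
def IC (m C i : ℕ) : Prop := 1 ≤ i ∧ Clu m C (ff i)

open Classical in
lemma IC_dense (m : ℕ) (hm : 1 ≤ m) : ∃ C A X1 : ℕ, ∀ X : ℕ, X1 ≤ X →
    X / Real.log X ^ A ≤ (((Icc 1 X).filter (IC m C)).card : ℝ) := by
  obtain ⟨C, A, X1, h⟩ := clu_dense m hm
  refine ⟨C, A, X1, fun X hX => (h X hX).trans ?_⟩
  have : ((Icc 1 X).filter (fun p => p.Prime ∧ Clu m C p)).card ≤ ((Icc 1 X).filter (IC m C)).card := by
    apply card_le_card_of_injOn Nat.primeCounting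
    · intro p hp
      rw [mem_coe, mem_filter, mem_Icc] at hp
      rw [mem_coe, mem_filter, mem_Icc]
      have h2 : Nat.primeCounting p = Nat.count Nat.Prime p + 1 := by
        rw [Nat.primeCounting, Nat.primeCounting', Nat.count_succ, if_pos hp.2.1]
      have h3 : Nat.primeCounting p ≤ p := by
        rw [h2]
        have h4 : Nat.count Nat.Prime p ≤ p - 1 := by
          have h5 : Nat.count Nat.Prime p = Nat.count Nat.Prime (1 + (p - 1)) := by
            congr 1
            have := hp.1.1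
            omega
          rw [h5, Nat.count_add]
          have h6 : Nat.count Nat.Prime 1 = 0 := by decide
          rw [h6, zero_add]
          exact Nat.count_le _
        have := hp.1.1
        omega
      refine ⟨⟨by omega, by omega⟩, by omega, ?_⟩
      rw [ff_pi hp.2.1]
      exact hp.2.2
    · intro p hp q hq hpq
      rw [mem_coe, mem_filter] at hp hq
      have h2 := ff_pi hp.2.1
      have h3 := ff_pi hq.2.1
      rw [← h2, ← h3]
      try simp only at hpq
      rw [hpq]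
  exact_mod_cast this

open Classical in
/-- multiples of six -/
lemma six_dense (P : ℕ → Prop) (A X1 : ℕ) (h : ∀ X : ℕ, X1 ≤ X → X / Real.log X ^ A ≤ (((Icc 1 X).filter P).card : ℝ)) :
    ∃ X2 : ℕ, ∀ X : ℕ, X2 ≤ X → X / Real.log X ^ (A + 1) ≤ (((Icc 1 X).filter (fun j => ∃ i, j = 6 * i ∧ P i)).card : ℝ) := by
  obtain ⟨n1, h1⟩ := ev_L' 12
  refine ⟨max (6 * X1) (max n1 100), fun X hX => ?_⟩
  have hX1 : 6 * X1 ≤ X := le_trans (le_max_left _ _) hX
  have hXn : n1 ≤ X := le_trans (le_trans (le_max_left _ _) (le_max_right _ _)) hX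
  have hX100 : 100 ≤ X := le_trans (le_trans (le_max_right _ _) (le_max_right _ _)) hX
  have h2 := h (X / 6) (by omega)
  have hL := h1 X hXn
  have h3 : ((Icc 1 (X / 6)).filter P).card ≤ ((Icc 1 X).filter (fun j => ∃ i, j = 6 * i ∧ P i)).card := by
    apply card_le_card_of_injOn (fun i => 6 * i)
    · intro i hi
      rw [mem_coe, mem_filter, mem_Icc] at hi
      rw [mem_coe, mem_filter, mem_Icc]
      refine ⟨?_, i, rfl, hi.2⟩
      change 1 ≤ 6 * i ∧ 6 * i ≤ X
      omega
    · intro a _ b _ hab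
      simp only at hab
      omega
  have h4 : (((Icc 1 (X / 6)).filter P).card : ℝ) ≤ (((Icc 1 X).filter (fun j => ∃ i, j = 6 * i ∧ P i)).card : ℝ) := by exact_mod_cast h3
  refine le_trans (le_trans ?_ h2) h4
  have h5 : (X : ℝ) ≤ 12 * ((X / 6 : ℕ) : ℝ) := by exact_mod_cast (by omega : X ≤ 12 * (X / 6))
  have h6 : 0 < Real.log ((X / 6 : ℕ) : ℝ) := Real.log_pos (by exact_mod_cast (by omega : 1 < X / 6))
  have h7 : Real.log ((X / 6 : ℕ) : ℝ) ≤ Real.log X := Real.log_le_log (by exact_mod_cast (by omega : 0 < X / 6)) (by exact_mod_cast Nat.div_le_self X 6)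
  rw [div_le_div_iff₀ (by positivity) (by positivity)]
  have h8 := pow_le_pow_left₀ h6.le h7 A
  calc (X : ℝ) * Real.log ((X / 6 : ℕ) : ℝ) ^ A ≤ (12 * ((X / 6 : ℕ) : ℝ)) * Real.log X ^ A := by gcongr
    _ = ((X / 6 : ℕ) : ℝ) * (12 * Real.log X ^ A) := by ring
    _ ≤ ((X / 6 : ℕ) : ℝ) * (Real.log X * Real.log X ^ A) := by gcongr
    _ = _ := by ring

end Pool.Agent.L0h42.EG
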