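import Mathlib
import Pool.Agent.L0h42.EG.F2

/-! Sums of two indices of clusters. -/

set_option autoImplicit false
set_option linter.unusedSectionVars false

namespace Pool.Agent.L0h42.EG
open Finset
open Pool.Agent.L0h42.TB
open Pool.Agent.H373R2.T7
open Pool.Agent.TH665.GP (ff ff_pi)

open Classical in
theorem two_clusters (m : ℕ) (hm : 1 ≤ m) : ∃ B C : ℕ, ∀ ε : ℝ, 0 < ε → ∃ X1 : ℕ, ∀ X : ℕ, X1 ≤ X →
    (((Icc 1 X).filter (fun n : ℕ => ¬ ∃ k j : ℕ, 1 ≤ k ∧ 1 ≤ j ∧ n ≤ k + j ∧ ((k + j : ℕ) : ℝ) ≤ n + Real.log (Real.log (Real.log n)) ^ B ∧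
      m ≤ ((Ioc (6 * k) (6 * k + C)).filter Nat.Prime).card ∧ m ≤ ((Icc (ff j) (ff j + C)).filter Nat.Prime).card)).card : ℝ) ≤ ε * X := by
  obtain ⟨k, hk, hcore⟩ := egen_all m hm
  obtain ⟨C0, A, X1, hIC⟩ := IC_dense m hm
  obtain ⟨X2, h6⟩ := six_dense _ A X1 hIC
  obtain ⟨C, hC⟩ : ∃ C, C = (2 * k).factorial * k := ⟨_, rfl⟩
  refine ⟨2 * k ^ 3 + 3, max (C + 5) C0, fun ε hε => ?_⟩
  obtain ⟨X0, h0⟩ := hcore (hs k) (hs_inj k) (hs_dvd k) (A + 1) _ X2 h6 (ε / (2 * (6 : ℕ))) (by positivity)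
  obtain ⟨n1, hn1⟩ := l3_mul 6 (by norm_num)
  obtain ⟨n2, hn2⟩ := logs_large (2 ^ (2 * k ^ 3 + 2))
  refine mult_transfer 6 (by norm_num) _ _ (max (max n1 n2) 3) ?_ ε hε X0 h0
  intro n hn
  contrapose!
  rintro ⟨u, j, hu, hj1, hj2, ⟨i, rfl, hi1, hi2⟩, hnp⟩
  obtain ⟨b1, b2, b3⟩ := hn1 n (le_trans (le_trans (le_max_left _ _) (le_max_left _ _)) hn)
  have b4 := hn2 n (le_trans (le_trans (le_max_right _ _) (le_max_left _ _)) hn)
  have hn3 : 3 ≤ n := le_trans (le_max_right _ _) hn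
  refine ⟨n + u / 6 - i, i, by omega, hi1, by omega, ?_, ?_, ?_⟩
  · have h2 : (u : ℝ) ≤ 2 ^ (2 * k ^ 3 + 2) * Real.log (Real.log (Real.log n)) ^ (2 * k ^ 3 + 2) := by
      refine hu.trans ?_
      rw [← mul_pow]
      exact pow_le_pow_left₀ b2 b3 _
    have h6 : (2 ^ (2 * k ^ 3 + 2) : ℝ) * Real.log (Real.log (Real.log n)) ^ (2 * k ^ 3 + 2) ≤ Real.log (Real.log (Real.log n)) ^ (2 * k ^ 3 + 3) := by
      rw [pow_succ _ (2 * k ^ 3 + 2), mul_comm]
      exact mul_le_mul_of_nonneg_left b4 (by positivity)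
    have h7 : n + u / 6 - i + i ≤ n + u := by omega
    have h8 : ((n + u / 6 - i + i : ℕ) : ℝ) ≤ n + u := by exact_mod_cast h7
    linarith
  · refine le_trans hnp ?_
    unfold np
    apply card_le_card_of_injOn (fun l => 6 * n + u - 6 * i + hs k l)
    · intro l hl
      rw [mem_coe, mem_filter] at hl
      rw [mem_coe, mem_filter, mem_Ioc]
      have h2 := hs_ge k l
      have h3 := hs_le k l
      rw [← hC] at h3
      have h4 : C + 5 ≤ max (C + 5) C0 := le_max_left _ _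
      refine ⟨⟨?_, ?_⟩, hl.2⟩
      · change 6 * (n + u / 6 - i) < 6 * n + u - 6 * i + hs k l
        omega
      · change 6 * n + u - 6 * i + hs k l ≤ 6 * (n + u / 6 - i) + max (C + 5) C0
        omega
    · intro l1 _ l2 _ h12
      simp only at h12
      exact hs_inj k (by omega)
  · unfold Clu at hi2
    refine le_trans hi2 (card_le_card ?_)
    apply filter_subset_filter
    apply Icc_subset_Icc le_rfl
    have := le_max_right (C + 5) C0
    omega

end Pool.Agent.L0h42.EG
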